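import Pool.Agent.Run7.h34.Geo

/-! Morphisms to the affine plane. -/

set_option linter.unusedSectionVars false

namespace Run7.h34

open AlgebraicGeometry CategoryTheory Limits TopologicalSpace IsLocalRing Polynomial
open scoped WithZero

universe u

section

variable {Ω : Type u} [Field Ω]

/-- Evaluation of polynomials in two variables, with values in a commutative ring. -/
noncomputable def evr {k : Type*} [Field k] {A : Type*} [CommRing A] (c : k →+* A) (x y : A) :
    Polynomial (Polynomial k) →+* A :=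
  Polynomial.eval₂RingHom (Polynomial.eval₂RingHom c x) y

theorem evr_CC {k : Type*} [Field k] {A : Type*} [CommRing A] (c : k →+* A) (x y : A) (a : k) :
    evr c x y (C (C a)) = c a := by
  rw [evr, coe_eval₂RingHom, eval₂_C, coe_eval₂RingHom, eval₂_C]

theorem evr_CX {k : Type*} [Field k] {A : Type*} [CommRing A] (c : k →+* A) (x y : A) :
    evr c x y (C X) = x := by
  rw [evr, coe_eval₂RingHom, eval₂_C, coe_eval₂RingHom, eval₂_X]

theorem evr_X {k : Type*} [Field k] {A : Type*} [CommRing A] (c : k →+* A) (x y : A) :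
    evr c x y X = y := by
  rw [evr, coe_eval₂RingHom, eval₂_X]

/-- The affine plane. -/
noncomputable abbrev A2 (Ω : Type u) [Field Ω] : Scheme.{u} :=
  AffineSpace (ULift.{u} (Fin 2)) (Spec (CommRingCat.of Ω))

/-- The constants on the affine plane. -/
noncomputable def A2c (Ω : Type u) [Field Ω] : Ω →+* Γ(A2 Ω, ⊤) :=
  ((Scheme.ΓSpecIso (CommRingCat.of Ω)).inv ≫
    (A2 Ω ↘ Spec (CommRingCat.of Ω)).appTop).hom

/-- The polynomials on the affine plane. -/
noncomputable def A2p (Ω : Type u) [Field Ω] : Polynomial (Polynomial Ω) →+* Γ(A2 Ω, ⊤) :=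
  evr (A2c Ω) (AffineSpace.coord _ ⟨0⟩) (AffineSpace.coord _ ⟨1⟩)

theorem A2p_bijective : Function.Bijective (A2p Ω) := by
  let e : MvPolynomial (ULift.{u} (Fin 2)) Ω →+* Γ(A2 Ω, ⊤) :=
    MvPolynomial.eval₂Hom (A2c Ω) (AffineSpace.coord _)
  have he : Function.Bijective e := by
    have h1 := AffineSpace.SpecIso_hom_appTop (n := ULift.{u} (Fin 2)) (CommRingCat.of Ω)
    have h2 : CommRingCat.ofHom e =
        (Scheme.ΓSpecIso _).inv ≫ (AffineSpace.SpecIso (ULift.{u} (Fin 2))
          (CommRingCat.of Ω)).hom.appTop := by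
      rw [h1, Iso.inv_hom_id_assoc]
      rfl
    have h4 : IsIso (AffineSpace.SpecIso (ULift.{u} (Fin 2)) (CommRingCat.of Ω)).hom.appTop := by
      exact inferInstanceAs (IsIso ((AffineSpace.SpecIso (ULift.{u} (Fin 2))
        (CommRingCat.of Ω)).hom.app ⊤))
    have h3 : IsIso (CommRingCat.ofHom e) := by
      rw [h2]
      exact IsIso.comp_isIso' inferInstance h4
    exact (ConcreteCategory.isIso_iff_bijective (CommRingCat.ofHom e)).1 h3
  let ψ : MvPolynomial (ULift.{u} (Fin 2)) Ω →+* Polynomial (Polynomial Ω) :=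
    MvPolynomial.eval₂Hom ((C : Polynomial Ω →+* Polynomial (Polynomial Ω)).comp C) (fun i => if i.down = 0 then C X else X)
  let χ : Polynomial (Polynomial Ω) →+* MvPolynomial (ULift.{u} (Fin 2)) Ω :=
    evr MvPolynomial.C (MvPolynomial.X ⟨0⟩) (MvPolynomial.X ⟨1⟩)
  have h1 : (A2p Ω).comp ψ = e := by
    refine MvPolynomial.ringHom_ext (fun a => ?_) (fun i => ?_)
    · simp only [ψ, e, RingHom.comp_apply, MvPolynomial.eval₂Hom_C]
      rw [A2p, evr_CC]
    · obtain ⟨i⟩ := i
      simp only [ψ, e, RingHom.comp_apply, MvPolynomial.eval₂Hom_X']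
      fin_cases i
      · simp [A2p, evr_CX]
      · simp [A2p, evr_X]
  have h2 : e.comp χ = A2p Ω := by
    refine hom2_ext (fun a => ?_) ?_ ?_
    · simp only [χ, e, RingHom.comp_apply, evr_CC, MvPolynomial.eval₂Hom_C, A2p]
    · simp only [χ, e, RingHom.comp_apply, evr_CX, MvPolynomial.eval₂Hom_X', A2p]
    · simp only [χ, e, RingHom.comp_apply, evr_X, MvPolynomial.eval₂Hom_X', A2p]
  have h3 : ψ.comp χ = RingHom.id _ := by
    refine hom2_ext (fun a => ?_) ?_ ?_
    · simp only [χ, ψ, RingHom.comp_apply, evr_CC, MvPolynomial.eval₂Hom_C, RingHom.id_apply]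
    · simp only [χ, ψ, RingHom.comp_apply, evr_CX, MvPolynomial.eval₂Hom_X', RingHom.id_apply]
      simp
    · simp only [χ, ψ, RingHom.comp_apply, evr_X, MvPolynomial.eval₂Hom_X', RingHom.id_apply]
      simp
  refine ⟨?_, fun a => ?_⟩
  · rw [← h2, RingHom.coe_comp]
    refine he.1.comp (Function.LeftInverse.injective (g := ψ) fun a => ?_)
    exact RingHom.congr_fun h3 a
  · obtain ⟨m, rfl⟩ := he.2 a
    exact ⟨ψ m, RingHom.congr_fun h1 m⟩

variable {X : Scheme.{u}} [IsIntegral X] (s : X ⟶ Spec (CommRingCat.of Ω))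
  (U : X.Opens) (hU : genericPoint X ∈ U) (π : U.toScheme ⟶ A2 Ω)
  (hπ : π ≫ (A2 Ω ↘ Spec (CommRingCat.of Ω)) = U.ι ≫ s)

include hπ in
theorem pullFn_const (a : Ω) : pullFn U hU π (A2c Ω a) = cF s a := by
  have h1 : (A2 Ω ↘ Spec (CommRingCat.of Ω)).appTop ≫ π.appTop = s.appTop ≫ U.ι.appTop := by
    rw [← Scheme.Hom.comp_appTop, hπ, Scheme.Hom.comp_appTop]
  have h2 : U.ι.appTop ≫ U.topIso.hom ≫ X.presheaf.germ U (genericPoint X) hU =
      X.presheaf.germ ⊤ (genericPoint X) trivial := by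
    rw [Scheme.Opens.topIso_hom, Scheme.Opens.ι_appTop]
    erw [X.presheaf.germ_res, X.presheaf.germ_res]
  have h3 : ((Scheme.ΓSpecIso (CommRingCat.of Ω)).inv ≫
    (A2 Ω ↘ Spec (CommRingCat.of Ω)).appTop) ≫
      (π.appTop ≫ U.topIso.hom ≫ X.presheaf.germ U (genericPoint X) hU) =
      (Scheme.ΓSpecIso (CommRingCat.of Ω)).inv ≫ s.appTop ≫
        X.presheaf.germ ⊤ (genericPoint X) trivial := by
    rw [Category.assoc, reassoc_of% h1, h2]
  exact ConcreteCategory.congr_hom h3 a

/-- The coordinates, as rational functions on `X`. -/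
noncomputable def crd (i : Fin 2) : X.functionField :=
  pullFn U hU π (AffineSpace.coord _ ⟨i⟩)

include hπ in
theorem pullFn_poly (f : Polynomial (Polynomial Ω)) :
    pullFn U hU π (A2p Ω f) = ev (cF s) (crd U hU π 0) (crd U hU π 1) f := by
  have : (pullFn U hU π).comp (A2p Ω) = ev (cF s) (crd U hU π 0) (crd U hU π 1) := by
    refine hom2_ext (fun a => ?_) ?_ ?_
    · rw [RingHom.comp_apply, A2p, evr_CC, ev_CC, pullFn_const s U hU π hπ]
    · rw [RingHom.comp_apply, A2p, evr_CX, ev_CX]; rfl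
    · rw [RingHom.comp_apply, A2p, evr_X, ev_X]; rfl
  exact RingHom.congr_fun this f

theorem pullFn_injective {X : Scheme.{u}} [IsIntegral X] (U : X.Opens)
    (hU : genericPoint X ∈ U) {T : Scheme.{u}} [IsReduced T] (π : U.toScheme ⟶ T) [QuasiCompact π]
    [IsDominant π] : Function.Injective (pullFn U hU π) := by
  have h0 : IsSchemeTheoreticallyDominant π := .of_isDominant π
  have h1 : Function.Injective π.appTop := Scheme.Hom.app_injective π ⊤
  have h2 : Function.Injective (U.topIso.hom) :=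
    ((ConcreteCategory.isIso_iff_bijective (U.topIso.hom)).1 inferInstance).1
  have hne : Nonempty U := ⟨⟨_, hU⟩⟩
  have h3 : Function.Injective (X.presheaf.germ U (genericPoint X) hU) :=
    Scheme.germToFunctionField_injective X U
  exact h3.comp (h2.comp h1)

end

end Run7.h34
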