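import Pool.Agent.Run7.h34.FF

/-! Base changes of a geometrically integral scheme over a field, and their function fields. -/

set_option linter.unusedSectionVars false

namespace Run7.h34

open AlgebraicGeometry CategoryTheory Limits TopologicalSpace

universe u

section

variable {K : Type u} [Field K] {V : Scheme.{u}} (f : V ⟶ Spec (CommRingCat.of K))

/-- The base change of `V` to an extension field. -/
noncomputable def VB (Ω : Type u) [Field Ω] [Algebra K Ω] : Scheme.{u} :=
  pullback f (Spec.map (CommRingCat.ofHom (algebraMap K Ω)))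

/-- The projection to `V`. -/
noncomputable def VB.fst (Ω : Type u) [Field Ω] [Algebra K Ω] : VB f Ω ⟶ V := pullback.fst _ _

/-- The structure morphism. -/
noncomputable def VB.snd (Ω : Type u) [Field Ω] [Algebra K Ω] :
    VB f Ω ⟶ Spec (CommRingCat.of Ω) := pullback.snd _ _

theorem VB.isPullback (Ω : Type u) [Field Ω] [Algebra K Ω] :
    IsPullback (VB.fst f Ω) (VB.snd f Ω) f (Spec.map (CommRingCat.ofHom (algebraMap K Ω))) :=
  IsPullback.of_hasPullback _ _

instance [GeometricallyIntegral f] (Ω : Type u) [Field Ω] [Algebra K Ω] :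
    IsIntegral (VB f Ω) :=
  GeometricallyIntegral.geometrically_isIntegral (f := f) _ _ _ (VB.isPullback f Ω)

variable {Ω Ω' Ω'' : Type u} [Field Ω] [Algebra K Ω] [Field Ω'] [Algebra K Ω'] [Field Ω'']
  [Algebra K Ω'']

/-- The morphism of base changes induced by a homomorphism of extension fields. -/
noncomputable def bc (j : Ω →ₐ[K] Ω') : VB f Ω' ⟶ VB f Ω :=
  pullback.lift (VB.fst f Ω') (VB.snd f Ω' ≫ Spec.map (CommRingCat.ofHom j.toRingHom)) (by
    rw [(VB.isPullback f Ω').w, Category.assoc, ← Spec.map_comp, ← CommRingCat.ofHom_comp]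
    congr 3
    exact (AlgHom.comp_algebraMap j).symm)

theorem bc_fst (j : Ω →ₐ[K] Ω') : bc f j ≫ VB.fst f Ω = VB.fst f Ω' := pullback.lift_fst _ _ _

theorem bc_snd (j : Ω →ₐ[K] Ω') : bc f j ≫ VB.snd f Ω =
    VB.snd f Ω' ≫ Spec.map (CommRingCat.ofHom j.toRingHom) := pullback.lift_snd _ _ _

theorem bc_isPullback (j : Ω →ₐ[K] Ω') : IsPullback (bc f j) (VB.snd f Ω') (VB.snd f Ω)
    (Spec.map (CommRingCat.ofHom j.toRingHom)) := by
  refine IsPullback.of_right (h₁₂ := VB.fst f Ω)
    (h₂₂ := Spec.map (CommRingCat.ofHom (algebraMap K Ω))) (v₁₃ := f) ?_ (bc_snd f j)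
    (VB.isPullback f Ω)
  have h1 : Spec.map (CommRingCat.ofHom j.toRingHom) ≫
      Spec.map (CommRingCat.ofHom (algebraMap K Ω)) =
      Spec.map (CommRingCat.ofHom (algebraMap K Ω')) := by
    rw [← Spec.map_comp, ← CommRingCat.ofHom_comp]
    congr 2
    exact AlgHom.comp_algebraMap j
  rw [bc_fst, h1]
  exact VB.isPullback f Ω'

instance (j : Ω →ₐ[K] Ω') : Surjective (Spec.map (CommRingCat.ofHom j.toRingHom)) := by
  infer_instance

instance bc_surjective (j : Ω →ₐ[K] Ω') : Surjective (bc f j) :=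
  MorphismProperty.of_isPullback (P := @Surjective) (bc_isPullback f j).flip inferInstance

theorem bc_id : bc f (AlgHom.id K Ω) = 𝟙 _ := by
  apply (VB.isPullback f Ω).hom_ext
  · rw [bc_fst, Category.id_comp]
  · rw [bc_snd, Category.id_comp]
    have : CommRingCat.ofHom (AlgHom.id K Ω).toRingHom = 𝟙 (CommRingCat.of Ω) := rfl
    rw [this, Spec.map_id, Category.comp_id]

theorem bc_comp (j : Ω →ₐ[K] Ω') (j' : Ω' →ₐ[K] Ω'') :
    bc f (j'.comp j) = bc f j' ≫ bc f j := by
  apply (VB.isPullback f Ω).hom_ext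
  · rw [bc_fst, Category.assoc, bc_fst, bc_fst]
  · rw [bc_snd, Category.assoc, bc_snd, ← Category.assoc, bc_snd, Category.assoc,
      ← Spec.map_comp, ← CommRingCat.ofHom_comp]
    rfl

variable [GeometricallyIntegral f]

/-- The function field of the base change. -/
abbrev FFd (Ω : Type u) [Field Ω] [Algebra K Ω] : Type u := (VB f Ω).functionField

/-- The constants. -/
noncomputable def cst0 (Ω : Type u) [Field Ω] [Algebra K Ω] : Ω →+* FFd f Ω := cF (VB.snd f Ω)

/-- Functoriality of the function fields of base changes. -/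
noncomputable def FFm (j : Ω →ₐ[K] Ω') : FFd f Ω →+* FFd f Ω' := ffMap (bc f j)

theorem FFm_cst (j : Ω →ₐ[K] Ω') (a : Ω) : FFm f j (cst0 f Ω a) = cst0 f Ω' (j a) :=
  cF_comp _ _ _ _ (bc_snd f j) a

theorem FFm_id (e : FFd f Ω) : FFm f (AlgHom.id K Ω) e = e := by
  have h : ffMap (bc f (AlgHom.id K Ω)) = ffMap (𝟙 (VB f Ω)) := ffMap_congr (bc_id f)
  rw [FFm, h, ffMap_id_apply]

theorem FFm_comp (j : Ω →ₐ[K] Ω') (j' : Ω' →ₐ[K] Ω'') (e : FFd f Ω) :
    FFm f (j'.comp j) e = FFm f j' (FFm f j e) := by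
  have h : ffMap (bc f (j'.comp j)) = ffMap (bc f j' ≫ bc f j) := ffMap_congr (bc_comp f j j')
  rw [FFm, h, ffMap_comp_apply]
  rfl

end

end Run7.h34
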