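import Mathlib

/-! Second cohomology of a topological group with coefficients in an abelian group with a linear
action, defined by locally constant inhomogeneous cochains (for a profinite group and a discrete
module this is Galois cohomology). -/

namespace Run7.h34

universe u v

section defs

variable {G : Type u} [Group G] [TopologicalSpace G] {M : Type v} [AddCommGroup M]
  (ρ : G →* AddMonoid.End M)

/-- The coboundary of a 1-cochain. -/
def dcob (c : G → M) : G × G → M := fun p => ρ p.1 (c p.2) - c (p.1 * p.2) + c p.1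

/-- Locally constant 2-cocycles. -/
def Z2 : AddSubgroup (G × G → M) where
  carrier := {a | IsLocallyConstant a ∧
    ∀ x y z : G, ρ x (a (y, z)) - a (x * y, z) + a (x, y * z) - a (x, y) = 0}
  zero_mem' := ⟨IsLocallyConstant.const 0, by intro x y z; simp⟩
  add_mem' := by
    rintro a b ⟨ha, ha'⟩ ⟨hb, hb'⟩
    refine ⟨ha.add hb, fun x y z => ?_⟩
    have h := congrArg₂ (· + ·) (ha' x y z) (hb' x y z)
    simp only [add_zero] at h
    simp only [Pi.add_apply, map_add]
    rw [← h]
    abel
  neg_mem' := by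
    rintro a ⟨ha, ha'⟩
    refine ⟨ha.neg, fun x y z => ?_⟩
    have h := congrArg Neg.neg (ha' x y z)
    simp only [Pi.neg_apply, map_neg]
    rw [neg_zero] at h
    rw [← h]
    abel

/-- Coboundaries of locally constant 1-cochains. -/
def B2 : AddSubgroup (G × G → M) where
  carrier := {a | ∃ c : G → M, IsLocallyConstant c ∧ a = dcob ρ c}
  zero_mem' := ⟨0, IsLocallyConstant.const 0, by ext p; simp [dcob]⟩
  add_mem' := by
    rintro _ _ ⟨c, hc, rfl⟩ ⟨d, hd, rfl⟩
    refine ⟨c + d, hc.add hd, ?_⟩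
    ext p
    simp only [dcob, Pi.add_apply, map_add]
    abel
  neg_mem' := by
    rintro _ ⟨c, hc, rfl⟩
    refine ⟨-c, hc.neg, ?_⟩
    ext p
    simp only [dcob, Pi.neg_apply, map_neg]
    abel

/-- The second cohomology group. -/
def H2 : Type _ := Z2 ρ ⧸ (B2 ρ).addSubgroupOf (Z2 ρ)

noncomputable instance : AddCommGroup (H2 ρ) :=
  QuotientAddGroup.Quotient.addCommGroup ((B2 ρ).addSubgroupOf (Z2 ρ))

/-- The class of a cocycle. -/
noncomputable def H2.mk : Z2 ρ →+ H2 ρ := QuotientAddGroup.mk' _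

end defs

section

variable {G : Type*} [Group G] [TopologicalSpace G] {M : Type*} [AddCommGroup M]
  {ρ : G →* AddMonoid.End M}

theorem H2.mk_surjective : Function.Surjective (H2.mk ρ) := QuotientAddGroup.mk'_surjective _

theorem H2.mk_eq_zero {a : Z2 ρ} : H2.mk ρ a = 0 ↔ (a : G × G → M) ∈ B2 ρ := by
  rw [← AddMonoidHom.mem_ker]
  have : (H2.mk ρ).ker = (B2 ρ).addSubgroupOf (Z2 ρ) := QuotientAddGroup.ker_mk' _
  rw [this, AddSubgroup.mem_addSubgroupOf]

variable {G' : Type*} [Group G'] [TopologicalSpace G'] {M' : Type*} [AddCommGroup M']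
  {ρ' : G' →* AddMonoid.End M'}

/-- The map on cocycles induced by a compatible pair. -/
def Z2.map (θ : G' →* G) (hθ : Continuous θ) (f : M →+ M')
    (hf : ∀ (g : G') (m : M), f (ρ (θ g) m) = ρ' g (f m)) : Z2 ρ →+ Z2 ρ' where
  toFun a := ⟨fun p => f (a.1 (θ p.1, θ p.2)), by
    refine ⟨(a.2.1.comp_continuous (f := fun p : G' × G' => (θ p.1, θ p.2))
      (by fun_prop)).comp f, fun x y z => ?_⟩
    have h := congrArg f (a.2.2 (θ x) (θ y) (θ z))
    simp only [map_sub, map_add, map_zero, hf] at h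
    simpa only [map_mul] using h⟩
  map_zero' := by ext p; simp
  map_add' a b := by ext p; simp

@[simp] theorem Z2.map_coe (θ : G' →* G) (hθ : Continuous θ) (f : M →+ M')
    (hf : ∀ (g : G') (m : M), f (ρ (θ g) m) = ρ' g (f m)) (a : Z2 ρ) (p : G' × G') :
    (Z2.map θ hθ f hf a : G' × G' → M') p = f (a.1 (θ p.1, θ p.2)) := rfl

/-- The map on `H²` induced by a continuous group homomorphism and a compatible homomorphism of
modules. -/
noncomputable def H2.map (θ : G' →* G) (hθ : Continuous θ) (f : M →+ M')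
    (hf : ∀ (g : G') (m : M), f (ρ (θ g) m) = ρ' g (f m)) : H2 ρ →+ H2 ρ' :=
  QuotientAddGroup.map _ _ (Z2.map θ hθ f hf) (by
    rintro a ha
    rw [AddSubgroup.mem_addSubgroupOf] at ha
    obtain ⟨c, hc, hac⟩ := ha
    rw [AddSubgroup.mem_comap, AddSubgroup.mem_addSubgroupOf]
    refine ⟨fun g => f (c (θ g)), (hc.comp_continuous hθ).comp f, ?_⟩
    ext p
    rw [Z2.map_coe, hac]
    simp only [dcob, map_sub, map_add, hf, map_mul])

theorem H2.map_mk (θ : G' →* G) (hθ : Continuous θ) (f : M →+ M')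
    (hf : ∀ (g : G') (m : M), f (ρ (θ g) m) = ρ' g (f m)) (a : Z2 ρ) :
    H2.map θ hθ f hf (H2.mk ρ a) = H2.mk ρ' (Z2.map θ hθ f hf a) := rfl

end

end Run7.h34
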