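import Pool.Agent.Run7.h34.Tame
import Pool.Agent.Run7.h34.H2

/-! Group actions on function fields, and the group `N`. -/

namespace Run7.h34

open scoped WithZero

universe u v w

section maps

variable {E : Type u} [Field E] {P : Type v} [Field P]

/-- The homomorphism of multiplicative groups, written additively. -/
def umap (φ : E →+* P) : Additive Eˣ →+ Additive Pˣ :=
  MonoidHom.toAdditive (Units.map φ.toMonoidHom)

@[simp] theorem umap_ofMul (φ : E →+* P) (a : Eˣ) :
    umap φ (Additive.ofMul a) = Additive.ofMul (Units.map φ.toMonoidHom a) := rfl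

theorem coe_umap (φ : E →+* P) (a : Additive Eˣ) :
    (((umap φ a).toMul : Pˣ) : P) = φ ((a.toMul : Eˣ) : E) := rfl

theorem umap_id (a : Additive Eˣ) : umap (RingHom.id E) a = a := by
  apply Additive.toMul.injective
  ext
  rfl

theorem umap_umap {L : Type w} [Field L] (ψ : P →+* L) (φ : E →+* P) (a : Additive Eˣ) :
    umap ψ (umap φ a) = umap (ψ.comp φ) a := rfl

theorem zsmul_neg_one (m t : ℤ) :
    (m * m * t) • Additive.ofMul (-1 : Eˣ) = (m * t) • Additive.ofMul (-1) := by
  rw [mul_smul, neg_one_comm m t, ← mul_smul]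
where
  neg_one_comm (m t : ℤ) :
      (m * m) • (t • Additive.ofMul (-1 : Eˣ)) = m • (t • Additive.ofMul (-1)) := by
    rw [smul_comm, neg_one_zsmul_sq, smul_comm]

/-- The homomorphism of families induced by a homomorphism of fields, when the valuations
restrict to powers of valuations. -/
noncomputable def PiX.map (X : Set (Val E)) (Y : Set (Val P)) (φ : E →+* P) (r : Val P → Val E)
    (m : Val P → ℕ) (h : ∀ w ∈ Y, r w ∈ X ∧ m w ≠ 0 ∧ ∀ e, w (φ e) = (r w e) ^ (m w)) :
    PiX X →+ PiX Y :=
  QuotientAddGroup.map (NX X) (NX Y)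
    (AddMonoidHom.mk' (fun f w => m w • umap φ (f (r w))) (fun f g => by
      funext w
      change m w • umap φ (f (r w) + g (r w)) = m w • umap φ (f (r w)) + m w • umap φ (g (r w))
      rw [map_add, nsmul_add]))
    (by
      intro f hf w hw
      obtain ⟨h1, h2, h3⟩ := h w hw
      have h4 := hf (r w) h1
      change (umap φ (f (r w))).toMul ^ m w ∈ pu w
      refine (pu w).pow_mem ?_ _
      rw [mem_pu] at h4 ⊢
      rw [coe_umap, ← map_one φ, ← map_sub, h3]
      exact pow_lt_one₀ zero_le h4 h2)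

theorem PiX.map_mk (X : Set (Val E)) (Y : Set (Val P)) (φ : E →+* P) (r : Val P → Val E)
    (m : Val P → ℕ) (h) (f : Val E → Additive Eˣ) :
    PiX.map X Y φ r m h (PiX.mk X f) = PiX.mk Y (fun w => m w • umap φ (f (r w))) := rfl

theorem ord_map {φ : E →+* P} {w : Val P} {w' : Val E} {m : ℕ}
    (h : ∀ e, w (φ e) = (w' e) ^ m) (a : Eˣ) :
    ord w (Units.map φ.toMonoidHom a) = m * ord w' a := by
  have : w ((Units.map φ.toMonoidHom a : Pˣ) : P) = (w' (a : E)) ^ m := h a
  rw [ord, this, WithZero.log_pow, ord, nsmul_eq_mul]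
  ring

theorem tame_map {φ : E →+* P} {w : Val P} {w' : Val E} {m : ℕ}
    (h : ∀ e, w (φ e) = (w' e) ^ m) (a b : Eˣ) :
    tame w (Units.map φ.toMonoidHom a) (Units.map φ.toMonoidHom b) =
      m • umap φ (tame w' a b) := by
  have h1 : umap φ (Additive.ofMul (-1 : Eˣ)) = Additive.ofMul (-1) := by
    rw [umap_ofMul]; congr 1; ext; simp
  simp only [tame, ord_map h, map_sub, map_add, map_zsmul, umap_ofMul] at *
  rw [h1]
  have h2 : ((m : ℤ) * ord w' a * (m * ord w' b)) • Additive.ofMul (-1 : Pˣ) =
      ((m : ℤ) * (ord w' a * ord w' b)) • Additive.ofMul (-1) := by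
    have h3 := zsmul_neg_one (E := P) (m : ℤ) (ord w' a * ord w' b)
    rw [← h3]; congr 1; ring
  rw [h2]
  module

theorem PiX.map_tam (X : Set (Val E)) (Y : Set (Val P)) (φ : E →+* P) (r : Val P → Val E)
    (m : Val P → ℕ) (h) (x : K2 E) :
    PiX.map X Y φ r m h (tam X x) = tam Y (K2.map φ x) := by
  induction x using K2.induction with
  | h0 => simp
  | hs a b =>
    rw [tam_sy, K2.map_sy, tam_sy, PiX.map_mk, ← sub_eq_zero, ← map_sub, PiX.mk_eq_zero]
    intro w hw
    rw [Pi.sub_apply, tame_map (h w hw).2.2, sub_self]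
    exact (pu w).one_mem
  | ha x y hx hy => rw [map_add, map_add, map_add, map_add, hx, hy]

end maps

/-- A group acting compatibly on a field `k` and on an extension `E` of it, and a stable set of
valuations of `E` which are trivial on `k`. -/
structure Setup (G : Type u) [Group G] (k : Type v) [Field k] (E : Type w) [Field E] where
  /-- the inclusion of the constants -/
  c : k →+* E
  /-- the action on the constants -/
  ρk : G →* (k →+* k)
  /-- the action on the function field -/
  ρ : G →* (E →+* E)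
  /-- compatibility -/
  hc : ∀ g a, ρ g (c a) = c (ρk g a)
  /-- the set of valuations -/
  X : Set (Val E)
  /-- stability -/
  hX : ∀ g, ∀ w ∈ X, w.comap (ρ g) ∈ X
  /-- triviality on constants -/
  hX0 : ∀ w ∈ X, ∀ a : k, a ≠ 0 → w (c a) = 1

namespace Setup

variable {G : Type u} [Group G] {k : Type v} [Field k] {E : Type w} [Field E]
  (S : Setup G k E)

/-- The quotient `K₂ E / K₂ k`. -/
def M : Type w := K2 E ⧸ (K2.map S.c).range

noncomputable instance : AddCommGroup S.M :=
  QuotientAddGroup.Quotient.addCommGroup (K2.map S.c).range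

/-- The quotient map `K₂ E → K₂ E / K₂ k`. -/
noncomputable def q : K2 E →+ S.M := QuotientAddGroup.mk' _

theorem q_surjective : Function.Surjective S.q := QuotientAddGroup.mk'_surjective _

theorem q_eq_zero {x : K2 E} : S.q x = 0 ↔ ∃ y, K2.map S.c y = x := by
  rw [← AddMonoidHom.mem_ker]
  have : S.q.ker = (K2.map S.c).range := QuotientAddGroup.ker_mk' _
  rw [this, AddMonoidHom.mem_range]

/-- A homomorphism out of `K₂ E / K₂ k`. -/
noncomputable def lift {A : Type*} [AddCommGroup A] (f : K2 E →+ A)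
    (hf : ∀ y, f (K2.map S.c y) = 0) : S.M →+ A :=
  QuotientAddGroup.lift _ f (by rintro _ ⟨y, rfl⟩; exact hf y)

@[simp] theorem lift_q {A : Type*} [AddCommGroup A] (f : K2 E →+ A) (hf) (x : K2 E) :
    S.lift f hf (S.q x) = f x := rfl

theorem hom_ext {A : Type*} [AddCommGroup A] {f g : S.M →+ A} (h : ∀ x, f (S.q x) = g (S.q x)) :
    f = g := by
  ext x
  obtain ⟨y, rfl⟩ := S.q_surjective x
  exact h y

/-- The action of a group element on `K₂ E / K₂ k`. -/
noncomputable def act1 (g : G) : S.M →+ S.M :=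
  S.lift (S.q.comp (K2.map (S.ρ g))) (fun y => by
    rw [AddMonoidHom.comp_apply, S.q_eq_zero]
    refine ⟨K2.map (S.ρk g) y, ?_⟩
    rw [K2.map_map, K2.map_map]
    congr 2
    ext a
    exact (S.hc g a).symm)

theorem act1_q (g : G) (x : K2 E) : S.act1 g (S.q x) = S.q (K2.map (S.ρ g) x) := rfl

/-- The action of the group on `K₂ E / K₂ k`. -/
noncomputable def act : G →* AddMonoid.End S.M where
  toFun := S.act1
  map_one' := by
    refine S.hom_ext fun x => ?_
    rw [act1_q, map_one]
    have : K2.map (1 : E →+* E) = AddMonoidHom.id _ := K2.map_id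
    rw [this]; rfl
  map_mul' g h := by
    refine S.hom_ext fun x => ?_
    rw [act1_q, map_mul]
    have : K2.map (S.ρ g * S.ρ h) = (K2.map (S.ρ g)).comp (K2.map (S.ρ h)) := K2.map_comp _ _
    rw [this]; rfl

theorem act_q (g : G) (x : K2 E) : S.act g (S.q x) = S.q (K2.map (S.ρ g) x) := rfl

/-- The action of a group element on families: `(g f)(w) = g (f (w ∘ g))`. -/
noncomputable def actPi1 (g : G) : PiX S.X →+ PiX S.X :=
  PiX.map S.X S.X (S.ρ g) (fun w => w.comap (S.ρ g)) (fun _ => 1)
    (fun w hw => ⟨S.hX g w hw, one_ne_zero, fun e => by rw [pow_one]; rfl⟩)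

theorem actPi1_mk (g : G) (f : Val E → Additive Eˣ) :
    S.actPi1 g (PiX.mk S.X f) = PiX.mk S.X (fun w => umap (S.ρ g) (f (w.comap (S.ρ g)))) := by
  rw [actPi1, PiX.map_mk]
  simp only [one_smul]

/-- The action of the group on families. -/
noncomputable def actPi : G →* AddMonoid.End (PiX S.X) where
  toFun := S.actPi1
  map_one' := by
    refine AddMonoidHom.ext fun d => ?_
    obtain ⟨f, rfl⟩ := PiX.mk_surjective S.X d
    change S.actPi1 1 (PiX.mk S.X f) = PiX.mk S.X f
    rw [actPi1_mk, map_one]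
    change PiX.mk S.X (fun w => umap (RingHom.id E) (f (w.comap (RingHom.id E)))) = PiX.mk S.X f
    congr 1
  map_mul' g h := by
    refine AddMonoidHom.ext fun d => ?_
    obtain ⟨f, rfl⟩ := PiX.mk_surjective S.X d
    change S.actPi1 (g * h) (PiX.mk S.X f) = S.actPi1 g (S.actPi1 h (PiX.mk S.X f))
    rw [actPi1_mk, map_mul, actPi1_mk, actPi1_mk]
    rfl

theorem actPi_mk (g : G) (f : Val E → Additive Eˣ) :
    S.actPi g (PiX.mk S.X f) = PiX.mk S.X (fun w => umap (S.ρ g) (f (w.comap (S.ρ g)))) :=
  S.actPi1_mk g f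

/-- The tame symbols on `K₂ E / K₂ k`. -/
noncomputable def tamM : S.M →+ PiX S.X :=
  S.lift (tam S.X) (fun y => by
    induction y using K2.induction with
    | h0 => simp
    | hs a b =>
      rw [K2.map_sy, tam_sy, PiX.mk_eq_zero]
      intro w hw
      have h1 : ∀ a : kˣ, ord w (Units.map S.c.toMonoidHom a) = 0 := fun a =>
        (ord_eq_zero w _).2 (S.hX0 w hw a a.ne_zero)
      rw [tame, h1, h1]
      simp
    | ha x y hx hy => rw [map_add, map_add, hx, hy, add_zero])

theorem tamM_q (x : K2 E) : S.tamM (S.q x) = tam S.X x := rfl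

theorem tamM_act (g : G) (x : S.M) : S.tamM (S.act g x) = S.actPi g (S.tamM x) := by
  obtain ⟨y, rfl⟩ := S.q_surjective x
  rw [act_q, tamM_q, tamM_q]
  change tam S.X (K2.map (S.ρ g) y) = S.actPi1 g (tam S.X y)
  rw [actPi1, PiX.map_tam]

variable [TopologicalSpace G]

/-- Cocycles with values in `K₂ E / K₂ k` whose tame symbol is the coboundary of a locally
constant cochain with values in the direct sum of the multiplicative groups of the residue
fields. -/
def NZ : AddSubgroup (Z2 S.act) where
  carrier := {a | ∃ c : G → PiX S.X, IsLocallyConstant c ∧ (∀ g, c g ∈ DX S.X) ∧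
    ∀ p, S.tamM ((a : G × G → S.M) p) = dcob S.actPi c p}
  zero_mem' := ⟨0, IsLocallyConstant.const 0, fun _ => (DX S.X).zero_mem, fun p => by
    simp [dcob]⟩
  add_mem' := by
    rintro a b ⟨c, hc, hc', hc''⟩ ⟨d, hd, hd', hd''⟩
    refine ⟨c + d, hc.add hd, fun g => (DX S.X).add_mem (hc' g) (hd' g), fun p => ?_⟩
    have : ((a + b : Z2 S.act) : G × G → S.M) p = (a : G × G → S.M) p + (b : G × G → S.M) p := rfl
    rw [this, map_add, hc'', hd'']
    simp only [dcob, Pi.add_apply, map_add]
    abel
  neg_mem' := by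
    rintro a ⟨c, hc, hc', hc''⟩
    refine ⟨-c, hc.neg, fun g => (DX S.X).neg_mem (hc' g), fun p => ?_⟩
    have : ((-a : Z2 S.act) : G × G → S.M) p = -(a : G × G → S.M) p := rfl
    rw [this, map_neg, hc'']
    simp only [dcob, Pi.neg_apply, map_neg]
    abel

/-- The kernel of `H²(G, K₂ E / K₂ k) → H²(G, D)`, where `D` is the direct sum of the
multiplicative groups of the residue fields of the valuations in `X`. -/
noncomputable def N : AddSubgroup (H2 S.act) := (S.NZ).map (H2.mk S.act)

end Setup

end Run7.h34
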