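import Pool.Agent.Run7.h34.Spec
import Pool.Agent.Run7.h34.Setup

/-! The valuations of the points of codimension one, and the action of the automorphisms of the
extension field. -/

set_option linter.unusedSectionVars false

namespace Run7.h34

open AlgebraicGeometry CategoryTheory Limits TopologicalSpace
open scoped WithZero

universe u

section

theorem divs_unit {X : Scheme.{u}} [IsIntegral X] {w : Val X.functionField} (hw : w ∈ divs X)
    {R : Type u} [Field R] (g : X ⟶ Spec (CommRingCat.of R)) {a : R} (ha : a ≠ 0) :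
    w (cF g a) = 1 := by
  obtain ⟨_, x, _, hx⟩ := hw
  have h1 : ∀ a : R, w (cF g a) ≤ 1 := by
    intro a
    rw [hx]
    refine ⟨X.presheaf.germ ⊤ x trivial (g.appTop ((Scheme.ΓSpecIso (CommRingCat.of R)).inv a)),
      ?_⟩
    have hne : Nonempty (⊤ : X.Opens) := ⟨⟨x, trivial⟩⟩
    exact Scheme.algebraMap_germ_eq_germToFunctionField (X := X) (U := ⊤) (x := x) trivial
      (g.appTop ((Scheme.ΓSpecIso (CommRingCat.of R)).inv a))
  refine le_antisymm (h1 a) ?_
  have h2 := h1 a⁻¹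
  rw [map_inv₀, map_inv₀] at h2
  have h3 : w (cF g a) ≠ 0 := (w.ne_zero_iff).2 ((map_ne_zero _).2 ha)
  exact (inv_le_one₀ (zero_lt_iff.2 h3)).1 h2

theorem divs_iso {X : Scheme.{u}} [IsIntegral X] (h : X ⟶ X) [IsIso h]
    {w : Val X.functionField} (hw : w ∈ divs X) (hs : Function.Surjective (w.comap (ffMap h))) :
    w.comap (ffMap h) ∈ divs X := by
  obtain ⟨_, x, hx1, hx⟩ := hw
  refine ⟨hs, h x, ?_, fun e => ?_⟩
  · have e1 : X.presheaf.stalk (h x) ≃+* X.presheaf.stalk x :=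
      (asIso (h.stalkMap x)).commRingCatIsoToRingEquiv
    rw [ringKrullDim_eq_of_ringEquiv e1]
    exact hx1
  · rw [Valuation.comap_apply, hx]
    constructor
    · rintro ⟨b, hb⟩
      obtain ⟨a, rfl⟩ : ∃ a, h.stalkMap x a = b := by
        refine ⟨inv (h.stalkMap x) b, ?_⟩
        have := ConcreteCategory.congr_hom (IsIso.inv_hom_id (h.stalkMap x)) b
        exact this
      rw [← ffMap_stalk] at hb
      exact ⟨a, (ffMap h).injective hb⟩
    · rintro ⟨a, rfl⟩
      exact ⟨h.stalkMap x a, (ffMap_stalk h x a).symm⟩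

variable {K : Type u} [Field K] {V : Scheme.{u}} (f : V ⟶ Spec (CommRingCat.of K))
  [GeometricallyIntegral f]

instance bc_isIso {Ω : Type u} [Field Ω] [Algebra K Ω] (τ : Ω ≃ₐ[K] Ω) :
    IsIso (bc f (τ : Ω →ₐ[K] Ω)) := by
  refine ⟨bc f (τ.symm : Ω →ₐ[K] Ω), ?_, ?_⟩
  · rw [← bc_comp]
    have : (τ : Ω →ₐ[K] Ω).comp (τ.symm : Ω →ₐ[K] Ω) = AlgHom.id K Ω := by ext a; simp
    rw [this, bc_id]
  · rw [← bc_comp]
    have : (τ.symm : Ω →ₐ[K] Ω).comp (τ : Ω →ₐ[K] Ω) = AlgHom.id K Ω := by ext a; simp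
    rw [this, bc_id]

/-- The action of a group acting on the extension field, on the function field of the base
change of `V`. -/
noncomputable def actFF {Ω : Type u} [Field Ω] [Algebra K Ω] {Γ : Type u} [Group Γ]
    (η : Γ →* (Ω ≃ₐ[K] Ω)) : Γ →* (FFd f Ω →+* FFd f Ω) where
  toFun g := FFm f (η g : Ω →ₐ[K] Ω)
  map_one' := by
    rw [map_one]
    exact RingHom.ext fun e => FFm_id f e
  map_mul' g h := by
    rw [map_mul]
    exact RingHom.ext fun e => FFm_comp f (η h : Ω →ₐ[K] Ω) (η g : Ω →ₐ[K] Ω) e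

/-- The action on the extension field. -/
def actC {Ω : Type u} [Field Ω] [Algebra K Ω] {Γ : Type u} [Group Γ]
    (η : Γ →* (Ω ≃ₐ[K] Ω)) : Γ →* (Ω →+* Ω) where
  toFun g := ((η g : Ω →ₐ[K] Ω) : Ω →+* Ω)
  map_one' := by rw [map_one]; rfl
  map_mul' g h := by rw [map_mul]; rfl

theorem actFF_surj {Ω : Type u} [Field Ω] [Algebra K Ω] {Γ : Type u} [Group Γ]
    (η : Γ →* (Ω ≃ₐ[K] Ω)) (g : Γ) : Function.Surjective (actFF f η g) := by
  intro e
  refine ⟨actFF f η g⁻¹ e, ?_⟩
  have : actFF f η g * actFF f η g⁻¹ = 1 := by rw [← map_mul, mul_inv_cancel, map_one]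
  exact RingHom.congr_fun this e

/-- The data attached to a geometrically integral scheme over a field `K`, an extension field
`Ω` of `K` and a group acting on `Ω` by automorphisms over `K`. -/
noncomputable def setupV {Ω : Type u} [Field Ω] [Algebra K Ω] {Γ : Type u} [Group Γ]
    (η : Γ →* (Ω ≃ₐ[K] Ω)) : Setup Γ Ω (FFd f Ω) where
  c := cst0 f Ω
  ρk := actC η
  ρ := actFF f η
  hc g a := FFm_cst f (η g : Ω →ₐ[K] Ω) a
  X := divs (VB f Ω)
  hX g w hw := by
    have h1 : Function.Surjective (w.comap (actFF f η g)) := by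
      intro y
      obtain ⟨x, rfl⟩ := hw.1 y
      obtain ⟨z, rfl⟩ := actFF_surj f η g x
      exact ⟨z, rfl⟩
    exact divs_iso (bc f (η g : Ω →ₐ[K] Ω)) hw h1
  hX0 w hw a ha := divs_unit hw (VB.snd f Ω) ha

end

end Run7.h34
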