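import Pool.Agent.Run7.h34.Spec
import Pool.Agent.Run7.h34.Setup
import Pool.Agent.Run7.h34.Divs

/-! Comparison of the description by cocycles with the cohomology groups. -/

set_option linter.unusedSectionVars false

namespace Run7.h34

universe u

section

variable {G : Type u} [Group G] {k : Type u} [Field k] {E : Type u} [Field E]

/-- The data used for the description by cocycles. -/
noncomputable def Setup.toSit (D : Setup G k E) : Sit G E where
  R := (K2.map D.c).range
  ρ g := D.ρ g
  X := D.X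

variable [TopologicalSpace G]

theorem Setup.toSit_cocycle (D : Setup G k E) {a : G × G → K2 E} (ha : D.toSit.IsCocycle a) :
    (fun p => D.q (a p)) ∈ Z2 D.act := by
  refine ⟨ha.1, fun x y z => ?_⟩
  have h := ha.2 x y z
  rw [D.act_q, ← map_sub, ← map_add, ← map_sub, D.q_eq_zero]
  exact h

theorem Setup.bridge (D : Setup G k E) {a : G × G → K2 E} (ha : D.toSit.IsN a) (n : ℕ)
    (h : ∀ α ∈ D.N, n • α = 0) : D.toSit.IsCoboundary (n • a) := by
  obtain ⟨h1, c, hc, hc', hac⟩ := ha
  let b : Z2 D.act := ⟨fun p => D.q (a p), D.toSit_cocycle h1⟩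
  have hb : H2.mk D.act b ∈ D.N := by
    refine ⟨b, ⟨fun g => PiX.mk D.X (c g), hc, fun g => ⟨c g, (hc' g).1, (hc' g).2, rfl⟩,
      fun p => ?_⟩, rfl⟩
    refine (hac p.1 p.2).trans ?_
    rw [dcob, D.actPi_mk, ← map_sub, ← map_add]
    rfl
  have h2 := h _ hb
  rw [← map_nsmul, H2.mk_eq_zero] at h2
  obtain ⟨d, hd, hdb⟩ := h2
  have hs := D.q_surjective
  let σ : D.M → K2 E := Function.surjInv hs
  have hσ : ∀ m, D.q (σ m) = m := Function.surjInv_eq hs
  refine ⟨fun g => σ (d g), ?_, fun x y => ?_⟩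
  · have : (fun g => QuotientAddGroup.mk' D.toSit.R (σ (d g))) = d := funext fun g => hσ (d g)
    change IsLocallyConstant (fun g => QuotientAddGroup.mk' D.toSit.R (σ (d g)))
    rw [this]
    exact hd
  · have h3 := congrFun hdb (x, y)
    change n • D.q (a (x, y)) = D.act x (d y) - d (x * y) + d x at h3
    change ∃ z, _ = _
    rw [← D.q_eq_zero, map_sub, map_add, map_sub, Pi.smul_apply, map_nsmul]
    change n • D.q (a (x, y)) - (D.q (K2.map (D.ρ x) (σ (d y))) - D.q (σ (d (x * y))) +
      D.q (σ (d x))) = 0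
    rw [← D.act_q, hσ, hσ, hσ, h3, sub_self]

end

end Run7.h34
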