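import Mathlib

/-! Smooth schemes over a field are normal. -/

namespace Run7.h34

open scoped TensorProduct nonZeroDivisors
open AlgebraicGeometry

universe u

theorem etale_normal (A B : Type u) [CommRing A] [IsDomain A] [IsIntegrallyClosed A] [CommRing B]
    [IsDomain B] [Algebra A B] [Algebra.Etale A B] : IsIntegrallyClosed B := by
  let K := FractionRing A
  have hinj : Function.Injective (algebraMap A B) := by
    rw [injective_iff_map_eq_zero]
    intro a ha
    by_contra h0
    have hreg : IsSMulRegular B a :=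
      Module.Flat.isSMulRegular_of_nonZeroDivisors (mem_nonZeroDivisors_of_ne_zero h0)
    have h1 : a • (1 : B) = a • (0 : B) := by rw [Algebra.smul_def, ha, zero_mul, smul_zero]
    exact one_ne_zero (hreg h1)
  have hM : Algebra.algebraMapSubmonoid B A⁰ ≤ B⁰ := by
    rintro _ ⟨a, ha, rfl⟩
    exact mem_nonZeroDivisors_of_ne_zero ((map_ne_zero_iff _ hinj).2 (nonZeroDivisors.ne_zero ha))
  have hloc : IsLocalization (Algebra.algebraMapSubmonoid B A⁰) (B ⊗[A] K) :=
    IsLocalization.tensor K A⁰
  have hdom : IsDomain (B ⊗[A] K) := IsLocalization.isDomain_of_le_nonZeroDivisors (B ⊗[A] K) hM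
  have hdom' : IsDomain (K ⊗[A] B) :=
    MulEquiv.isDomain (B ⊗[A] K) (Algebra.TensorProduct.comm A K B).toRingEquiv.toMulEquiv
  have hfin : Module.Finite K (K ⊗[A] B) := Algebra.FormallyUnramified.finite_of_free K _
  have hfield' : IsField (K ⊗[A] B) :=
    isField_of_isIntegral_of_isField' (R := K) (Field.toIsField K)
  have hfield : IsField (B ⊗[A] K) :=
    MulEquiv.isField hfield' (Algebra.TensorProduct.comm A B K).toRingEquiv.toMulEquiv
  let _ : Field (B ⊗[A] K) := hfield.toField
  have hBinj : Function.Injective (algebraMap B (B ⊗[A] K)) :=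
    IsLocalization.injective (B ⊗[A] K) hM
  have : FaithfulSMul B (B ⊗[A] K) := (faithfulSMul_iff_algebraMap_injective B _).2 hBinj
  have : IsFractionRing B (B ⊗[A] K) := by
    refine IsFractionRing.of_field B (B ⊗[A] K) fun z => ?_
    obtain ⟨⟨b, m⟩, hbm⟩ := IsLocalization.surj (Algebra.algebraMapSubmonoid B A⁰) z
    refine ⟨b, m, ?_⟩
    rw [eq_div_iff]
    · exact hbm
    · exact (map_ne_zero_iff _ hBinj).2 (nonZeroDivisors.ne_zero (hM m.2))
  rw [isIntegrallyClosed_iff (B ⊗[A] K)]
  intro x hx
  obtain ⟨y, hy⟩ := (TensorProduct.toIntegralClosure_bijective_of_smooth (R := A) (S := B)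
    (B := K)).2 ⟨x, hx⟩
  have hy' : Algebra.TensorProduct.map (AlgHom.id B B) (integralClosure A K).val y = x :=
    congrArg Subtype.val hy
  rw [← hy']
  clear hy hy' hx
  induction y with
  | zero => exact ⟨0, by simp⟩
  | add y z hy hz =>
    obtain ⟨a, ha⟩ := hy
    obtain ⟨b, hb⟩ := hz
    exact ⟨a + b, by rw [map_add, ha, hb, map_add]⟩
  | tmul b c =>
    obtain ⟨a, ha⟩ := (isIntegrallyClosed_iff K).1 ‹IsIntegrallyClosed A› c.2
    refine ⟨a • b, ?_⟩
    rw [Algebra.TensorProduct.map_tmul]
    change _ = b ⊗ₜ[A] (c : K)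
    have h2 : b ⊗ₜ[A] (algebraMap A K a) = (a • b) ⊗ₜ[A] (1 : K) := by
      rw [Algebra.algebraMap_eq_smul_one, TensorProduct.tmul_smul, TensorProduct.smul_tmul']
    rw [← ha, h2]
    rfl

theorem stdSmooth_normal {R B : Type u} [CommRing R] [CommRing B] [IsDomain B] {φ : R →+* B}
    (hR : IsField R) (h : φ.IsStandardSmooth) : IsIntegrallyClosed B := by
  let _ : Field R := hR.toField
  obtain ⟨n, g, _, hg⟩ := h.exists_etale_mvPolynomial
  let _ := g.toAlgebra
  have : Algebra.Etale (MvPolynomial (Fin n) R) B := hg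
  exact etale_normal (MvPolynomial (Fin n) R) B

/-- The local rings of an integral scheme which is smooth over a field are integrally closed. -/
theorem smooth_normal {k : Type u} [Field k] {X : Scheme.{u}} [IsIntegral X]
    (f : X ⟶ Spec (CommRingCat.of k)) [Smooth f] (x : X) :
    IsIntegrallyClosed (X.presheaf.stalk x) := by
  obtain ⟨U, hU, W, hW, hx, e, hs⟩ := Smooth.exists_isStandardSmooth f x
  have hne : Nonempty W := ⟨⟨x, hx⟩⟩
  have hU' : U = ⊤ := by
    ext y
    simp only [TopologicalSpace.Opens.coe_top, Set.mem_univ, iff_true]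
    have : f x ∈ U := e hx
    have h2 : y = f x := Subsingleton.elim _ _
    rw [h2]; exact this
  have hR : IsField Γ(Spec (CommRingCat.of k), U) := by
    subst hU'
    exact MulEquiv.isField (Field.toIsField k)
      (Scheme.ΓSpecIso (CommRingCat.of k)).commRingCatIsoToRingEquiv.toMulEquiv
  have h1 : IsIntegrallyClosed Γ(X, W) := stdSmooth_normal hR hs
  have := hW.isLocalization_stalk ⟨x, hx⟩
  let _ := TopCat.Presheaf.algebra_section_stalk X.presheaf (⟨x, hx⟩ : W)
  exact isIntegrallyClosed_of_isLocalization _ (hW.primeIdealOf ⟨x, hx⟩).asIdeal.primeCompl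
    (Ideal.primeCompl_le_nonZeroDivisors _)

end Run7.h34
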