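import Mathlib

/-! Morphisms from open subschemes to the affine plane. -/

set_option linter.unusedSectionVars false

namespace Run7.h34

open AlgebraicGeometry CategoryTheory Limits TopologicalSpace

universe u

section

variable {X : Scheme.{u}} [IsIntegral X]

/-- The rational function on `X` given by the pullback of a function along a morphism defined on
an open subscheme. -/
noncomputable def pullFn (U : X.Opens) (hU : genericPoint X ∈ U) {T : Scheme.{u}}
    (π : U.toScheme ⟶ T) : Γ(T, ⊤) →+* X.functionField :=
  (π.appTop ≫ U.topIso.hom ≫ X.presheaf.germ U (genericPoint X) hU).hom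

/-- A dominant and universally closed (for example proper) morphism over `k` from a nonempty open
subscheme of `X` to the affine plane over `k`. -/
structure PlaneMap {k : Type u} [Field k] (s : X ⟶ Spec (CommRingCat.of k)) where
  /-- the open subscheme -/
  U : X.Opens
  /-- it is not empty -/
  hU : genericPoint X ∈ U
  /-- the morphism -/
  π : U.toScheme ⟶ AffineSpace (ULift.{u} (Fin 2)) (Spec (CommRingCat.of k))
  /-- it is a morphism over `k` -/
  hπ : π ≫ (AffineSpace (ULift.{u} (Fin 2)) (Spec (CommRingCat.of k)) ↘
    Spec (CommRingCat.of k)) = U.ι ≫ s
  /-- it is universally closed -/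
  closed : UniversallyClosed π
  /-- it is dominant -/
  dominant : IsDominant π

variable {k : Type u} [Field k] {s : X ⟶ Spec (CommRingCat.of k)}

/-- The two coordinate functions, as rational functions on `X`. -/
noncomputable def PlaneMap.crd (P : PlaneMap s) (i : Fin 2) : X.functionField :=
  pullFn P.U P.hU P.π (AffineSpace.coord _ ⟨i⟩)

/-- The `q`-th powers of the rational functions on `X` are rational functions on the plane. -/
def PlaneMap.Exponent (P : PlaneMap s) (q : ℕ) : Prop :=
  ∀ e : X.functionField, ∃ a b, pullFn P.U P.hU P.π b ≠ 0 ∧
    e ^ q * pullFn P.U P.hU P.π b = pullFn P.U P.hU P.π a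

end

end Run7.h34
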