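import Pool.Agent.Run7.h34.Mil2

/-! Normalized discrete valuations. -/

namespace Run7.h34

open Polynomial IsDedekindDomain
open scoped WithZero

universe u v

section general

variable {E : Type u} [Field E]

theorem exists_ord {w : Val E} (hw : Function.Surjective w) (n : ℤ) : ∃ a : Eˣ, ord w a = n := by
  obtain ⟨x, hx⟩ := hw (WithZero.exp (-n))
  have hx0 : x ≠ 0 := by
    rintro rfl
    rw [map_zero] at hx
    exact WithZero.exp_ne_zero hx.symm
  refine ⟨Units.mk0 x hx0, ?_⟩
  rw [ord, Units.val_mk0, hx, WithZero.log_exp, neg_neg]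

theorem ord_neg_iff (w : Val E) (a : Eˣ) : ord w a < 0 ↔ 1 < w (a : E) := by
  rw [val_eq_exp, ← WithZero.exp_zero, WithZero.exp_lt_exp, neg_pos]

theorem ord_nonneg_iff (w : Val E) (a : Eˣ) : 0 ≤ ord w a ↔ w (a : E) ≤ 1 := by
  rw [← not_lt, ord_neg_iff, not_lt]

theorem Val.ext_ord {v w : Val E} (h : ∀ a : Eˣ, ord v a = ord w a) : v = w := by
  ext x
  by_cases hx : x = 0
  · rw [hx, map_zero, map_zero]
  · have := h (Units.mk0 x hx)
    have h1 := val_eq_exp v (Units.mk0 x hx)
    have h2 := val_eq_exp w (Units.mk0 x hx)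
    rw [this, ← h2] at h1
    exact h1

theorem val_eq_of {v w : Val E} (hv : Function.Surjective v) (hw : Function.Surjective w)
    (h : ∀ a : Eˣ, ord v a = 0 → ord w a = 0) (x : Eˣ) (hx : 0 < ord v x) (hx' : 0 ≤ ord w x) :
    w = v := by
  obtain ⟨π, hπ⟩ := exists_ord hv 1
  have h1 : ∀ a : Eˣ, ord w a = ord v a * ord w π := by
    intro a
    have h2 : ord v (a * (π ^ ord v a)⁻¹) = 0 := by
      rw [ord_mul, ord_inv, ord_zpow, hπ]; ring
    have h3 := h _ h2
    rw [ord_mul, ord_inv, ord_zpow] at h3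
    linarith
  obtain ⟨b, hb⟩ := exists_ord hw 1
  have h2 : ord v b * ord w π = 1 := by rw [← h1, hb]
  have h3 : ord w π = 1 ∨ ord w π = -1 := Int.isUnit_iff.1 (IsUnit.of_mul_eq_one_right _ h2)
  rcases h3 with h3 | h3
  · refine Val.ext_ord fun a => ?_
    rw [h1, h3, mul_one]
  · exfalso
    rw [h1, h3] at hx'
    linarith

open Classical in
/-- Division of the exponent by `m`. -/
noncomputable def dv (m : ℕ) (x : ℤᵐ⁰) : ℤᵐ⁰ := if x = 0 then 0 else WithZero.exp (x.log / m)

theorem dv_zero (m : ℕ) : dv m 0 = 0 := if_pos rfl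

theorem dv_of_ne {m : ℕ} {x : ℤᵐ⁰} (hx : x ≠ 0) : dv m x = WithZero.exp (x.log / m) := if_neg hx

theorem dv_mono (m : ℕ) (x y : ℤᵐ⁰) (h : x ≤ y) : dv m x ≤ dv m y := by
  by_cases hx : x = 0
  · rw [hx, dv_zero]; exact zero_le
  · have hy : y ≠ 0 := fun hy => hx (le_zero_iff.1 (hy ▸ h))
    rw [dv_of_ne hx, dv_of_ne hy, WithZero.exp_le_exp]
    rcases Nat.eq_zero_or_pos m with hm | hm
    · rw [hm, Nat.cast_zero, Int.ediv_zero, Int.ediv_zero]
    · exact Int.ediv_le_ediv (by exact_mod_cast hm) ((WithZero.log_le_log hx hy).2 h)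

/-- Normalization of a nontrivial discrete valuation. -/
theorem exists_norm (u : Val E) (hu : ∃ a : Eˣ, ord u a ≠ 0) :
    ∃ (w : Val E) (m : ℕ), Function.Surjective w ∧ m ≠ 0 ∧ ∀ e, u e = w e ^ m := by
  classical
  obtain ⟨m, hm⟩ : ∃ m : ℕ, ∀ n : ℤ, (∃ a : Eˣ, ord u a = n) ↔ (m : ℤ) ∣ n := by
    have h1 := Int.subgroup_cyclic ((ordHom u).range.toAddSubgroup')
    obtain ⟨a, ha⟩ := h1
    refine ⟨a.natAbs, fun n => ?_⟩
    rw [Int.natAbs_dvd, ← Int.mem_zmultiples_iff, AddSubgroup.zmultiples_eq_closure, ← ha]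
    rfl
  have hm0 : m ≠ 0 := by
    rintro rfl
    obtain ⟨a, ha⟩ := hu
    have := (hm _).1 ⟨a, rfl⟩
    rw [Nat.cast_zero, zero_dvd_iff] at this
    exact ha this
  have hlog : ∀ e : E, e ≠ 0 → (m : ℤ) ∣ (u e).log := by
    intro e he
    have := (hm (ord u (Units.mk0 e he))).1 ⟨_, rfl⟩
    rw [ord, Int.dvd_neg] at this
    exact this
  have hu0 : ∀ e : E, e ≠ 0 → u e ≠ 0 := fun e he => (u.ne_zero_iff).2 he
  let w : Val E :=
    { toFun := fun e => dv m (u e)
      map_zero' := by rw [map_zero, dv_zero]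
      map_one' := by rw [map_one, dv_of_ne one_ne_zero, WithZero.log_one, Int.zero_ediv]; rfl
      map_mul' := by
        intro x y
        by_cases hx : x = 0
        · rw [hx, zero_mul, map_zero, dv_zero, zero_mul]
        by_cases hy : y = 0
        · rw [hy, mul_zero, map_zero, dv_zero, mul_zero]
        rw [map_mul, dv_of_ne (hu0 x hx), dv_of_ne (hu0 y hy),
          dv_of_ne (mul_ne_zero (hu0 x hx) (hu0 y hy)), ← WithZero.exp_add,
          WithZero.log_mul (hu0 x hx) (hu0 y hy), Int.add_ediv_of_dvd_left (hlog x hx)]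
      map_add_le_max' := by
        intro x y
        rcases le_total (u x) (u y) with h | h
        · exact (dv_mono m _ _ ((u.map_add x y).trans (max_le h le_rfl))).trans (le_max_right _ _)
        · exact (dv_mono m _ _ ((u.map_add x y).trans (max_le le_rfl h))).trans (le_max_left _ _) }
  have hw : ∀ e, w e = dv m (u e) := fun _ => rfl
  refine ⟨w, m, ?_, hm0, ?_⟩
  · intro y
    by_cases hy : y = 0
    · exact ⟨0, by rw [map_zero, hy]⟩
    · obtain ⟨a, ha⟩ := (hm (-(y.log * m))).2 (by
        rw [Int.dvd_neg]; exact Int.dvd_mul_left _ _)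
      refine ⟨a, ?_⟩
      rw [hw, dv_of_ne (hu0 _ a.ne_zero)]
      rw [ord, neg_inj] at ha
      rw [ha, Int.mul_ediv_cancel _ (by exact_mod_cast hm0), WithZero.exp_log hy]
  · intro e
    by_cases he : e = 0
    · rw [he, map_zero, map_zero, zero_pow hm0]
    · rw [hw, dv_of_ne (hu0 e he), ← WithZero.exp_nsmul, nsmul_eq_mul,
        Int.mul_ediv_cancel' (hlog e he), WithZero.exp_log (hu0 e he)]

theorem norm_unique {v w : Val E} {m n : ℕ} (hv : Function.Surjective v)
    (hw : Function.Surjective w) (hm : m ≠ 0) (hn : n ≠ 0) (h : ∀ e, v e ^ m = w e ^ n) :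
    v = w ∧ m = n := by
  have h1 : ∀ a : Eˣ, (m : ℤ) * ord v a = n * ord w a := by
    intro a
    have h2 := congrArg WithZero.log (h a)
    rw [WithZero.log_pow, WithZero.log_pow, nsmul_eq_mul, nsmul_eq_mul] at h2
    rw [ord, ord]
    linarith
  have hm' : (m : ℤ) ≠ 0 := by exact_mod_cast hm
  have hn' : (n : ℤ) ≠ 0 := by exact_mod_cast hn
  obtain ⟨x, hx⟩ := exists_ord hv 1
  have hvw : w = v := by
    refine val_eq_of hv hw (fun a ha => ?_) x (by omega) ?_
    · have := h1 a
      rw [ha, mul_zero, eq_comm, mul_eq_zero] at this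
      exact this.resolve_left hn'
    · have := h1 x
      rw [hx, mul_one] at this
      by_contra hneg
      push Not at hneg
      have : (m : ℤ) < 0 := by
        rw [this]
        exact mul_neg_of_pos_of_neg (by positivity) hneg
      omega
  refine ⟨hvw.symm, ?_⟩
  have := h1 x
  rw [hvw, hx] at this
  omega

end general

section hor

variable {F : Type u} [Field F] {K : Type v} [Field K] [Algebra F[X] K] [IsFractionRing F[X] K]

/-- The valuations of the irreducible polynomials are the normalized discrete valuations which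
are nonnegative on polynomials. -/
theorem mem_hor_iff {w : Val K} :
    w ∈ hor F K ↔ Function.Surjective w ∧ ∀ f : F[X], w (algebraMap F[X] K f) ≤ 1 := by
  constructor
  · rintro ⟨𝔭, rfl⟩
    exact ⟨𝔭.valuation_surjective K, fun f => 𝔭.valuation_le_one f⟩
  · rintro ⟨hw, hf⟩
    have hne : ∃ f : F[X], f ≠ 0 ∧ w (algebraMap F[X] K f) < 1 := by
      by_contra hcon
      push Not at hcon
      have h1 : ∀ f : F[X], f ≠ 0 → w (algebraMap F[X] K f) = 1 := fun f hf0 =>
        le_antisymm (hf f) (hcon f hf0)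
      obtain ⟨a, ha⟩ := exists_ord hw 1
      obtain ⟨f, g, hg, hfg⟩ := IsFractionRing.div_surjective (A := F[X]) (a : K)
      have hg0 : g ≠ 0 := nonZeroDivisors.ne_zero hg
      have hf0 : f ≠ 0 := by
        rintro rfl
        rw [map_zero, zero_div] at hfg
        exact a.ne_zero hfg.symm
      have h2 : w (a : K) = 1 := by rw [← hfg, map_div₀, h1 f hf0, h1 g hg0, div_one]
      rw [← ord_eq_zero, ha] at h2
      exact one_ne_zero h2
    let I : Ideal F[X] :=
      { carrier := {f | w (algebraMap F[X] K f) < 1}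
        zero_mem' := by simp
        add_mem' := by
          intro a b ha hb
          rw [Set.mem_ofPred_eq] at *
          rw [map_add]
          exact lt_of_le_of_lt (w.map_add _ _) (max_lt ha hb)
        smul_mem' := by
          intro c a ha
          rw [Set.mem_ofPred_eq] at *
          rw [smul_eq_mul, map_mul, map_mul]
          exact mul_lt_one_of_nonneg_of_lt_one_right (hf c) zero_le ha }
    have hI : ∀ f, f ∈ I ↔ w (algebraMap F[X] K f) < 1 := fun _ => Iff.rfl
    let 𝔭 : HeightOneSpectrum F[X] :=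
      { asIdeal := I
        isPrime := by
          refine ⟨?_, ?_⟩
          · rw [Ideal.ne_top_iff_one, hI, map_one, map_one]
            exact lt_irrefl _
          · intro a b hab
            rw [hI] at hab ⊢
            rw [hI]
            by_contra hcon
            push Not at hcon
            have h1 := le_antisymm (hf a) hcon.1
            have h2 := le_antisymm (hf b) hcon.2
            rw [map_mul, map_mul, h1, h2, mul_one] at hab
            exact lt_irrefl _ hab
        ne_bot := by
          obtain ⟨f, hf0, hf1⟩ := hne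
          intro h
          have : f ∈ I := hf1
          rw [h] at this
          exact hf0 this }
    refine ⟨𝔭, ?_⟩
    obtain ⟨f, hf0, hf1⟩ := hne
    refine val_eq_of (𝔭.valuation_surjective K) hw (fun a ha => ?_)
      (Units.mk0 _ (algebraMap_ne K hf0)) ?_ ?_
    · rw [ord_eq_zero] at ha
      obtain ⟨n, d, hnd⟩ := 𝔭.exists_primeCompl_mul_eq_of_integer (a : K) ha.le
      have hd : w (algebraMap F[X] K d) = 1 := by
        refine le_antisymm (hf _) (not_lt.1 ?_)
        exact d.2
      have hn : w (algebraMap F[X] K n) = 1 := by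
        refine le_antisymm (hf _) (not_lt.1 ?_)
        intro hlt
        have h1 : 𝔭.valuation K (algebraMap F[X] K n) < 1 :=
          (HeightOneSpectrum.valuation_lt_one_iff_mem _ _).2 hlt
        rw [← hnd, map_mul, ha, one_mul] at h1
        exact d.2 ((HeightOneSpectrum.valuation_lt_one_iff_mem _ _).1 h1)
      rw [ord_eq_zero]
      have := congrArg w hnd
      rw [map_mul, hd, hn, mul_one] at this
      exact this
    · rw [ord_pos, Units.val_mk0, HeightOneSpectrum.valuation_lt_one_iff_mem]
      exact hf1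
    · rw [ord_nonneg_iff]
      exact hf f

end hor

end Run7.h34
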