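import Pool.Agent.Run7.h34.Divs
import Pool.Agent.Run7.h34.Normal
import Pool.Agent.Run7.h34.Vals
import Pool.Agent.Run7.h34.PMap

/-! Centres of valuations, by the valuative criterion. -/

set_option linter.unusedSectionVars false

namespace Run7.h34

open AlgebraicGeometry CategoryTheory Limits TopologicalSpace IsLocalRing
open scoped WithZero

universe u

section

variable {X : Scheme.{u}} [IsIntegral X]

theorem center_aux (w : Val X.functionField) (U : X.Opens) (hU : genericPoint X ∈ U)
    {T : Scheme.{u}} (π : U.toScheme ⟶ T) [UniversallyClosed π]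
    (i₂ : Spec (CommRingCat.of w.valuationSubring) ⟶ T)
    (h : Spec.map (CommRingCat.ofHom (algebraMap w.valuationSubring X.functionField)) ≫ i₂ =
      U.fromSpecStalkOfMem (genericPoint X) hU ≫ π) :
    ∃ (P : X) (_ : P ∈ U) (s : X.presheaf.stalk P →+* w.valuationSubring), IsLocalHom s ∧
      ∀ a, (s a : X.functionField) = algebraMap (X.presheaf.stalk P) X.functionField a := by
  have hE : ValuativeCriterion.Existence π := by
    have := (UniversallyClosed.eq_valuativeCriterion.le _ _ _ ‹UniversallyClosed π›)
    exact this.1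
  obtain ⟨l, hl₁, hl₂⟩ := (hE
    { R := w.valuationSubring
      K := X.functionField
      i₁ := U.fromSpecStalkOfMem (genericPoint X) hU
      i₂ := i₂
      commSq := ⟨h.symm⟩ }).exists_lift
  dsimp only at l hl₁ hl₂
  set l' : Spec (CommRingCat.of w.valuationSubring) ⟶ X := l ≫ U.ι with hl'
  have h1 : Spec.map (CommRingCat.ofHom (algebraMap w.valuationSubring X.functionField)) ≫ l' =
      X.fromSpecStalk (genericPoint X) := by
    rw [hl', ← Category.assoc, hl₁, Scheme.Opens.fromSpecStalkOfMem_ι]
  refine ⟨l' (closedPoint w.valuationSubring), ?_, (Scheme.stalkClosedPointTo l').hom,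
    inferInstance, ?_⟩
  · exact (l (closedPoint w.valuationSubring)).2
  · have hs : genericPoint X ⤳ l' (closedPoint w.valuationSubring) :=
      (genericPoint_spec X).specializes trivial
    have h2 : Scheme.stalkClosedPointTo l' ≫
        CommRingCat.ofHom (algebraMap w.valuationSubring X.functionField) =
        X.presheaf.stalkSpecializes hs := by
      apply Spec.map_injective
      rw [← cancel_mono (X.fromSpecStalk (l' (closedPoint w.valuationSubring))), Spec.map_comp,
        Category.assoc, Scheme.SpecMap_stalkSpecializes_fromSpecStalk]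
      rw [← h1]
      congr 1
      exact Scheme.Spec_stalkClosedPointTo_fromSpecStalk l'
    intro a
    exact ConcreteCategory.congr_hom h2 a

theorem center (w : Val X.functionField) (U : X.Opens) (hU : genericPoint X ∈ U)
    {T : Scheme.{u}} [IsAffine T] (π : U.toScheme ⟶ T) [UniversallyClosed π]
    (h : ∀ a, w (pullFn U hU π a) ≤ 1) :
    ∃ (P : X) (_ : P ∈ U) (s : X.presheaf.stalk P →+* w.valuationSubring), IsLocalHom s ∧
      ∀ a, (s a : X.functionField) = algebraMap (X.presheaf.stalk P) X.functionField a := by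
  let φ : Γ(T, ⊤) →+* w.valuationSubring := (pullFn U hU π).codRestrict _ h
  refine center_aux w U hU π (Spec.map (CommRingCat.ofHom φ) ≫ T.isoSpec.inv) ?_
  rw [← cancel_mono T.toSpecΓ]
  have h1 : T.isoSpec.inv ≫ T.toSpecΓ = 𝟙 _ := T.isoSpec.inv_hom_id
  have h3 : (Spec.map (CommRingCat.ofHom φ) ≫ T.isoSpec.inv) ≫ T.toSpecΓ =
      Spec.map (CommRingCat.ofHom φ) := by
    rw [Category.assoc, h1]
    exact Category.comp_id _
  rw [Category.assoc, h3, ← Spec.map_comp, Category.assoc, Scheme.toSpecΓ_naturality]
  have h2 : U.toScheme.toSpecΓ = U.toSpecΓ ≫ Spec.map U.topIso.hom := by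
    rw [Scheme.Opens.toSpecΓ, Category.assoc, ← Spec.map_comp, Iso.hom_inv_id, Spec.map_id,
      Category.comp_id]
  rw [h2, Category.assoc, Scheme.Opens.fromSpecStalkOfMem_toSpecΓ_assoc, ← Spec.map_comp,
    ← Spec.map_comp]
  rfl

end

end Run7.h34
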