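import Pool.Agent.Run7.h34.Plane2

/-! Transfer of the vanishing from the plane along purely inseparable extensions. -/

set_option linter.unusedSectionVars false

namespace Run7.h34

open Polynomial IsDedekindDomain

section transfer

variable {G : Type*} [Group G] {k : Type*} [Field k] {E : Type*} [Field E] {P : Type*} [Field P]

/-- Two homomorphisms between fields whose composites are the `q`-th power maps. -/
structure FPair (S : Setup G k E) (S' : Setup G k P) (q : ℕ) where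
  /-- the homomorphism from `P` to `E` -/
  ι : P →+* E
  /-- the homomorphism from `E` to `P` -/
  φ : E →+* P
  /-- the first composite -/
  hφι : ∀ p, φ (ι p) = p ^ q
  /-- the second composite -/
  hιφ : ∀ e, ι (φ e) = e ^ q
  /-- equivariance -/
  hι : ∀ g p, ι (S'.ρ g p) = S.ρ g (ι p)
  /-- compatibility with constants -/
  hc : ∀ a, ι (S'.c a) = S.c a
  /-- valuations restrict to powers of valuations -/
  hr : ∀ w ∈ S'.X, ∃ w' ∈ S.X, ∃ m : ℕ, m ≠ 0 ∧ ∀ e, w (φ e) = w' e ^ m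
  /-- the valuations are normalized -/
  hs : ∀ w ∈ S.X, Function.Surjective w
  /-- the valuations are normalized -/
  hs' : ∀ w ∈ S'.X, Function.Surjective w
  /-- the exponent is not zero -/
  hq : q ≠ 0

namespace FPair

variable {S : Setup G k E} {S' : Setup G k P} {q : ℕ} (A : FPair S S' q)

theorem hφ (g : G) (e : E) : A.φ (S.ρ g e) = S'.ρ g (A.φ e) := by
  apply A.ι.injective
  rw [A.hιφ, A.hι, A.hιφ, map_pow]

theorem hφc (a : k) : A.φ (S.c a) = S'.c (a ^ q) := by
  apply A.ι.injective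
  rw [A.hιφ, A.hc, map_pow]

open Classical in
/-- The restricted valuation. -/
noncomputable def r (w : Val P) : Val E := if h : w ∈ S'.X then (A.hr w h).choose else w.comap A.φ

open Classical in
/-- The ramification index. -/
noncomputable def m (w : Val P) : ℕ :=
  if h : w ∈ S'.X then (A.hr w h).choose_spec.2.choose else 1

theorem r_mem {w : Val P} (h : w ∈ S'.X) : A.r w ∈ S.X := by
  rw [r, dif_pos h]; exact (A.hr w h).choose_spec.1

theorem m_ne {w : Val P} (h : w ∈ S'.X) : A.m w ≠ 0 := by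
  rw [m, dif_pos h]; exact (A.hr w h).choose_spec.2.choose_spec.1

theorem r_pow {w : Val P} (h : w ∈ S'.X) (e : E) : w (A.φ e) = A.r w e ^ A.m w := by
  rw [r, dif_pos h, m, dif_pos h]; exact (A.hr w h).choose_spec.2.choose_spec.2 e

theorem r_comap {w : Val P} (h : w ∈ S'.X) (g : G) :
    A.r (w.comap (S'.ρ g)) = (A.r w).comap (S.ρ g) ∧ A.m (w.comap (S'.ρ g)) = A.m w := by
  have h' := S'.hX g w h
  refine norm_unique (A.hs _ (A.r_mem h')) (comap_surjective _ g (A.hs _ (A.r_mem h)))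
    (A.m_ne h') (A.m_ne h) (fun e => ?_)
  rw [← A.r_pow h', Valuation.comap_apply, Valuation.comap_apply, ← A.hφ, A.r_pow h]

theorem r_injOn : Set.InjOn A.r S'.X := by
  intro w hw v hv h
  have h1 : ∀ p, w p ^ (q * A.m v) = v p ^ (q * A.m w) := by
    intro p
    have e1 : w p ^ q = w (A.φ (A.ι p)) := by rw [A.hφι, map_pow]
    have e2 : v p ^ q = v (A.φ (A.ι p)) := by rw [A.hφι, map_pow]
    rw [pow_mul, pow_mul, e1, e2, A.r_pow hw, A.r_pow hv, h, ← pow_mul, ← pow_mul, mul_comm]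
  exact (norm_unique (A.hs' w hw) (A.hs' v hv) (mul_ne_zero A.hq (A.m_ne hv))
    (mul_ne_zero A.hq (A.m_ne hw)) h1).1

/-- The induced map on families. -/
noncomputable def Ψ : PiX S.X →+ PiX S'.X :=
  PiX.map S.X S'.X A.φ A.r A.m (fun _ hw => ⟨A.r_mem hw, A.m_ne hw, A.r_pow hw⟩)

theorem Ψ_mk (f : Val E → Additive Eˣ) :
    A.Ψ (PiX.mk S.X f) = PiX.mk S'.X (fun w => A.m w • umap A.φ (f (A.r w))) := rfl

theorem Ψ_act (g : G) (d : PiX S.X) : A.Ψ (S.actPi g d) = S'.actPi g (A.Ψ d) := by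
  obtain ⟨f, rfl⟩ := PiX.mk_surjective _ d
  rw [Setup.actPi_mk, Ψ_mk, Ψ_mk, Setup.actPi_mk, ← sub_eq_zero, ← map_sub, PiX.mk_eq_zero]
  intro w hw
  rw [Pi.sub_apply, (A.r_comap hw g).1, (A.r_comap hw g).2, map_nsmul, umap_umap, umap_umap]
  have : A.φ.comp (S.ρ g) = (S'.ρ g).comp A.φ := RingHom.ext fun e => A.hφ g e
  rw [this, sub_self]
  exact (pu w).one_mem

theorem Ψ_mem {d : PiX S.X} (hd : d ∈ DX S.X) : A.Ψ d ∈ DX S'.X := by
  classical
  obtain ⟨f, hf, hf', rfl⟩ := hd
  refine ⟨fun w => if w ∈ S'.X then A.m w • umap A.φ (f (A.r w)) else 0, ?_, ?_, ?_⟩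
  · have h1 : {w : Val P | (if w ∈ S'.X then A.m w • umap A.φ (f (A.r w)) else 0) ≠ 0} ⊆
        {w | w ∈ S'.X ∧ A.r w ∈ {v | f v ≠ 0}} := by
      intro w hw
      rw [Set.mem_ofPred_eq] at hw
      by_cases h : w ∈ S'.X
      · rw [if_pos h] at hw
        refine ⟨h, fun h0 => hw ?_⟩
        rw [h0, map_zero, smul_zero]
      · rw [if_neg h] at hw
        exact absurd rfl hw
    refine Set.Finite.subset ?_ h1
    refine Set.Finite.of_finite_image (f := A.r) (hf.subset ?_) ?_
    · rintro _ ⟨w, hw, rfl⟩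
      exact hw.2
    · intro w hw v hv h
      exact A.r_injOn hw.1 hv.1 h
  · intro w hw
    beta_reduce
    rw [if_pos hw, toMul_nsmul, Units.val_pow_eq_pow_val, map_pow, coe_umap, A.r_pow hw,
      hf' _ (A.r_mem hw), one_pow, one_pow]
  · rw [Ψ_mk, ← sub_eq_zero, ← map_sub, PiX.mk_eq_zero]
    intro w hw
    rw [Pi.sub_apply, if_pos hw, sub_self]
    exact (pu w).one_mem

theorem Ψ_tam (x : K2 E) : A.Ψ (tam S.X x) = tam S'.X (K2.map A.φ x) := PiX.map_tam _ _ _ _ _ _ x

end FPair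

end transfer

end Run7.h34
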