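import Pool.Agent.Run7.h34.Core

/-! Transfer of the vanishing from the plane along purely inseparable extensions. -/

set_option linter.unusedSectionVars false

namespace Run7.h34

open Polynomial IsDedekindDomain

section transfer

variable {G : Type*} [Group G] {k : Type*} [Field k] {E : Type*} [Field E] {P : Type*} [Field P]

theorem K2_map_pow {L L' : Type*} [Field L] [Field L'] (f g : L →+* L') (n : ℕ)
    (h : ∀ a, f a = g a ^ n) (x : K2 L) : K2.map f x = (n * n) • K2.map g x := by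
  induction x using K2.induction with
  | h0 => simp only [map_zero, smul_zero]
  | hs a b =>
    have e : ∀ a : Lˣ, Units.map f.toMonoidHom a = (Units.map g.toMonoidHom a) ^ n := by
      intro a
      ext
      exact h a
    rw [K2.map_sy, K2.map_sy, e, e, sy_pow_left, sy_pow_right, ← mul_smul]
  | ha x y hx hy => rw [map_add, map_add, hx, hy, nsmul_add]

namespace FPair

variable {S : Setup G k E} {S' : Setup G k P} {q : ℕ} (A : FPair S S' q)

theorem Φ_const (y : K2 k) : S'.q (K2.map A.φ (K2.map S.c y)) = 0 := by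
  rw [K2.map_map, K2_map_pow (A.φ.comp S.c) S'.c q (fun a => by
    rw [RingHom.comp_apply, A.hφc, map_pow]), map_nsmul, S'.q_map_c, smul_zero]

theorem I_const (y : K2 k) : S.q (K2.map A.ι (K2.map S'.c y)) = 0 := by
  have h : A.ι.comp S'.c = S.c := RingHom.ext A.hc
  rw [K2.map_map, h, S.q_map_c]

/-- The map `K₂ E / K₂ k → K₂ P / K₂ k`. -/
noncomputable def Φ : S.M →+ S'.M := S.mapM S' (K2.map A.φ) A.Φ_const

/-- The map `K₂ P / K₂ k → K₂ E / K₂ k`. -/
noncomputable def I : S'.M →+ S.M := S'.mapM S (K2.map A.ι) A.I_const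

theorem Φ_act (g : G) (m : S.M) : A.Φ (S.act g m) = S'.act g (A.Φ m) := by
  refine S.mapM_act S' _ _ (fun g x => ?_) g m
  rw [K2.map_map, K2.map_map]
  congr 2
  exact RingHom.ext fun e => A.hφ g e

theorem I_act (g : G) (m : S'.M) : A.I (S'.act g m) = S.act g (A.I m) := by
  refine S'.mapM_act S _ _ (fun g x => ?_) g m
  rw [K2.map_map, K2.map_map]
  congr 2
  exact RingHom.ext fun e => A.hι g e

theorem I_Φ (m : S.M) : A.I (A.Φ m) = (q * q) • m := by
  obtain ⟨x, rfl⟩ := S.q_surjective m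
  rw [Φ, Setup.mapM_q, I, Setup.mapM_q, K2.map_map, K2_map_pow (A.ι.comp A.φ) (RingHom.id E) q
    (fun e => A.hιφ e), K2.map_id, map_nsmul]
  rfl

theorem tamM_Φ (m : S.M) : S'.tamM (A.Φ m) = A.Ψ (S.tamM m) := by
  obtain ⟨x, rfl⟩ := S.q_surjective m
  rw [Φ, Setup.mapM_q, Setup.tamM_q, Setup.tamM_q, A.Ψ_tam]

variable [TopologicalSpace G]

theorem Φ_mem {α : H2 S.act} (hα : α ∈ S.N) : H2.mapM A.Φ A.Φ_act α ∈ S'.N := by
  obtain ⟨a, ⟨c, hc, hc', hca⟩, rfl⟩ := hα
  rw [H2.mapM_mk]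
  refine ⟨_, ⟨fun g => A.Ψ (c g), hc.comp A.Ψ, fun g => A.Ψ_mem (hc' g), fun p => ?_⟩, rfl⟩
  rw [Z2.map_coe, A.tamM_Φ]
  change A.Ψ (S.tamM ((a : G × G → S.M) p)) = _
  rw [hca]
  simp only [dcob, map_add, map_sub, A.Ψ_act]

theorem I_Φ_H2 (α : H2 S.act) : H2.mapM A.I A.I_act (H2.mapM A.Φ A.Φ_act α) = (q * q) • α := by
  rw [H2.mapM_mapM]
  exact H2.mapM_nsmul _ _ A.I_Φ α

end FPair

end transfer

section plane

variable {G : Type*} [Group G] {k : Type*} [Field k] {E : Type*} [Field E]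

theorem io2_poly (c : k →+* E) (x y : E) (h : Function.Injective (ev c x y)) (f : k[X][X]) :
    io2 c x y h (ev (cc k) (RatFunc.C RatFunc.X) RatFunc.X f) = ev c x y f := by
  have : (io2 c x y h).comp (ev (cc k) (RatFunc.C RatFunc.X) RatFunc.X) = ev c x y := by
    refine hom2_ext (fun a => ?_) ?_ ?_
    · rw [RingHom.comp_apply, ev_CC, ev_CC]; exact io2_CC _ _ _ _ _
    · rw [RingHom.comp_apply, ev_CX, ev_CX, io2_CX]
    · rw [RingHom.comp_apply, ev_X, ev_X, io2_X]
  exact RingHom.congr_fun this f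

theorem io2_swap (c : k →+* E) (x y : E) (h : Function.Injective (ev c x y)) :
    (io2 c x y h).comp (swp k) = io2 c y x (ev_swap_injective h) := by
  refine rhom2_ext (fun a => ?_) ?_ ?_
  · rw [RingHom.comp_apply, swp_CC, io2_CC, io2_CC]
  · rw [RingHom.comp_apply, swp_CX, io2_X, io2_CX]
  · rw [RingHom.comp_apply, swp_X, io2_CX, io2_X]

theorem hor_const {w : Val (RatFunc (RatFunc k))} (hw : w ∈ hor (RatFunc k) (RatFunc (RatFunc k)))
    {a : RatFunc k} (ha : a ≠ 0) :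
    w (algebraMap (RatFunc k)[X] (RatFunc (RatFunc k)) (C a)) = 1 := by
  rw [mem_hor_iff] at hw
  refine le_antisymm (hw.2 _) ?_
  have h2 := hw.2 (C a⁻¹)
  have h3 : w (algebraMap (RatFunc k)[X] (RatFunc (RatFunc k)) (C a)) *
      w (algebraMap (RatFunc k)[X] (RatFunc (RatFunc k)) (C a⁻¹)) = 1 := by
    rw [← map_mul, ← map_mul, ← C_mul, mul_inv_cancel₀ ha, C_1, map_one, map_one]
  by_contra hlt
  push Not at hlt
  have : w (algebraMap (RatFunc k)[X] (RatFunc (RatFunc k)) (C a)) *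
      w (algebraMap (RatFunc k)[X] (RatFunc (RatFunc k)) (C a⁻¹)) < 1 :=
    mul_lt_one_of_lt_of_le hlt h2
  rw [h3] at this
  exact lt_irrefl _ this

/-- The condition on the set of valuations which is provided by geometry. -/
def Geo (S : Setup G k E) (x y : E) (q : ℕ) : Prop :=
  ∀ w : Val E, Function.Surjective w → (∀ f : k[X][X], w (ev S.c x y f) ≤ 1) →
    (∀ e, w e ≤ 1 → ∃ a b : k[X][X], w (ev S.c x y b) = 1 ∧
      e ^ q * ev S.c x y b = ev S.c x y a) → w ∈ S.X

theorem Geo.swap {S : Setup G k E} {x y : E} {q : ℕ} (h : Geo S x y q) : Geo S y x q := by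
  intro w hw h1 h2
  refine h w hw (fun f => ?_) (fun e he => ?_)
  · rw [← ev_swap]; exact h1 _
  · obtain ⟨a, b, hb, hab⟩ := h2 e he
    refine ⟨Polynomial.Bivariate.swap a, Polynomial.Bivariate.swap b, ?_, ?_⟩
    · rw [ev_swap]; exact hb
    · rw [ev_swap, ev_swap]; exact hab

theorem exists_r {S : Setup G k E} {x y : E} {q : ℕ} (hq : q ≠ 0)
    (h : Function.Injective (ev S.c x y))
    (hgeo : Geo S x y q) (φ : E →+* RatFunc (RatFunc k)) (hφ : ∀ e, io2 S.c x y h (φ e) = e ^ q)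
    (w : Val (RatFunc (RatFunc k))) (hw : w ∈ hor (RatFunc k) (RatFunc (RatFunc k))) :
    ∃ w' ∈ S.X, ∃ m : ℕ, m ≠ 0 ∧ ∀ e, w (φ e) = w' e ^ m := by
  have hφι : ∀ p, φ (io2 S.c x y h p) = p ^ q := by
    intro p
    apply (io2 S.c x y h).injective
    rw [hφ, map_pow]
  have hw' := mem_hor_iff.1 hw
  obtain ⟨w', m, hs, hm, hwm⟩ := exists_norm (w.comap φ) (by
    obtain ⟨a, ha⟩ := exists_ord hw'.1 1
    refine ⟨Units.map (io2 S.c x y h).toMonoidHom a, ?_⟩
    have h1 : (w.comap φ) ((Units.map (io2 S.c x y h).toMonoidHom a : Eˣ) : E) =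
        w ((a ^ q : (RatFunc (RatFunc k))ˣ) : RatFunc (RatFunc k)) := by
      rw [Valuation.comap_apply]
      change w (φ (io2 S.c x y h a)) = _
      rw [hφι]; rfl
    have h2 : ord (w.comap φ) (Units.map (io2 S.c x y h).toMonoidHom a) = ord w (a ^ q) := by
      rw [ord, ord, h1]
    rw [h2, ord_pow, ha]
    simpa using hq)
  refine ⟨w', ?_, m, hm, fun e => hwm e⟩
  refine hgeo w' hs (fun f => ?_) (fun e he => ?_)
  · have h1 := hwm (ev S.c x y f)
    rw [Valuation.comap_apply, ← io2_poly S.c x y h, hφι, map_pow, ev_cc, io2_alg] at h1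
    have h2 := pow_le_one₀ (n := q) zero_le
      (hw'.2 (f.map (algebraMap k[X] (RatFunc k))))
    rw [h1, ← io2_alg, ← ev_cc, io2_poly] at h2
    exact (pow_le_one_iff hm).1 h2
  · have h1 : w (φ e) ≤ 1 := by
      have := hwm e
      rw [Valuation.comap_apply] at this
      rw [this]
      exact pow_le_one₀ zero_le he
    obtain ⟨𝔭, rfl⟩ := hw
    obtain ⟨A, ⟨B, hB⟩, hAB⟩ := 𝔭.exists_primeCompl_mul_eq_of_integer (φ e) h1
    have hBw : 𝔭.valuation (RatFunc (RatFunc k)) (algebraMap _ _ B) = 1 :=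
      (HeightOneSpectrum.valuation_eq_one_iff_notMem 𝔭).2 hB
    obtain ⟨d₁, a₁, hd₁, ha₁⟩ := exists_clear A
    obtain ⟨d₂, b₁, hd₂, hb₁⟩ := exists_clear B
    have hmem : 𝔭.valuation (RatFunc (RatFunc k)) ∈ hor (RatFunc k) (RatFunc (RatFunc k)) :=
      ⟨𝔭, rfl⟩
    set v := 𝔭.valuation (RatFunc (RatFunc k)) with hv
    have hb' : ev (cc k) (RatFunc.C RatFunc.X) RatFunc.X (C d₁ * b₁) =
        algebraMap (RatFunc k)[X] (RatFunc (RatFunc k)) (C (algebraMap k[X] (RatFunc k) d₁)) *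
        (algebraMap (RatFunc k)[X] (RatFunc (RatFunc k)) (C (algebraMap k[X] (RatFunc k) d₂)) *
        algebraMap (RatFunc k)[X] (RatFunc (RatFunc k)) B) := by
      rw [ev_cc, Polynomial.map_mul, map_mul, hb₁, map_mul, map_C]
    have ha' : ev (cc k) (RatFunc.C RatFunc.X) RatFunc.X (C d₂ * a₁) =
        algebraMap (RatFunc k)[X] (RatFunc (RatFunc k)) (C (algebraMap k[X] (RatFunc k) d₂)) *
        (algebraMap (RatFunc k)[X] (RatFunc (RatFunc k)) (C (algebraMap k[X] (RatFunc k) d₁)) *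
        algebraMap (RatFunc k)[X] (RatFunc (RatFunc k)) A) := by
      rw [ev_cc, Polynomial.map_mul, map_mul, ha₁, map_mul, map_C]
    have hvb : v (ev (cc k) (RatFunc.C RatFunc.X) RatFunc.X (C d₁ * b₁)) = 1 := by
      rw [hb', map_mul, map_mul, hor_const hmem (algebraMap_ne _ hd₁),
        hor_const hmem (algebraMap_ne _ hd₂), hBw, mul_one, mul_one]
    refine ⟨C d₂ * a₁, C d₁ * b₁, ?_, ?_⟩
    · have h2 := hwm (ev S.c x y (C d₁ * b₁))
      rw [Valuation.comap_apply, ← io2_poly S.c x y h, hφι, map_pow, hvb, one_pow,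
        io2_poly] at h2
      exact (pow_eq_one_iff.1 h2.symm).resolve_right hm
    · rw [← hφ, ← io2_poly S.c x y h, ← io2_poly S.c x y h, ← map_mul, hb', ha', ← hAB]
      congr 1
      ring

end plane

end Run7.h34
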