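import Pool.Agent.Run7.h34.Core2

/-! The abstract vanishing theorem. -/

set_option linter.unusedSectionVars false

namespace Run7.h34

open Polynomial IsDedekindDomain

section core

variable {G : Type*} [Group G] {k : Type*} [Field k] {E : Type*} [Field E]

/-- The inverse of an embedding on `p^n`-th powers. -/
noncomputable def powInv {P : Type*} [Field P] (ι : P →+* E) (p n : ℕ) [ExpChar E p]
    (h : ∀ e : E, ∃ z, ι z = e ^ p ^ n) : E →+* P where
  toFun e := (h e).choose
  map_one' := ι.injective (by rw [(h 1).choose_spec, one_pow, map_one])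
  map_mul' a b := ι.injective (by
    rw [(h _).choose_spec, map_mul, (h a).choose_spec, (h b).choose_spec, mul_pow])
  map_zero' := ι.injective (by
    rw [(h _).choose_spec, map_zero, zero_pow (pow_ne_zero n (expChar_ne_zero E p))])
  map_add' a b := ι.injective (by
    rw [(h _).choose_spec, map_add, (h a).choose_spec, (h b).choose_spec, add_pow_expChar_pow])

theorem powInv_spec {P : Type*} [Field P] (ι : P →+* E) (p n : ℕ) [ExpChar E p]
    (h : ∀ e : E, ∃ z, ι z = e ^ p ^ n) (e : E) : ι (powInv ι p n h e) = e ^ p ^ n :=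
  (h e).choose_spec

/-- The pair of homomorphisms for the plane. -/
noncomputable def planePair (S : Setup G k E) (x y : E) (hx : ∀ g, S.ρ g x = x)
    (hy : ∀ g, S.ρ g y = y) (h : Function.Injective (ev S.c x y)) {q : ℕ} (hq : q ≠ 0)
    (hs : ∀ w ∈ S.X, Function.Surjective w) (hgeo : Geo S x y q)
    (φ : E →+* RatFunc (RatFunc k)) (hφ : ∀ e, io2 S.c x y h (φ e) = e ^ q) :
    FPair S (S2 S.ρk) q where
  ι := io2 S.c x y h
  φ := φ
  hφι z := by
    apply (io2 S.c x y h).injective
    rw [hφ, map_pow]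
  hιφ := hφ
  hι g z := by
    have : (io2 S.c x y h).comp ((S2 S.ρk).ρ g) = (S.ρ g).comp (io2 S.c x y h) := by
      refine rhom2_ext (fun a => ?_) ?_ ?_
      · rw [RingHom.comp_apply, RingHom.comp_apply]
        change io2 S.c x y h (rmap (rmap (S.ρk g)) _) = _
        rw [rmap_C, rmap_C, io2_CC, io2_CC, S.hc]
      · rw [RingHom.comp_apply, RingHom.comp_apply]
        change io2 S.c x y h (rmap (rmap (S.ρk g)) _) = _
        rw [rmap_C, rmap_X, io2_CX, hx]
      · rw [RingHom.comp_apply, RingHom.comp_apply]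
        change io2 S.c x y h (rmap (rmap (S.ρk g)) _) = _
        rw [rmap_X, io2_X, hy]
    exact RingHom.congr_fun this z
  hc a := io2_CC _ _ _ _ _
  hr w hw := exists_r hq h hgeo φ hφ w hw
  hs := hs
  hs' w hw := (mem_hor_iff.1 hw).1
  hq := hq

variable [TopologicalSpace G]

/-- **The abstract vanishing theorem.** -/
theorem core (S : Setup G k E) (x y : E) (hx : ∀ g, S.ρ g x = x)
    (hy : ∀ g, S.ρ g y = y) (h : Function.Injective (ev S.c x y)) (p n : ℕ) [ExpChar E p]
    (hpow : ∀ e : E, ∃ z, io2 S.c x y h z = e ^ p ^ n)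
    (hs : ∀ w ∈ S.X, Function.Surjective w) (hgeo : Geo S x y (p ^ n))
    {α : H2 S.act} (hα : α ∈ S.N) : (p ^ n * p ^ n) • α = 0 := by
  have hq : p ^ n ≠ 0 := pow_ne_zero n (expChar_ne_zero E p)
  set φ := powInv (io2 S.c x y h) p n hpow with hφd
  have hφ : ∀ e, io2 S.c x y h (φ e) = e ^ p ^ n := powInv_spec _ _ _ _
  set h' := ev_swap_injective h with hh'
  have hφ' : ∀ e, io2 S.c y x h' (((swp k).comp φ) e) = e ^ p ^ n := by
    intro e
    rw [← io2_swap S.c x y h, RingHom.comp_apply, RingHom.comp_apply]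
    have : swp k (swp k (φ e)) = φ e := RingHom.congr_fun (swp_swp (k := k)) (φ e)
    rw [this, hφ]
  let A := planePair S x y hx hy h hq hs hgeo φ hφ
  let B := planePair S y x hy hx h' hq hs hgeo.swap ((swp k).comp φ) hφ'
  have h1 : H2.mapM A.Φ A.Φ_act α ∈ (S2 S.ρk).N := A.Φ_mem hα
  have h2 : H2.mapM B.Φ B.Φ_act α ∈ (S2 S.ρk).N := B.Φ_mem hα
  have h3 : H2.mapM (tM S.ρk) (tM_act S.ρk) (H2.mapM A.Φ A.Φ_act α) = H2.mapM B.Φ B.Φ_act α := by
    rw [H2.mapM_mapM]
    refine H2.mapM_congr _ _ (fun m => ?_) α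
    obtain ⟨z, rfl⟩ := S.q_surjective m
    change (S2 S.ρk).q (K2.map (swp k) (K2.map φ z)) = (S2 S.ρk).q (K2.map ((swp k).comp φ) z)
    rw [K2.map_map]
  have h4 := plane_main S.ρk h1 (by rw [h3]; exact h2)
  rw [← A.I_Φ_H2, h4, map_zero]

end core

end Run7.h34
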