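import Pool.Agent.Run7.h34.Line

/-! A class which dies on an open subgroup of finite index is killed by the index. -/

set_option linter.unusedSectionVars false

namespace Run7.h34

section

variable {G : Type*} [Group G] [TopologicalSpace G] [IsTopologicalGroup G] {M : Type*}
  [AddCommGroup M] (ρ : G →* AddMonoid.End M) (H : Subgroup G)

open Classical in
/-- Extension by zero of a cochain on a subgroup. -/
noncomputable def ext0 (c : H → M) (g : G) : M := if h : g ∈ H then c ⟨g, h⟩ else 0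

theorem ext0_of_mem {c : H → M} {g : G} (h : g ∈ H) : ext0 H c g = c ⟨g, h⟩ := dif_pos h

theorem ext0_locConst {c : H → M} (hc : IsLocallyConstant c) (hH : IsOpen (H : Set G)) :
    IsLocallyConstant (ext0 H c) := by
  rw [IsLocallyConstant.iff_exists_open]
  intro g
  by_cases h : g ∈ H
  · obtain ⟨U, hU, hgU, hUc⟩ := (IsLocallyConstant.iff_exists_open c).1 hc ⟨g, h⟩
    refine ⟨Subtype.val '' U, hH.isOpenMap_subtype_val U hU, ⟨_, hgU, rfl⟩, ?_⟩
    rintro _ ⟨x, hx, rfl⟩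
    rw [ext0_of_mem H x.2, ext0_of_mem H h]
    exact hUc x hx
  · have hcl : IsClosed (H : Set G) := OpenSubgroup.isClosed ⟨H, hH⟩
    refine ⟨(H : Set G)ᶜ, hcl.isOpen_compl, h, fun x hx => ?_⟩
    rw [ext0, ext0, dif_neg h, dif_neg (show x ∉ H from hx)]

/-- A representative of a coset. -/
noncomputable def tr (x : G ⧸ H) : G := x.out

theorem tr_mem (g : G) (x : G ⧸ H) : (tr H x)⁻¹ * g * tr H (g⁻¹ • x) ∈ H := by
  have h1 : (QuotientGroup.mk (g * tr H (g⁻¹ • x)) : G ⧸ H) = QuotientGroup.mk (tr H x) := by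
    have h2 : (QuotientGroup.mk (g * tr H (g⁻¹ • x)) : G ⧸ H) =
        g • (QuotientGroup.mk (tr H (g⁻¹ • x)) : G ⧸ H) := rfl
    rw [h2, tr, tr, QuotientGroup.out_eq', QuotientGroup.out_eq', smul_inv_smul]
  rw [mul_assoc]
  exact QuotientGroup.eq.1 h1.symm

/-- The components of the cochain. -/
noncomputable def bx (a : G × G → M) (c : G → M) (x : G ⧸ H) (g : G) (y : G ⧸ H) : M :=
  ρ (tr H x) (c ((tr H x)⁻¹ * g * tr H y)) - a (tr H x, (tr H x)⁻¹ * g * tr H y) + a (g, tr H y)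

theorem bx_rel {a : G × G → M}
    (ha : ∀ x y z : G, ρ x (a (y, z)) - a (x * y, z) + a (x, y * z) - a (x, y) = 0)
    {c : G → M} (hc : ∀ g ∈ H, ∀ h ∈ H, a (g, h) = ρ g (c h) - c (g * h) + c g) (g h : G)
    (x : G ⧸ H) : a (g, h) = ρ g (bx ρ H a c (g⁻¹ • x) h ((g * h)⁻¹ • x)) -
      bx ρ H a c x (g * h) ((g * h)⁻¹ • x) + bx ρ H a c x g (g⁻¹ • x) := by
  set y := g⁻¹ • x with hy
  set z := (g * h)⁻¹ • x with hz
  have hz' : z = h⁻¹ • y := by rw [hz, hy, mul_inv_rev, mul_smul]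
  set t := tr H x with ht
  set t' := tr H y with ht'
  set t'' := tr H z with ht''
  set u := t⁻¹ * g * t' with hu
  set v := t'⁻¹ * h * t'' with hv
  have huH : u ∈ H := tr_mem H g x
  have hvH : v ∈ H := by
    have := tr_mem H h y
    rw [← hz'] at this
    exact this
  have huv : t⁻¹ * (g * h) * t'' = u * v := by rw [hu, hv]; group
  have h1 : bx ρ H a c y h z = ρ t' (c v) - a (t', v) + a (h, t'') := rfl
  have h2 : bx ρ H a c x (g * h) z = ρ t (c (u * v)) - a (t, u * v) + a (g * h, t'') := by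
    rw [← huv]; rfl
  have h3 : bx ρ H a c x g y = ρ t (c u) - a (t, u) + a (g, t') := rfl
  have hgt : g * t' = t * u := by rw [hu]; group
  have hht : h * t'' = t' * v := by rw [hv]; group
  rw [h1, h2, h3]
  have e1 := hc u huH v hvH
  have e2 := congrArg (ρ t) e1
  have hm : ∀ (g h : G) (m : M), ρ g (ρ h m) = ρ (g * h) m := fun g h m => by
    rw [map_mul]; rfl
  rw [map_add, map_sub, hm] at e2
  -- cocycle relations
  have r1 := ha g h t''
  have r2 := ha g t' v
  have r3 := ha t u v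
  rw [hht] at r1
  rw [hgt] at r2
  rw [map_add, map_sub, hm, hgt]
  have e3 : ρ (t * u) (c v) = ρ t (a (u, v)) + ρ t (c (u * v)) - ρ t (c u) := by
    rw [e2]; abel
  rw [e3]
  have r1' : a (g, h) = ρ g (a (h, t'')) - a (g * h, t'') + a (g, t' * v) :=
    (sub_eq_zero.1 r1).symm
  have r2' : a (g, t' * v) = a (g, t') + a (t * u, v) - ρ g (a (t', v)) := by
    have := sub_eq_zero.1 r2
    rw [← this]; abel
  have r3' : a (t * u, v) = ρ t (a (u, v)) + a (t, u * v) - a (t, u) := by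
    have : ρ t (a (u, v)) - a (t * u, v) + a (t, u * v) - a (t, u) = 0 := r3
    have h5 : ρ t (a (u, v)) + a (t, u * v) - a (t, u) = a (t * u, v) := by
      have h6 : ρ t (a (u, v)) + a (t, u * v) - a (t, u) =
        (ρ t (a (u, v)) - a (t * u, v) + a (t, u * v) - a (t, u)) + a (t * u, v) := by abel
      rw [h6, this, zero_add]
    exact h5.symm
  rw [r1', r2', r3']
  abel

theorem cosets_locConst (hH : IsOpen (H : Set G)) (x : G ⧸ H) :
    IsLocallyConstant (fun g : G => g⁻¹ • x) := by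
  rw [IsLocallyConstant.iff_exists_open]
  intro g
  refine ⟨{g' | (tr H x)⁻¹ * g' * (g⁻¹ * tr H x) ∈ H}, ?_, ?_, ?_⟩
  · exact hH.preimage (f := fun g' : G => (tr H x)⁻¹ * g' * (g⁻¹ * tr H x)) (by fun_prop)
  · rw [Set.mem_ofPred_eq]
    have : (tr H x)⁻¹ * g * (g⁻¹ * tr H x) = 1 := by group
    rw [this]; exact H.one_mem
  · intro g' hg'
    rw [Set.mem_ofPred_eq] at hg'
    have h1 : ∀ g : G, g⁻¹ • x = (QuotientGroup.mk (g⁻¹ * tr H x) : G ⧸ H) := by
      intro g
      have : x = (QuotientGroup.mk (tr H x) : G ⧸ H) := (QuotientGroup.out_eq' x).symm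
      conv_lhs => rw [this]
      rfl
    change g'⁻¹ • x = g⁻¹ • x
    rw [h1, h1]
    refine QuotientGroup.eq.2 ?_
    have : (g'⁻¹ * tr H x)⁻¹ * (g⁻¹ * tr H x) = (tr H x)⁻¹ * g' * (g⁻¹ * tr H x) := by group
    rw [this]; exact hg'

theorem bx_locConst {a : G × G → M} (ha : IsLocallyConstant a) {c : G → M}
    (hc : IsLocallyConstant c) (x y : G ⧸ H) : IsLocallyConstant (fun g => bx ρ H a c x g y) := by
  have h1 : IsLocallyConstant (fun g : G => ρ (tr H x) (c ((tr H x)⁻¹ * g * tr H y))) :=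
    (hc.comp_continuous (f := fun g : G => (tr H x)⁻¹ * g * tr H y) (by fun_prop)).comp
      (ρ (tr H x))
  have h2 : IsLocallyConstant (fun g : G => a (tr H x, (tr H x)⁻¹ * g * tr H y)) :=
    ha.comp_continuous (f := fun g : G => (tr H x, (tr H x)⁻¹ * g * tr H y)) (by fun_prop)
  have h3 : IsLocallyConstant (fun g : G => a (g, tr H y)) :=
    ha.comp_continuous (f := fun g : G => (g, tr H y)) (by fun_prop)
  exact (h1.sub h2).add h3

theorem bx_locConst' {a : G × G → M} (ha : IsLocallyConstant a) {c : G → M}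
    (hc : IsLocallyConstant c) (hH : IsOpen (H : Set G)) (x : G ⧸ H) :
    IsLocallyConstant (fun g => bx ρ H a c x g (g⁻¹ • x)) := by
  rw [IsLocallyConstant.iff_exists_open]
  intro g
  obtain ⟨U, hU, hgU, hUc⟩ := (IsLocallyConstant.iff_exists_open _).1 (cosets_locConst H hH x) g
  obtain ⟨W, hW, hgW, hWc⟩ := (IsLocallyConstant.iff_exists_open _).1
    (bx_locConst ρ H ha hc x (g⁻¹ • x)) g
  refine ⟨U ∩ W, hU.inter hW, ⟨hgU, hgW⟩, fun g' hg' => ?_⟩
  have h1 : g'⁻¹ • x = g⁻¹ • x := hUc g' hg'.1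
  change bx ρ H a c x g' (g'⁻¹ • x) = bx ρ H a c x g (g⁻¹ • x)
  rw [h1]
  exact hWc g' hg'.2

theorem sum_locConst {ι : Type*} {X : Type*} [TopologicalSpace X] (s : Finset ι) (f : ι → X → M)
    (h : ∀ i ∈ s, IsLocallyConstant (f i)) : IsLocallyConstant (fun x => ∑ i ∈ s, f i x) := by
  classical
  induction s using Finset.induction_on with
  | empty => simp only [Finset.sum_empty]; exact IsLocallyConstant.const 0
  | insert i s hi ih =>
    simp only [Finset.sum_insert hi]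
    exact (h i (Finset.mem_insert_self i s)).add
      (ih fun j hj => h j (Finset.mem_insert_of_mem hj))

/-- A class whose restriction to an open subgroup of finite index vanishes is killed by the
index. -/
theorem index_nsmul (hH : IsOpen (H : Set G)) (hfin : H.index ≠ 0) (a : Z2 ρ) {c : H → M}
    (hc : IsLocallyConstant c)
    (hres : ∀ g h : H, (a : G × G → M) (g, h) = ρ g (c h) - c (g * h) + c g) :
    H.index • H2.mk ρ a = 0 := by
  classical
  let _ : Fintype (G ⧸ H) := Subgroup.fintypeOfIndexNeZero hfin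
  rw [← map_nsmul, H2.mk_eq_zero]
  refine ⟨fun g => ∑ x : G ⧸ H, bx ρ H a (ext0 H c) x g (g⁻¹ • x),
    sum_locConst _ _ fun x _ => bx_locConst' ρ H a.2.1 (ext0_locConst H hc hH) hH x, ?_⟩
  funext p
  obtain ⟨g, h⟩ := p
  have h1 : ((H.index • a : Z2 ρ) : G × G → M) (g, h) = ∑ _x : G ⧸ H, (a : G × G → M) (g, h) := by
    rw [Finset.sum_const, Finset.card_univ, ← Nat.card_eq_fintype_card]
    rfl
  have h2 : ∀ x : G ⧸ H, (a : G × G → M) (g, h) =
      ρ g (bx ρ H a (ext0 H c) (g⁻¹ • x) h ((g * h)⁻¹ • x)) -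
      bx ρ H a (ext0 H c) x (g * h) ((g * h)⁻¹ • x) + bx ρ H a (ext0 H c) x g (g⁻¹ • x) := by
    intro x
    refine bx_rel ρ H a.2.2 (fun u hu v hv => ?_) g h x
    rw [ext0_of_mem H hu, ext0_of_mem H hv, ext0_of_mem H (H.mul_mem hu hv)]
    exact hres ⟨u, hu⟩ ⟨v, hv⟩
  rw [h1, Finset.sum_congr rfl fun x _ => h2 x, Finset.sum_add_distrib, Finset.sum_sub_distrib,
    ← map_sum]
  have h3 : ∑ x : G ⧸ H, bx ρ H a (ext0 H c) (g⁻¹ • x) h ((g * h)⁻¹ • x) =
      ∑ x : G ⧸ H, bx ρ H a (ext0 H c) x h (h⁻¹ • x) := by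
    rw [← Equiv.sum_comp (MulAction.toPerm g⁻¹ : Equiv.Perm (G ⧸ H))
      (fun x => bx ρ H a (ext0 H c) x h (h⁻¹ • x))]
    refine Finset.sum_congr rfl fun x _ => ?_
    rw [MulAction.toPerm_apply, mul_inv_rev, mul_smul]
  rw [h3]
  rfl

end

end Run7.h34
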