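import Pool.Agent.Run7.h34.Core3
import Pool.Agent.Run7.h34.Cores

/-! The abstract vanishing theorem with descent along an open subgroup. -/

set_option linter.unusedSectionVars false

namespace Run7.h34

open Polynomial IsDedekindDomain

section

variable {G : Type*} [Group G] {k : Type*} [Field k] {E : Type*} [Field E]

/-- Restriction of the action to a subgroup. -/
noncomputable def Setup.restr (S : Setup G k E) (H : Subgroup G) : Setup H k E where
  c := S.c
  ρk := S.ρk.comp H.subtype
  ρ := S.ρ.comp H.subtype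
  hc g a := S.hc g a
  X := S.X
  hX g w hw := S.hX g w hw
  hX0 := S.hX0

variable [TopologicalSpace G] [IsTopologicalGroup G]

/-- **The abstract vanishing theorem** with descent. -/
theorem core' (S : Setup G k E) (H : Subgroup G) (hH : IsOpen (H : Set G)) (hfin : H.index ≠ 0)
    (x y : E) (hx : ∀ g ∈ H, S.ρ g x = x)
    (hy : ∀ g ∈ H, S.ρ g y = y) (h : Function.Injective (ev S.c x y)) (p n : ℕ) [ExpChar E p]
    (hpow : ∀ e : E, ∃ z, io2 S.c x y h z = e ^ p ^ n)
    (hs : ∀ w ∈ S.X, Function.Surjective w) (hgeo : Geo S x y (p ^ n))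
    {α : H2 S.act} (hα : α ∈ S.N) : (H.index * (p ^ n * p ^ n)) • α = 0 := by
  obtain ⟨a, ⟨c, hc, hc', hca⟩, rfl⟩ := hα
  let T := S.restr H
  have hloc : IsLocallyConstant (fun q : H × H => (a : G × G → S.M) (q.1, q.2)) :=
    a.2.1.comp_continuous (f := fun q : H × H => ((q.1 : G), (q.2 : G))) (by fun_prop)
  let b : Z2 T.act := ⟨fun q => (a : G × G → S.M) (q.1, q.2), hloc, fun x y z => a.2.2 x y z⟩
  have hb : H2.mk T.act b ∈ T.N := by
    refine ⟨b, ⟨fun g => c g, hc.comp_continuous continuous_subtype_val, fun g => hc' g,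
      fun q => hca (q.1, q.2)⟩, rfl⟩
  have h1 := core T x y (fun g => hx g g.2) (fun g => hy g g.2) h p n hpow hs hgeo hb
  rw [← map_nsmul, H2.mk_eq_zero] at h1
  obtain ⟨d, hd, hdb⟩ := h1
  rw [mul_smul, ← map_nsmul]
  refine index_nsmul S.act H hH hfin ((p ^ n * p ^ n) • a) hd fun g g' => ?_
  have h2 := congrFun hdb (g, g')
  exact h2

end

end Run7.h34
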