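import Mathlib

/-! Functoriality of function fields. -/

set_option linter.unusedSectionVars false

namespace Run7.h34

open AlgebraicGeometry CategoryTheory Limits TopologicalSpace

universe u

section

variable {X Y Z : Scheme.{u}} [IsIntegral X] [IsIntegral Y] [IsIntegral Z]

theorem dom_generic (g : X ⟶ Y) [IsDominant g] : g (genericPoint X) = genericPoint Y := by
  have h := (genericPoint_spec X).image g.continuous
  rw [Set.image_univ, g.denseRange.closure_range] at h
  exact h.eq (genericPoint_spec Y)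

/-- The homomorphism of function fields induced by a dominant morphism. -/
noncomputable def ffMap (g : X ⟶ Y) [IsDominant g] : Y.functionField →+* X.functionField :=
  (Y.presheaf.stalkSpecializes (specializes_of_eq (dom_generic g)) ≫
    g.stalkMap (genericPoint X)).hom

theorem ffMap_germ (g : X ⟶ Y) [IsDominant g] (U : Y.Opens) (hU : genericPoint Y ∈ U)
    (s : Γ(Y, U)) (hU' : genericPoint X ∈ g ⁻¹ᵁ U) :
    ffMap g (Y.presheaf.germ U (genericPoint Y) hU s) =
      X.presheaf.germ (g ⁻¹ᵁ U) (genericPoint X) hU' (g.app U s) := by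
  have h1 : Y.presheaf.germ U (genericPoint Y) hU ≫
      Y.presheaf.stalkSpecializes (specializes_of_eq (dom_generic g)) ≫
        g.stalkMap (genericPoint X) = g.app U ≫ X.presheaf.germ (g ⁻¹ᵁ U) (genericPoint X) hU' := by
    rw [TopCat.Presheaf.germ_stalkSpecializes_assoc, Scheme.Hom.germ_stalkMap]
  exact ConcreteCategory.congr_hom h1 s

theorem mem_preimage_generic (g : X ⟶ Y) [IsDominant g] {U : Y.Opens} (hU : genericPoint Y ∈ U) :
    genericPoint X ∈ g ⁻¹ᵁ U := by
  change g (genericPoint X) ∈ U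
  rw [dom_generic]; exact hU

theorem ffMap_comp_apply (g : X ⟶ Y) (h : Y ⟶ Z) [IsDominant g] [IsDominant h]
    [IsDominant (g ≫ h)] (e : Z.functionField) : ffMap (g ≫ h) e = ffMap g (ffMap h e) := by
  obtain ⟨U, hU, s, rfl⟩ := Z.presheaf.exists_germ_eq e
  rw [ffMap_germ (g ≫ h) U hU s (mem_preimage_generic _ hU),
    ffMap_germ h U hU s (mem_preimage_generic _ hU),
    ffMap_germ g _ _ _ (mem_preimage_generic g (mem_preimage_generic h hU))]
  rw [Scheme.Hom.comp_app]
  rfl

theorem ffMap_id_apply [IsDominant (𝟙 X)] (e : X.functionField) : ffMap (𝟙 X) e = e := by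
  obtain ⟨U, hU, s, rfl⟩ := X.presheaf.exists_germ_eq e
  rw [ffMap_germ (𝟙 X) U hU s (mem_preimage_generic _ hU)]
  rfl

theorem ffMap_congr {g h : X ⟶ Y} [IsDominant g] [IsDominant h] (e : g = h) :
    ffMap g = ffMap h := by
  subst e; rfl

/-- Compatibility with local rings. -/
theorem ffMap_stalk (g : X ⟶ Y) [IsDominant g] (x : X) (a : Y.presheaf.stalk (g x)) :
    ffMap g (algebraMap (Y.presheaf.stalk (g x)) Y.functionField a) =
      algebraMap (X.presheaf.stalk x) X.functionField (g.stalkMap x a) := by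
  obtain ⟨U, hU, s, rfl⟩ := Y.presheaf.exists_germ_eq a
  have hne : Nonempty U := ⟨⟨_, hU⟩⟩
  have hg : genericPoint Y ∈ U :=
    ((genericPoint_spec Y).mem_open_set_iff U.isOpen).mpr (by simpa using hne)
  have hne' : Nonempty (g ⁻¹ᵁ U : X.Opens) := ⟨⟨x, hU⟩⟩
  have h3 := Scheme.algebraMap_germ_eq_germToFunctionField (X := X) (U := g ⁻¹ᵁ U) (x := x) hU
    (g.app U s)
  rw [Scheme.Hom.germ_stalkMap_apply, Scheme.algebraMap_germ_eq_germToFunctionField]
  exact (ffMap_germ g U hg s (mem_preimage_generic g hg)).trans h3.symm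

/-- The constants in the function field of a scheme over the spectrum of a ring. -/
noncomputable def cF {R : Type u} [CommRing R] (g : X ⟶ Spec (CommRingCat.of R)) :
    R →+* X.functionField :=
  ((Scheme.ΓSpecIso (CommRingCat.of R)).inv ≫ g.appTop ≫
    X.presheaf.germ ⊤ (genericPoint X) trivial).hom

theorem cF_comp {R S : Type u} [CommRing R] [CommRing S] (h : X ⟶ Y) [IsDominant h]
    (g : X ⟶ Spec (CommRingCat.of S)) (g' : Y ⟶ Spec (CommRingCat.of R)) (φ : R →+* S)
    (hg : h ≫ g' = g ≫ Spec.map (CommRingCat.ofHom φ)) (a : R) :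
    ffMap h (cF g' a) = cF g (φ a) := by
  have h1 : ffMap h (Y.presheaf.germ ⊤ (genericPoint Y) trivial
      (g'.appTop ((Scheme.ΓSpecIso (CommRingCat.of R)).inv a))) =
      X.presheaf.germ ⊤ (genericPoint X) trivial
        ((h ≫ g').appTop ((Scheme.ΓSpecIso (CommRingCat.of R)).inv a)) := by
    rw [ffMap_germ h ⊤ trivial _ trivial]
    rfl
  change ffMap h (Y.presheaf.germ ⊤ (genericPoint Y) trivial
      (g'.appTop ((Scheme.ΓSpecIso (CommRingCat.of R)).inv a))) = _
  rw [h1]
  change _ = X.presheaf.germ ⊤ (genericPoint X) trivial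
    (g.appTop ((Scheme.ΓSpecIso (CommRingCat.of S)).inv (φ a)))
  congr 1
  have h2 : (Scheme.ΓSpecIso (CommRingCat.of R)).inv ≫ (h ≫ g').appTop =
      CommRingCat.ofHom φ ≫ (Scheme.ΓSpecIso (CommRingCat.of S)).inv ≫ g.appTop := by
    rw [hg, Scheme.Hom.comp_appTop, ← Category.assoc, ← Category.assoc,
      Scheme.ΓSpecIso_inv_naturality]
  exact ConcreteCategory.congr_hom h2 a

end

end Run7.h34
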