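import Pool.Agent.Run7.h34.Center
import Pool.Agent.Run7.h34.Core4

/-! The points of codimension one above the points of the plane. -/

set_option linter.unusedSectionVars false

namespace Run7.h34

open AlgebraicGeometry CategoryTheory Limits TopologicalSpace IsLocalRing
open scoped WithZero

universe u

section

/-- The valuation ring of a surjective discrete valuation is a discrete valuation ring. -/
theorem dvr_of_surj {E : Type u} [Field E] (w : Val E) (hw : Function.Surjective w) :
    ringKrullDim w.valuationSubring = 1 := by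
  have hcyc : IsCyclic (ℤᵐ⁰)ˣ :=
    isCyclic_of_surjective (WithZero.unitsWithZeroEquiv (α := Multiplicative ℤ)).symm
      (WithZero.unitsWithZeroEquiv (α := Multiplicative ℤ)).symm.surjective
  have hnt : w.IsNontrivial := by
    obtain ⟨e, he⟩ := hw (WithZero.exp (1 : ℤ))
    refine ⟨⟨e, ?_, ?_⟩⟩
    · rw [he]; exact WithZero.exp_ne_zero
    · rw [he]
      intro h
      have := WithZero.exp_injective (h.trans WithZero.exp_zero.symm)
      omega
  have hdvr : IsDiscreteValuationRing w.valuationSubring := inferInstance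
  exact IsDiscreteValuationRing.ringKrullDim_eq_one _

theorem isUnit_of_val_one {E : Type u} [Field E] (w : Val E) (a : w.valuationSubring)
    (ha : w (a : E) = 1) : IsUnit a := by
  have h0 : (a : E) ≠ 0 := by
    intro h
    rw [h, map_zero] at ha
    exact zero_ne_one ha
  have h1 : (a : E)⁻¹ ∈ w.valuationSubring := by
    rw [Valuation.mem_valuationSubring_iff, map_inv₀, ha, inv_one]
  exact isUnit_iff_exists_inv.2 ⟨⟨(a : E)⁻¹, h1⟩, Subtype.ext (mul_inv_cancel₀ h0)⟩

variable {X : Scheme.{u}} [IsIntegral X]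

theorem mem_divs (hn : ∀ x : X, IsIntegrallyClosed (X.presheaf.stalk x)) {w : Val X.functionField}
    (hw : Function.Surjective w) (U : X.Opens) (hU : genericPoint X ∈ U)
    {T : Scheme.{u}} [IsAffine T] (π : U.toScheme ⟶ T) [UniversallyClosed π] {q : ℕ} (hq : q ≠ 0)
    (h1 : ∀ a, w (pullFn U hU π a) ≤ 1)
    (h2 : ∀ e, w e ≤ 1 → ∃ a b, w (pullFn U hU π b) = 1 ∧
      e ^ q * pullFn U hU π b = pullFn U hU π a) : w ∈ divs X := by
  obtain ⟨P, hP, s, hs, hsa⟩ := center w U hU π h1
  have hr : ∀ a, ∃ b : X.presheaf.stalk P, algebraMap _ X.functionField b = pullFn U hU π a := by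
    intro a
    have hne : Nonempty U := ⟨⟨_, hP⟩⟩
    refine ⟨X.presheaf.germ U P hP (U.topIso.hom (π.appTop a)), ?_⟩
    rw [Scheme.algebraMap_germ_eq_germToFunctionField]
    rfl
  have hle : ∀ a : X.presheaf.stalk P, w (algebraMap _ X.functionField a) ≤ 1 := by
    intro a
    rw [← hsa]
    exact (s a).2
  have key : ∀ e, w e ≤ 1 ↔ e ∈ (algebraMap (X.presheaf.stalk P) X.functionField).range := by
    intro e
    refine ⟨fun he => ?_, ?_⟩
    · obtain ⟨a, b, hb, hab⟩ := h2 e he
      obtain ⟨a', ha'⟩ := hr a
      obtain ⟨b', hb'⟩ := hr b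
      have hunit : IsUnit (s b') := by
        refine isUnit_of_val_one w _ ?_
        rw [hsa, hb', hb]
      have hb2 : IsUnit b' := hs.map_nonunit b' hunit
      obtain ⟨u, rfl⟩ := hb2
      have := hn P
      refine IsIntegrallyClosed.exists_algebraMap_eq_of_isIntegral_pow
        (R := X.presheaf.stalk P) (K := X.functionField) (n := q) (Nat.pos_of_ne_zero hq) ?_
      have h3 : e ^ q = algebraMap (X.presheaf.stalk P) X.functionField
          (a' * ((u⁻¹ : (X.presheaf.stalk P)ˣ) : X.presheaf.stalk P)) := by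
        rw [map_mul, ha', ← hab, ← hb', mul_assoc, ← map_mul, Units.mul_inv, map_one, mul_one]
      rw [h3]
      exact isIntegral_algebraMap
    · rintro ⟨a, rfl⟩
      exact hle a
  refine ⟨hw, P, ?_, key⟩
  have e1 : X.presheaf.stalk P ≃+* w.valuationSubring := by
    refine RingEquiv.ofBijective s ⟨?_, ?_⟩
    · intro a b hab
      have : (s a : X.functionField) = s b := by rw [hab]
      rw [hsa, hsa] at this
      exact (FaithfulSMul.algebraMap_injective _ _) this
    · intro e
      obtain ⟨a, ha⟩ := (key e).1 e.2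
      exact ⟨a, Subtype.ext ((hsa a).trans ha)⟩
  rw [ringKrullDim_eq_of_ringEquiv e1]
  exact dvr_of_surj w hw

end

end Run7.h34
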