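import Mathlib

/-! `K₂` of a field by Matsumoto's presentation, and its functoriality. -/

namespace Run7.h34

open scoped TensorProduct

universe u v

/-- The Steinberg relations in `Eˣ ⊗ Eˣ`. -/
def steinberg (E : Type u) [Field E] : AddSubgroup (Additive Eˣ ⊗[ℤ] Additive Eˣ) :=
  AddSubgroup.closure {t | ∃ a b : Eˣ, (a : E) + (b : E) = 1 ∧
    t = Additive.ofMul a ⊗ₜ[ℤ] Additive.ofMul b}

/-- `K₂ E = Eˣ ⊗ Eˣ` modulo the Steinberg relations `a ⊗ (1 - a)`. -/
def K2 (E : Type u) [Field E] : Type u := (Additive Eˣ ⊗[ℤ] Additive Eˣ) ⧸ steinberg E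

noncomputable instance (E : Type u) [Field E] : AddCommGroup (K2 E) :=
  QuotientAddGroup.Quotient.addCommGroup (steinberg E)

/-- The quotient map onto `K₂ E`. -/
noncomputable def K2.mk (E : Type u) [Field E] : (Additive Eˣ ⊗[ℤ] Additive Eˣ) →+ K2 E :=
  QuotientAddGroup.mk' (steinberg E)

section

variable {E : Type u} [Field E]

theorem K2.mk_surjective : Function.Surjective (K2.mk E) :=
  QuotientAddGroup.mk'_surjective (steinberg E)

theorem K2.ker_mk : (K2.mk E).ker = steinberg E := QuotientAddGroup.ker_mk' (steinberg E)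

/-- The symbol `{a, b}`. -/
noncomputable def sy (a b : Eˣ) : K2 E :=
  K2.mk E (Additive.ofMul a ⊗ₜ[ℤ] Additive.ofMul b)

theorem sy_mul_left (a a' b : Eˣ) : sy (a * a') b = sy a b + sy a' b := by
  rw [sy, sy, sy, ← map_add, ofMul_mul, TensorProduct.add_tmul]

theorem sy_mul_right (a b b' : Eˣ) : sy a (b * b') = sy a b + sy a b' := by
  rw [sy, sy, sy, ← map_add, ofMul_mul, TensorProduct.tmul_add]

theorem sy_steinberg {a b : Eˣ} (h : (a : E) + (b : E) = 1) : sy a b = 0 := by
  rw [sy, ← AddMonoidHom.mem_ker, K2.ker_mk]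
  exact AddSubgroup.subset_closure ⟨a, b, h, rfl⟩

/-- The symbol as a homomorphism in the first variable. -/
noncomputable def syL (b : Eˣ) : Eˣ →* Multiplicative (K2 E) where
  toFun a := Multiplicative.ofAdd (sy a b)
  map_one' := by
    have h := sy_mul_left (1 : Eˣ) 1 b
    rw [mul_one] at h
    have h' : sy (1 : Eˣ) b = 0 := by simpa using h
    rw [h']; rfl
  map_mul' a a' := by rw [sy_mul_left]; rfl

/-- The symbol as a homomorphism in the second variable. -/
noncomputable def syR (a : Eˣ) : Eˣ →* Multiplicative (K2 E) where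
  toFun b := Multiplicative.ofAdd (sy a b)
  map_one' := by
    have h := sy_mul_right a (1 : Eˣ) 1
    rw [mul_one] at h
    have h' : sy a (1 : Eˣ) = 0 := by simpa using h
    rw [h']; rfl
  map_mul' b b' := by rw [sy_mul_right]; rfl

@[simp] theorem sy_one_left (b : Eˣ) : sy (1 : Eˣ) b = 0 := map_one (syL b)

@[simp] theorem sy_one_right (a : Eˣ) : sy a (1 : Eˣ) = 0 := map_one (syR a)

@[simp] theorem sy_inv_left (a b : Eˣ) : sy a⁻¹ b = - sy a b := map_inv (syL b) a

@[simp] theorem sy_inv_right (a b : Eˣ) : sy a b⁻¹ = - sy a b := map_inv (syR a) b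

theorem sy_div_left (a a' b : Eˣ) : sy (a / a') b = sy a b - sy a' b := map_div (syL b) a a'

theorem sy_div_right (a b b' : Eˣ) : sy a (b / b') = sy a b - sy a b' := map_div (syR a) b b'

theorem sy_pow_left (a b : Eˣ) (n : ℕ) : sy (a ^ n) b = n • sy a b := map_pow (syL b) a n

theorem sy_pow_right (a b : Eˣ) (n : ℕ) : sy a (b ^ n) = n • sy a b := map_pow (syR a) b n

theorem sy_zpow_left (a b : Eˣ) (n : ℤ) : sy (a ^ n) b = n • sy a b := map_zpow (syL b) a n

theorem sy_zpow_right (a b : Eˣ) (n : ℤ) : sy a (b ^ n) = n • sy a b := map_zpow (syR a) b n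

theorem sy_self_neg (a : Eˣ) : sy a (-a) = 0 := by
  by_cases h1 : (a : E) = 1
  · have : a = 1 := Units.ext h1
    rw [this, sy_one_left]
  · have h2 : (1 : E) - a ≠ 0 := sub_ne_zero.mpr (Ne.symm h1)
    have h3 : (1 : E) - ((a⁻¹ : Eˣ) : E) ≠ 0 := by
      rw [Units.val_inv_eq_inv_val]
      intro h
      apply h1
      have : (a : E)⁻¹ = 1 := (sub_eq_zero.mp h).symm
      exact inv_eq_one.mp this
    have key : -a = Units.mk0 _ h2 / Units.mk0 _ h3 := by
      rw [eq_div_iff_mul_eq']
      ext
      simp only [Units.val_mul, Units.val_mk0, Units.val_neg, Units.val_inv_eq_inv_val]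
      field_simp
      ring
    rw [key, sy_div_right, sy_steinberg (by simp), zero_sub, neg_eq_zero]
    have h4 : sy a⁻¹ (Units.mk0 _ h3) = 0 := sy_steinberg (by simp)
    rwa [sy_inv_left, neg_eq_zero] at h4

theorem sy_self (a : Eˣ) : sy a a = sy a (-1) := by
  have h2 : a = -a * -1 := by simp
  have h3 : sy a a = sy a (-a * -1) := congrArg (sy a) h2
  rw [h3, sy_mul_right, sy_self_neg, zero_add]

theorem sy_swap (a b : Eˣ) : sy a b = - sy b a := by
  have h := sy_self_neg (a * b)
  have h1 : -(a * b) = (-a) * b := by simp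
  have h2 : -(a * b) = (-b) * a := by rw [neg_mul, mul_comm]
  rw [sy_mul_left] at h
  nth_rewrite 1 [h1] at h
  rw [h2, sy_mul_right, sy_mul_right, sy_self_neg, sy_self_neg, zero_add, zero_add] at h
  exact eq_neg_of_add_eq_zero_left h

theorem K2.induction {p : K2 E → Prop} (h0 : p 0) (hs : ∀ a b, p (sy a b))
    (ha : ∀ x y, p x → p y → p (x + y)) (x : K2 E) : p x := by
  obtain ⟨y, rfl⟩ := K2.mk_surjective x
  induction y using TensorProduct.induction_on with
  | zero => rw [map_zero]; exact h0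
  | tmul a b => exact hs a.toMul b.toMul
  | add x y hx hy => rw [map_add]; exact ha _ _ hx hy

/-- A homomorphism out of `K₂`. -/
noncomputable def K2.lift {A : Type v} [AddCommGroup A] (f : Eˣ → Eˣ → A)
    (h1 : ∀ a a' b, f (a * a') b = f a b + f a' b)
    (h2 : ∀ a b b', f a (b * b') = f a b + f a b')
    (h3 : ∀ a b : Eˣ, (a : E) + (b : E) = 1 → f a b = 0) : K2 E →+ A :=
  QuotientAddGroup.lift (steinberg E)
    (TensorProduct.liftAddHom
      (AddMonoidHom.mk' (fun a : Additive Eˣ =>
        AddMonoidHom.mk' (fun b : Additive Eˣ => f a.toMul b.toMul)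
          (fun b b' => h2 a.toMul b.toMul b'.toMul))
        (fun a a' => AddMonoidHom.ext fun b => h1 a.toMul a'.toMul b.toMul))
      (fun n a b => by
        rw [map_zsmul, map_zsmul]
        rfl))
    (by
      rw [steinberg, AddSubgroup.closure_le]
      rintro t ⟨a, b, hab, rfl⟩
      exact h3 a b hab)

@[simp] theorem K2.lift_sy {A : Type v} [AddCommGroup A] (f : Eˣ → Eˣ → A) (h1 h2 h3)
    (a b : Eˣ) : K2.lift f h1 h2 h3 (sy a b) = f a b := rfl

theorem K2.hom_ext {A : Type v} [AddCommGroup A] {f g : K2 E →+ A}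
    (h : ∀ a b, f (sy a b) = g (sy a b)) : f = g := by
  ext x
  induction x using K2.induction with
  | h0 => rw [map_zero, map_zero]
  | hs a b => exact h a b
  | ha x y hx hy => rw [map_add, map_add, hx, hy]

variable {F : Type v} [Field F]

/-- Functoriality of `K₂`. -/
noncomputable def K2.map (f : E →+* F) : K2 E →+ K2 F :=
  K2.lift (fun a b => sy (Units.map f.toMonoidHom a) (Units.map f.toMonoidHom b))
    (fun a a' b => by rw [map_mul, sy_mul_left])
    (fun a b b' => by rw [map_mul, sy_mul_right])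
    (fun a b h => sy_steinberg (by
      have := congrArg f h
      simpa using this))

@[simp] theorem K2.map_sy (f : E →+* F) (a b : Eˣ) :
    K2.map f (sy a b) = sy (Units.map f.toMonoidHom a) (Units.map f.toMonoidHom b) := rfl

theorem K2.map_id : K2.map (RingHom.id E) = AddMonoidHom.id _ :=
  K2.hom_ext fun a b => by
    rw [K2.map_sy]
    rfl

theorem K2.map_comp {L : Type*} [Field L] (g : F →+* L) (f : E →+* F) :
    K2.map (g.comp f) = (K2.map g).comp (K2.map f) :=
  K2.hom_ext fun _ _ => rfl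

theorem K2.map_map {L : Type*} [Field L] (g : F →+* L) (f : E →+* F) (x : K2 E) :
    K2.map g (K2.map f x) = K2.map (g.comp f) x := by
  rw [K2.map_comp]; rfl

end

end Run7.h34
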