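import Pool.Agent.Run7.h34.Vals

/-! The leading coefficient and the induced retraction `K₂ F(X) → K₂ F`. -/

namespace Run7.h34

open Polynomial

universe u v

section

variable {F : Type u} [Field F] {K : Type v} [Field K] [Algebra F[X] K] [IsFractionRing F[X] K]

open Classical in
/-- The leading coefficient of a polynomial as a unit (`1` for the zero polynomial). -/
noncomputable def lcu (f : F[X]) : Fˣ :=
  if h : f = 0 then 1 else Units.mk0 f.leadingCoeff (leadingCoeff_ne_zero.2 h)

theorem lcu_coe {f : F[X]} (hf : f ≠ 0) : ((lcu f : Fˣ) : F) = f.leadingCoeff := by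
  rw [lcu, dif_neg hf]; rfl

theorem lcu_mul {f g : F[X]} (hf : f ≠ 0) (hg : g ≠ 0) : lcu (f * g) = lcu f * lcu g := by
  ext
  rw [Units.val_mul, lcu_coe hf, lcu_coe hg, lcu_coe (mul_ne_zero hf hg), leadingCoeff_mul]

variable (F) in
theorem exists_rep (a : Kˣ) : ∃ f g : F[X], f ≠ 0 ∧ g ≠ 0 ∧ a = pe K f / pe K g := by
  obtain ⟨f, g, hg, hfg⟩ := IsFractionRing.div_surjective (A := F[X]) (a : K)
  have hg0 : g ≠ 0 := nonZeroDivisors.ne_zero hg
  have hf0 : f ≠ 0 := by
    rintro rfl
    rw [map_zero, zero_div] at hfg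
    exact a.ne_zero hfg.symm
  refine ⟨f, g, hf0, hg0, ?_⟩
  ext
  rw [Units.val_div_eq_div_val, pe_coe K hf0, pe_coe K hg0, hfg]

variable (F) in
theorem exists_rep' (a : Kˣ) : ∃ p : F[X] × F[X], p.1 ≠ 0 ∧ p.2 ≠ 0 ∧
    a = pe K p.1 / pe K p.2 := by
  obtain ⟨f, g, h⟩ := exists_rep F a
  exact ⟨(f, g), h⟩

variable (F) in
/-- The leading coefficient of a rational function. -/
noncomputable def lcf (a : Kˣ) : Fˣ :=
  lcu (exists_rep' F a).choose.1 / lcu (exists_rep' F a).choose.2

theorem pe_inj {f g : F[X]} (hf : f ≠ 0) (hg : g ≠ 0) (h : pe K f = pe K g) : f = g := by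
  have := congrArg Units.val h
  rw [pe_coe K hf, pe_coe K hg] at this
  exact IsFractionRing.injective F[X] K this

theorem lcf_eq {a : Kˣ} {f g : F[X]} (hf : f ≠ 0) (hg : g ≠ 0) (h : a = pe K f / pe K g) :
    lcf F a = lcu f / lcu g := by
  obtain ⟨hf0, hg0, h2⟩ := (exists_rep' F a).choose_spec
  rw [lcf, div_eq_div_iff_mul_eq_mul, ← lcu_mul hf0 hg, ← lcu_mul hf hg0]
  congr 1
  refine pe_inj (K := K) (mul_ne_zero hf0 hg) (mul_ne_zero hf hg0) ?_
  rw [pe_mul K hf0 hg, pe_mul K hf hg0, ← div_eq_div_iff_mul_eq_mul, ← h, ← h2]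

theorem lcf_mul (a b : Kˣ) : lcf F (a * b) = lcf F a * lcf F b := by
  obtain ⟨f, g, hf, hg, h⟩ := exists_rep F a
  obtain ⟨f', g', hf', hg', h'⟩ := exists_rep F b
  rw [lcf_eq hf hg h, lcf_eq hf' hg' h', lcf_eq (mul_ne_zero hf hf') (mul_ne_zero hg hg') (by
    rw [h, h', pe_mul K hf hf', pe_mul K hg hg', div_mul_div_comm]), lcu_mul hf hf',
    lcu_mul hg hg', div_mul_div_comm]

theorem lcf_pe {f : F[X]} (hf : f ≠ 0) : lcf F (pe K f) = lcu f := by
  have h1 : lcu (1 : F[X]) = 1 := by
    ext; rw [lcu_coe one_ne_zero, leadingCoeff_one]; rfl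
  rw [lcf_eq hf one_ne_zero (by rw [pe_one, div_one]), h1, div_one]

theorem lcf_steinberg {a b : Kˣ} (h : (a : K) + (b : K) = 1) :
    sy (lcf F a) (lcf F b) = 0 := by
  obtain ⟨f, g, hf, hg, rfl⟩ := exists_rep F a
  obtain ⟨f', g', hf', hg', rfl⟩ := exists_rep F b
  -- common denominator
  set A := f * g' with hA
  set B := f' * g with hB
  set D := g * g' with hD
  have hA0 : A ≠ 0 := mul_ne_zero hf hg'
  have hB0 : B ≠ 0 := mul_ne_zero hf' hg
  have hD0 : D ≠ 0 := mul_ne_zero hg hg'
  have ha : pe K f / pe K g = pe K A / pe K D := by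
    rw [hA, hD, pe_mul K hf hg', pe_mul K hg hg', mul_div_mul_right_eq_div]
  have hb : pe K f' / pe K g' = pe K B / pe K D := by
    rw [hB, hD, mul_comm g g', pe_mul K hf' hg, pe_mul K hg' hg, mul_div_mul_right_eq_div]
  rw [ha, hb] at h ⊢
  rw [lcf_eq hA0 hD0 rfl, lcf_eq hB0 hD0 rfl]
  have hAB : A + B = D := by
    apply IsFractionRing.injective F[X] K
    have hne := algebraMap_ne K hD0
    rw [Units.val_div_eq_div_val, Units.val_div_eq_div_val, pe_coe K hA0, pe_coe K hB0,
      pe_coe K hD0, ← add_div, div_eq_one_iff_eq hne] at h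
    rw [map_add, h]
  rcases lt_trichotomy A.natDegree D.natDegree with h1 | h1 | h1
  · have h2 : B.leadingCoeff = D.leadingCoeff := by
      rw [← hAB]
      have : A.natDegree < B.natDegree := by
        by_contra hcon
        push Not at hcon
        have := natDegree_add_le A B
        rw [hAB, max_eq_left hcon] at this
        omega
      rw [leadingCoeff_add_of_degree_lt (degree_lt_degree this)]
    have h3 : lcu B = lcu D := by ext; rw [lcu_coe hB0, lcu_coe hD0, h2]
    rw [h3, div_self', sy_one_right]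
  · rcases lt_or_ge B.natDegree D.natDegree with h2 | h2
    · have h3 : A.leadingCoeff = D.leadingCoeff := by
        rw [← hAB]
        rw [leadingCoeff_add_of_degree_lt' (degree_lt_degree (by omega))]
      have h4 : lcu A = lcu D := by ext; rw [lcu_coe hA0, lcu_coe hD0, h3]
      rw [h4, div_self', sy_one_left]
    · have h3 : B.natDegree = D.natDegree := by
        refine le_antisymm ?_ h2
        have h4 : B = D - A := by rw [← hAB]; ring
        rw [h4]
        exact (natDegree_sub_le _ _).trans (by rw [h1, max_self])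
      refine sy_steinberg ?_
      rw [Units.val_div_eq_div_val, Units.val_div_eq_div_val, lcu_coe hA0, lcu_coe hB0,
        lcu_coe hD0, ← add_div, div_eq_one_iff_eq (leadingCoeff_ne_zero.2 hD0)]
      rw [leadingCoeff, leadingCoeff, leadingCoeff, h1, h3, ← coeff_add, hAB]
  · have h2 : B.leadingCoeff = -A.leadingCoeff := by
      have h3 : B = D + (-A) := by rw [← hAB]; ring
      rw [h3, leadingCoeff_add_of_degree_lt (by rw [degree_neg]; exact degree_lt_degree h1),
        leadingCoeff_neg]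
    have h3 : lcu B = -lcu A := by ext; rw [Units.val_neg, lcu_coe hB0, lcu_coe hA0, h2]
    have h4 : -lcu A / lcu D = -(lcu A / lcu D) := by rw [neg_div']
    rw [h3, h4, sy_self_neg]

variable (F K) in
/-- The retraction `K₂ F(X) → K₂ F` given by leading coefficients. -/
noncomputable def sLC : K2 K →+ K2 F :=
  K2.lift (fun a b => sy (lcf F a) (lcf F b))
    (fun a a' b => by rw [lcf_mul, sy_mul_left])
    (fun a b b' => by rw [lcf_mul, sy_mul_right])
    (fun a b h => lcf_steinberg h)

theorem sLC_sy (a b : Kˣ) : sLC F K (sy a b) = sy (lcf F a) (lcf F b) := rfl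

variable {F' : Type*} [Field F'] {K' : Type*} [Field K'] [Algebra F'[X] K']
  [IsFractionRing F'[X] K']

/-- Compatibility of leading coefficients with changes of the base field. -/
theorem lcf_map (σ : F →+* F') (τ : K →+* K')
    (h : ∀ f : F[X], τ (algebraMap F[X] K f) = algebraMap F'[X] K' (f.map σ)) (a : Kˣ) :
    lcf F' (Units.map τ.toMonoidHom a) = Units.map σ.toMonoidHom (lcf F a) := by
  obtain ⟨f, g, hf, hg, rfl⟩ := exists_rep F a
  have hm : ∀ f : F[X], f ≠ 0 → f.map σ ≠ 0 := fun f hf => by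
    rwa [Ne, Polynomial.map_eq_zero]
  have h1 : ∀ f : F[X], f ≠ 0 → Units.map τ.toMonoidHom (pe K f) = pe K' (f.map σ) := by
    intro f hf
    ext
    rw [pe_coe K' (hm f hf), ← h]
    change τ ((pe K f : Kˣ) : K) = _
    rw [pe_coe K hf]
  have h2 : ∀ f : F[X], f ≠ 0 → lcu (f.map σ) = Units.map σ.toMonoidHom (lcu f) := by
    intro f hf
    ext
    rw [lcu_coe (hm f hf), leadingCoeff_map]
    change _ = σ ((lcu f : Fˣ) : F)
    rw [lcu_coe hf]
  rw [_root_.map_div, h1 f hf, h1 g hg, lcf_eq (hm f hf) (hm g hg) rfl, lcf_eq hf hg rfl,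
    _root_.map_div, h2 f hf, h2 g hg]

theorem sLC_map (σ : F →+* F') (τ : K →+* K')
    (h : ∀ f : F[X], τ (algebraMap F[X] K f) = algebraMap F'[X] K' (f.map σ)) (x : K2 K) :
    sLC F' K' (K2.map τ x) = K2.map σ (sLC F K x) := by
  induction x using K2.induction with
  | h0 => simp only [map_zero]
  | hs a b =>
    rw [K2.map_sy, sLC_sy, sLC_sy, K2.map_sy, lcf_map σ τ h, lcf_map σ τ h]
  | ha x y hx hy => simp only [map_add, hx, hy]

theorem sLC_cst (x : K2 F) : sLC F K (K2.map (cst F K) x) = x := by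
  induction x using K2.induction with
  | h0 => simp only [map_zero]
  | hs a b =>
    have key : ∀ a : Fˣ, lcf F (Units.map (cst F K).toMonoidHom a) = a := by
      intro a
      have h1 : Units.map (cst F K).toMonoidHom a = pe K (C (a : F)) := by
        ext
        rw [pe_coe K (C_ne_zero.2 a.ne_zero)]
        rfl
      rw [h1, lcf_pe (C_ne_zero.2 a.ne_zero)]
      ext
      rw [lcu_coe (C_ne_zero.2 a.ne_zero), leadingCoeff_C]
    rw [K2.map_sy, sLC_sy, key, key]
  | ha x y hx hy => simp only [map_add, hx, hy]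

end

end Run7.h34
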