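import Pool.Agent.Run7.h34.LC

/-! Classes over `F(X)` whose residues at all irreducible polynomials are trivial come from `F`. -/

set_option linter.unusedSectionVars false

namespace Run7.h34

open Polynomial

universe u v w

section hmap

variable {G : Type*} [Group G] [TopologicalSpace G] {M : Type*} [AddCommGroup M]
  {ρ : G →* AddMonoid.End M} {M' : Type*} [AddCommGroup M'] {ρ' : G →* AddMonoid.End M'}
  {M'' : Type*} [AddCommGroup M''] {ρ'' : G →* AddMonoid.End M''}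

/-- Functoriality of `H²` in the coefficients. -/
noncomputable def H2.mapM (f : M →+ M') (hf : ∀ (g : G) (m : M), f (ρ g m) = ρ' g (f m)) :
    H2 ρ →+ H2 ρ' := H2.map (MonoidHom.id G) continuous_id f hf

theorem H2.mapM_mk (f : M →+ M') (hf : ∀ (g : G) (m : M), f (ρ g m) = ρ' g (f m)) (a : Z2 ρ) :
    H2.mapM f hf (H2.mk ρ a) = H2.mk ρ' (Z2.map (MonoidHom.id G) continuous_id f hf a) := rfl

theorem Z2.ext' {a b : Z2 ρ} (h : ∀ p, (a : G × G → M) p = (b : G × G → M) p) : a = b :=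
  Subtype.ext (funext h)

theorem H2.mapM_mapM (f : M →+ M') (hf : ∀ (g : G) (m : M), f (ρ g m) = ρ' g (f m))
    (f' : M' →+ M'') (hf' : ∀ (g : G) (m : M'), f' (ρ' g m) = ρ'' g (f' m)) (x : H2 ρ) :
    H2.mapM f' hf' (H2.mapM f hf x) = H2.mapM (f'.comp f) (fun g m => by
      rw [AddMonoidHom.comp_apply, hf, hf', AddMonoidHom.comp_apply]) x := by
  obtain ⟨a, rfl⟩ := H2.mk_surjective x
  rw [H2.mapM_mk, H2.mapM_mk, H2.mapM_mk]
  rfl

theorem H2.mapM_congr {f f' : M →+ M'} (hf : ∀ (g : G) (m : M), f (ρ g m) = ρ' g (f m))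
    (hf' : ∀ (g : G) (m : M), f' (ρ g m) = ρ' g (f' m)) (h : ∀ m, f m = f' m) (x : H2 ρ) :
    H2.mapM f hf x = H2.mapM f' hf' x := by
  have : f = f' := AddMonoidHom.ext h
  subst this
  rfl

theorem H2.mapM_id (hf : ∀ (g : G) (m : M), AddMonoidHom.id M (ρ g m) =
    ρ g (AddMonoidHom.id M m)) (x : H2 ρ) : H2.mapM (AddMonoidHom.id M) hf x = x := by
  obtain ⟨a, rfl⟩ := H2.mk_surjective x
  rw [H2.mapM_mk]
  rfl

theorem H2.mapM_zero {f : M →+ M'} (hf : ∀ (g : G) (m : M), f (ρ g m) = ρ' g (f m))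
    (h : ∀ m, f m = 0) (x : H2 ρ) : H2.mapM f hf x = 0 := by
  obtain ⟨a, rfl⟩ := H2.mk_surjective x
  rw [H2.mapM_mk, ← map_zero (H2.mk ρ')]
  congr 1
  exact Z2.ext' fun p => h _

theorem H2.mapM_nsmul {f : M →+ M} (hf : ∀ (g : G) (m : M), f (ρ g m) = ρ g (f m)) (n : ℕ)
    (h : ∀ m, f m = n • m) (x : H2 ρ) : H2.mapM f hf x = n • x := by
  obtain ⟨a, rfl⟩ := H2.mk_surjective x
  rw [H2.mapM_mk, ← map_nsmul]
  congr 1
  refine Z2.ext' fun p => ?_
  rw [Z2.map_coe, h]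
  rfl

theorem H2.mk_eq_mk {a b : Z2 ρ} {c : G → M} (hc : IsLocallyConstant c)
    (h : ∀ p, (a : G × G → M) p = (b : G × G → M) p + dcob ρ c p) :
    H2.mk ρ a = H2.mk ρ b := by
  rw [← sub_eq_zero, ← map_sub, H2.mk_eq_zero]
  refine ⟨c, hc, funext fun p => ?_⟩
  have : ((a - b : Z2 ρ) : G × G → M) p = (a : G × G → M) p - (b : G × G → M) p := rfl
  rw [this, h]
  abel

end hmap

namespace Setup

variable {G : Type*} [Group G] {k : Type*} [Field k]
  {F : Type*} [Field F] {K : Type*} [Field K]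

/-- A homomorphism of `K₂`'s which maps constants to constants, modulo constants. -/
noncomputable def mapM (S : Setup G k F) (S' : Setup G k K) (f : K2 F →+ K2 K)
    (hf : ∀ y, S'.q (f (K2.map S.c y)) = 0) : S.M →+ S'.M :=
  S.lift (S'.q.comp f) hf

@[simp] theorem mapM_q (S : Setup G k F) (S' : Setup G k K) (f : K2 F →+ K2 K) (hf) (x : K2 F) :
    S.mapM S' f hf (S.q x) = S'.q (f x) := rfl

theorem mapM_act (S : Setup G k F) (S' : Setup G k K) (f : K2 F →+ K2 K) (hf)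
    (h : ∀ g x, f (K2.map (S.ρ g) x) = K2.map (S'.ρ g) (f x)) (g : G) (m : S.M) :
    S.mapM S' f hf (S.act g m) = S'.act g (S.mapM S' f hf m) := by
  obtain ⟨x, rfl⟩ := S.q_surjective m
  rw [act_q, mapM_q, mapM_q, act_q, h]

theorem q_map_c (S : Setup G k K) (y : K2 k) : S.q (K2.map S.c y) = 0 :=
  S.q_eq_zero.2 ⟨y, rfl⟩

end Setup

section line

variable {G : Type*} [Group G] {k : Type*} [Field k]
  {F : Type*} [Field F] {K : Type*} [Field K] [Algebra F[X] K] [IsFractionRing F[X] K]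
  (S : Setup G k F) (S' : Setup G k K)

theorem inc_const (hc : ∀ a, S'.c a = cst F K (S.c a)) (y : K2 k) :
    S'.q (K2.map (cst F K) (K2.map S.c y)) = 0 := by
  rw [K2.map_map, S'.q_eq_zero]
  refine ⟨y, ?_⟩
  congr 2
  ext a
  exact hc a

theorem lc_const (hc : ∀ a, S'.c a = cst F K (S.c a)) (y : K2 k) :
    S.q (sLC F K (K2.map S'.c y)) = 0 := by
  have h1 : S'.c = (cst F K).comp S.c := RingHom.ext hc
  rw [h1, ← K2.map_map, sLC_cst]
  exact S.q_map_c y

theorem inc_act (hρ : ∀ g (f : F[X]), S'.ρ g (algebraMap F[X] K f) =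
    algebraMap F[X] K (f.map (S.ρ g))) (g : G) (x : K2 F) :
    K2.map (cst F K) (K2.map (S.ρ g) x) = K2.map (S'.ρ g) (K2.map (cst F K) x) := by
  rw [K2.map_map, K2.map_map]
  congr 2
  ext a
  change algebraMap F[X] K (C (S.ρ g a)) = S'.ρ g (algebraMap F[X] K (C a))
  rw [hρ, map_C]

theorem lc_act (hρ : ∀ g (f : F[X]), S'.ρ g (algebraMap F[X] K f) =
    algebraMap F[X] K (f.map (S.ρ g))) (g : G) (x : K2 K) :
    sLC F K (K2.map (S'.ρ g) x) = K2.map (S.ρ g) (sLC F K x) :=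
  sLC_map (S.ρ g) (S'.ρ g) (hρ g) x

/-- The map induced by the inclusion of the constants of `F(X)`. -/
noncomputable def incM (hc : ∀ a, S'.c a = cst F K (S.c a)) : S.M →+ S'.M :=
  S.mapM S' (K2.map (cst F K)) (inc_const S S' hc)

/-- The map induced by the leading coefficient. -/
noncomputable def lcM (hc : ∀ a, S'.c a = cst F K (S.c a)) : S'.M →+ S.M :=
  S'.mapM S (sLC F K) (lc_const S S' hc)

theorem incM_act (hc : ∀ a, S'.c a = cst F K (S.c a))
    (hρ : ∀ g (f : F[X]), S'.ρ g (algebraMap F[X] K f) = algebraMap F[X] K (f.map (S.ρ g)))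
    (g : G) (m : S.M) : incM S S' hc (S.act g m) = S'.act g (incM S S' hc m) :=
  S.mapM_act S' _ _ (inc_act S S' hρ) g m

theorem lcM_act (hc : ∀ a, S'.c a = cst F K (S.c a))
    (hρ : ∀ g (f : F[X]), S'.ρ g (algebraMap F[X] K f) = algebraMap F[X] K (f.map (S.ρ g)))
    (g : G) (m : S'.M) : lcM S S' hc (S'.act g m) = S.act g (lcM S S' hc m) :=
  S'.mapM_act S _ _ (lc_act S S' hρ) g m

theorem lcM_incM (hc : ∀ a, S'.c a = cst F K (S.c a)) (m : S.M) :
    lcM S S' hc (incM S S' hc m) = m := by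
  obtain ⟨x, rfl⟩ := S.q_surjective m
  rw [incM, Setup.mapM_q, lcM, Setup.mapM_q, sLC_cst]

theorem incM_lcM (hc : ∀ a, S'.c a = cst F K (S.c a)) (hX : S'.X = hor F K) {m : S'.M}
    (hm : S'.tamM m = 0) : incM S S' hc (lcM S S' hc m) = m := by
  obtain ⟨x, rfl⟩ := S'.q_surjective m
  rw [Setup.tamM_q, hX] at hm
  obtain ⟨y, rfl⟩ := milnor_inj hm
  rw [lcM, Setup.mapM_q, sLC_cst, incM, Setup.mapM_q]

theorem milnor_surj' {X : Set (Val K)} (hX : X = hor F K) {d : PiX X} (hd : d ∈ DX X) :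
    ∃ x, tam X x = d := by
  subst hX
  exact milnor_surj hd

variable [TopologicalSpace G]

/-- The main theorem on the line: a class whose residues at the irreducible polynomials are
trivial comes from the base field, via the leading coefficient. -/
theorem line_main (hc : ∀ a, S'.c a = cst F K (S.c a)) (hX : S'.X = hor F K)
    (hρ : ∀ g (f : F[X]), S'.ρ g (algebraMap F[X] K f) = algebraMap F[X] K (f.map (S.ρ g)))
    {α : H2 S'.act} (hα : α ∈ S'.N) :
    H2.mapM (incM S S' hc) (incM_act S S' hc hρ)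
      (H2.mapM (lcM S S' hc) (lcM_act S S' hc hρ) α) = α := by
  classical
  obtain ⟨a, ⟨c, hcl, hcD, hca⟩, rfl⟩ := hα
  have hsurj : ∀ d : PiX S'.X, ∃ m : S'.M, d ∈ DX S'.X → S'.tamM m = d := by
    intro d
    by_cases hd : d ∈ DX S'.X
    · obtain ⟨x, hx⟩ := milnor_surj' hX hd
      exact ⟨S'.q x, fun _ => hx⟩
    · exact ⟨0, fun h => absurd h hd⟩
  choose L hL using hsurj
  set b : G → S'.M := fun g => L (c g) with hb
  have hbl : IsLocallyConstant b := hcl.comp L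
  have hbt : ∀ g, S'.tamM (b g) = c g := fun g => hL _ (hcD g)
  have h1 : ∀ p, S'.tamM ((a : G × G → S'.M) p - dcob S'.act b p) = 0 := by
    intro p
    rw [map_sub, hca, dcob, dcob, map_add, map_sub, S'.tamM_act, hbt, hbt, hbt, sub_self]
  have h2 : ∀ p, incM S S' hc (lcM S S' hc ((a : G × G → S'.M) p - dcob S'.act b p)) =
      (a : G × G → S'.M) p - dcob S'.act b p := fun p => incM_lcM S S' hc hX (h1 p)
  rw [H2.mapM_mk, H2.mapM_mk, eq_comm]
  refine H2.mk_eq_mk (c := fun g => b g - incM S S' hc (lcM S S' hc (b g)))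
    (hbl.comp (fun m => m - incM S S' hc (lcM S S' hc m))) fun p => ?_
  change (a : G × G → S'.M) p = incM S S' hc (lcM S S' hc ((a : G × G → S'.M) p)) + _
  have h3 := h2 p
  simp only [dcob, map_sub, map_add, lcM_act S S' hc hρ, incM_act S S' hc hρ] at h3 ⊢
  rw [eq_comm, sub_eq_iff_eq_add] at h3
  set B := incM S S' hc (lcM S S' hc ((a : G × G → S'.M) p)) with hB
  clear_value B
  rw [h3]
  abel

end line

end Run7.h34
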