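import Pool.Agent.Run7.h34.Aff
import Pool.Agent.Run7.h34.Bridge

/-! The vanishing theorem for surfaces. -/

set_option linter.unusedSectionVars false

namespace Run7.h34

open AlgebraicGeometry CategoryTheory Limits TopologicalSpace IsLocalRing Polynomial
open scoped WithZero

universe u

section

theorem hpow_of {k E : Type*} [Field k] [Field E] (c : k →+* E) (x y : E)
    (h : Function.Injective (ev c x y)) {e : E} {q : ℕ} {a b : Polynomial (Polynomial k)}
    (hb : ev c x y b ≠ 0) (hab : e ^ q * ev c x y b = ev c x y a) :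
    ∃ z, io2 c x y h z = e ^ q := by
  refine ⟨ev (cc k) (RatFunc.C RatFunc.X) RatFunc.X a /
    ev (cc k) (RatFunc.C RatFunc.X) RatFunc.X b, ?_⟩
  rw [map_div₀]
  refine (div_eq_iff ?_).2 ?_
  · rw [io2_poly]; exact hb
  · rw [io2_poly, io2_poly]; exact hab.symm

variable {K : Type u} [Field K] {V : Scheme.{u}} (f : V ⟶ Spec (CommRingCat.of K))
  [GeometricallyIntegral f]

theorem vb_normal [Smooth f] (Ω : Type u) [Field Ω] [Algebra K Ω] (x : VB f Ω) :
    IsIntegrallyClosed ((VB f Ω).presheaf.stalk x) := by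
  have h : Smooth (VB.snd f Ω) :=
    MorphismProperty.of_isPullback (P := @Smooth) (VB.isPullback f Ω) inferInstance
  exact smooth_normal (VB.snd f Ω) x

variable {Ω : Type u} [Field Ω] [Algebra K Ω] {Γ : Type u} [Group Γ] (η : Γ →* (Ω ≃ₐ[K] Ω))

theorem geo_of [Smooth f] (U : (VB f Ω).Opens) (hU : genericPoint (VB f Ω) ∈ U)
    (π : U.toScheme ⟶ A2 Ω) (hπ : π ≫ (A2 Ω ↘ Spec (CommRingCat.of Ω)) = U.ι ≫ VB.snd f Ω)
    [UniversallyClosed π] {q : ℕ} (hq : q ≠ 0) :
    Geo (setupV f η) (crd U hU π 0) (crd U hU π 1) q := by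
  intro w hw h1 h2
  refine mem_divs (vb_normal f Ω) hw U hU π hq (fun a => ?_) (fun e he => ?_)
  · obtain ⟨a, rfl⟩ := A2p_bijective.2 a
    rw [pullFn_poly (VB.snd f Ω) U hU π hπ]
    exact h1 a
  · obtain ⟨a, b, hb, hab⟩ := h2 e he
    refine ⟨A2p Ω a, A2p Ω b, ?_, ?_⟩
    · rw [pullFn_poly (VB.snd f Ω) U hU π hπ]
      exact hb
    · rw [pullFn_poly (VB.snd f Ω) U hU π hπ, pullFn_poly (VB.snd f Ω) U hU π hπ]
      exact hab

theorem ev_inj_of (U : (VB f Ω).Opens) (hU : genericPoint (VB f Ω) ∈ U)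
    (π : U.toScheme ⟶ A2 Ω) (hπ : π ≫ (A2 Ω ↘ Spec (CommRingCat.of Ω)) = U.ι ≫ VB.snd f Ω)
    [QuasiCompact π] [IsDominant π] :
    Function.Injective (ev (cst0 f Ω) (crd U hU π 0) (crd U hU π 1)) := by
  intro a b hab
  have h1 := (pullFn_injective U hU π).comp (A2p_bijective (Ω := Ω)).1
  refine h1 ?_
  rw [Function.comp_apply, Function.comp_apply, pullFn_poly (VB.snd f Ω) U hU π hπ,
    pullFn_poly (VB.snd f Ω) U hU π hπ]
  exact hab

/-- The vanishing theorem for `N(V)`. -/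
theorem main_N [Smooth f] (Ks : Type u) [Field Ks] [Algebra K Ks] [IsSepClosure K Ks]
    (P : PlaneMap (VB.snd f Ks)) (p n : ℕ) [ExpChar K p] (hpow : P.Exponent (p ^ n))
    (L : IntermediateField K Ks) [FiniteDimensional K L]
    (hL : ∀ g ∈ L.fixingSubgroup, ∀ i, FFm f (g : Ks →ₐ[K] Ks) (P.crd i) = P.crd i)
    {α : H2 (setupV f (MonoidHom.id (Ks ≃ₐ[K] Ks))).act}
    (hα : α ∈ (setupV f (MonoidHom.id (Ks ≃ₐ[K] Ks))).N) :
    (Module.finrank K L * (p ^ n * p ^ n)) • α = 0 := by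
  obtain ⟨U, hU, π, hπ, hc, hd⟩ := P
  have hG : IsGalois K Ks := IsSepClosure.isGalois
  have hfin : L.fixingSubgroup.index ≠ 0 := by
    rw [← IntermediateField.finrank_eq_fixingSubgroup_index]
    exact Module.finrank_pos.ne'
  have hE : ExpChar (FFd f Ks) p := by
    have h1 : ExpChar Ks p :=
      expChar_of_injective_algebraMap (algebraMap K Ks).injective p
    exact expChar_of_injective_ringHom (cst0 f Ks).injective p
  have hinj := ev_inj_of f U hU π hπ
  rw [IntermediateField.finrank_eq_fixingSubgroup_index]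
  refine core' (setupV f (MonoidHom.id (Ks ≃ₐ[K] Ks))) L.fixingSubgroup
    (IntermediateField.fixingSubgroup_isOpen L) hfin (crd U hU π 0) (crd U hU π 1)
    (fun g hg => hL g hg 0) (fun g hg => hL g hg 1) hinj p n (fun e => ?_) (fun w hw => hw.1)
    (geo_of f _ U hU π hπ (pow_ne_zero n (expChar_pos K p).ne')) hα
  obtain ⟨a, b, hb, hab⟩ := hpow e
  obtain ⟨a, rfl⟩ := A2p_bijective.2 a
  obtain ⟨b, rfl⟩ := A2p_bijective.2 b
  rw [pullFn_poly (VB.snd f _) U hU π hπ] at hb hab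
  rw [pullFn_poly (VB.snd f _) U hU π hπ] at hab
  exact hpow_of _ _ _ hinj hb hab

theorem sit_eq (Ks : Type u) [Field Ks] [Algebra K Ks] :
    sit f K Ks = (setupV f (MonoidHom.id (Ks ≃ₐ[K] Ks))).toSit := rfl

/-- The vanishing theorem for `N(V)`, in terms of cocycles. -/
theorem main_cocycle [Smooth f] (Ks : Type u) [Field Ks] [Algebra K Ks] [IsSepClosure K Ks]
    (P : PlaneMap (VB.snd f Ks)) (p n : ℕ) [ExpChar K p] (hpow : P.Exponent (p ^ n))
    (L : IntermediateField K Ks) [FiniteDimensional K L]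
    (hL : ∀ g ∈ L.fixingSubgroup, ∀ i, FFm f (g : Ks →ₐ[K] Ks) (P.crd i) = P.crd i)
    {a : (Ks ≃ₐ[K] Ks) × (Ks ≃ₐ[K] Ks) → K2 (FFd f Ks)} (ha : InN f a) :
    IsZero f ((Module.finrank K L * (p ^ n * p ^ n)) • a) :=
  (setupV f (MonoidHom.id (Ks ≃ₐ[K] Ks))).bridge ha _ fun _ hα =>
    main_N f Ks P p n hpow L hL hα

end

end Run7.h34
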