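import Pool.Agent.Run7.h34.Setup

/-! The filtration of `K₂ F(X)` by degree. -/

namespace Run7.h34

open Polynomial

universe u v

section

variable {F : Type u} [Field F] (K : Type v) [Field K] [Algebra F[X] K] [IsFractionRing F[X] K]

theorem algebraMap_ne {f : F[X]} (hf : f ≠ 0) : algebraMap F[X] K f ≠ 0 :=
  fun h => hf ((IsFractionRing.injective F[X] K) (by rw [h, map_zero]))

open Classical in
/-- The unit of the fraction field given by a nonzero polynomial (and `1` for zero). -/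
noncomputable def pe (f : F[X]) : Kˣ :=
  if h : f = 0 then 1 else Units.mk0 (algebraMap F[X] K f) (algebraMap_ne K h)

theorem pe_coe {f : F[X]} (hf : f ≠ 0) : ((pe K f : Kˣ) : K) = algebraMap F[X] K f := by
  rw [pe, dif_neg hf]; rfl

theorem pe_mul {f g : F[X]} (hf : f ≠ 0) (hg : g ≠ 0) : pe K (f * g) = pe K f * pe K g := by
  ext
  rw [Units.val_mul, pe_coe K hf, pe_coe K hg, pe_coe K (mul_ne_zero hf hg), map_mul]

theorem pe_one : pe K (1 : F[X]) = 1 := by
  ext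
  rw [pe_coe K one_ne_zero, map_one]; rfl

theorem pe_neg_one : pe K (-1 : F[X]) = -1 := by
  ext
  rw [pe_coe K (neg_ne_zero.2 one_ne_zero), map_neg, map_one]; rfl

/-- The subgroup generated by the symbols of polynomials of degree at most `n`. -/
noncomputable def UU (n : ℕ) : AddSubgroup (K2 K) := AddSubgroup.closure {x | ∃ f g : F[X], f ≠ 0 ∧ g ≠ 0 ∧
  f.natDegree ≤ n ∧ g.natDegree ≤ n ∧ x = sy (pe K f) (pe K g)}

variable {K}

theorem mem_UU {n : ℕ} {f g : F[X]} (hf : f ≠ 0) (hg : g ≠ 0) (hfn : f.natDegree ≤ n)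
    (hgn : g.natDegree ≤ n) : sy (pe K f) (pe K g) ∈ UU (F := F) K n :=
  AddSubgroup.subset_closure ⟨f, g, hf, hg, hfn, hgn, rfl⟩

theorem UU_mono {m n : ℕ} (h : m ≤ n) : UU (F := F) K m ≤ UU (F := F) K n := by
  rw [UU, AddSubgroup.closure_le]
  rintro _ ⟨f, g, hf, hg, hfn, hgn, rfl⟩
  exact mem_UU hf hg (hfn.trans h) (hgn.trans h)

theorem sy_mem_of_closure {A : Set Kˣ} {H : AddSubgroup (K2 K)}
    (h : ∀ a ∈ A, ∀ b ∈ A, sy a b ∈ H) {a b : Kˣ} (ha : a ∈ Subgroup.closure A)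
    (hb : b ∈ Subgroup.closure A) : sy a b ∈ H := by
  have key : ∀ a ∈ A, ∀ b ∈ Subgroup.closure A, sy a b ∈ H := by
    intro a ha b hb
    induction hb using Subgroup.closure_induction with
    | mem b hb => exact h a ha b hb
    | one => rw [sy_one_right]; exact H.zero_mem
    | mul b c _ _ hb hc => rw [sy_mul_right]; exact H.add_mem hb hc
    | inv b _ hb => rw [sy_inv_right]; exact H.neg_mem hb
  induction ha using Subgroup.closure_induction with
  | mem a ha => exact key a ha b hb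
  | one => rw [sy_one_left]; exact H.zero_mem
  | mul b c _ _ hb hc => rw [sy_mul_left]; exact H.add_mem hb hc
  | inv b _ hb => rw [sy_inv_left]; exact H.neg_mem hb

/-- The units given by polynomials of degree at most `n`. -/
noncomputable def SS (F : Type u) [Field F] (K : Type v) [Field K] [Algebra F[X] K] [IsFractionRing F[X] K]
    (n : ℕ) : Set Kˣ := {a | ∃ f : F[X], f ≠ 0 ∧ f.natDegree ≤ n ∧ a = pe K f}

theorem sy_mem_UU {n : ℕ} {a b : Kˣ} (ha : a ∈ Subgroup.closure (SS F K n))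
    (hb : b ∈ Subgroup.closure (SS F K n)) : sy a b ∈ UU (F := F) K n := by
  refine sy_mem_of_closure ?_ ha hb
  rintro _ ⟨f, hf, hfn, rfl⟩ _ ⟨g, hg, hgn, rfl⟩
  exact mem_UU hf hg hfn hgn

theorem mem_SS {n : ℕ} {f : F[X]} (hf : f ≠ 0) (hn : f.natDegree ≤ n) :
    pe K f ∈ Subgroup.closure (SS F K n) := Subgroup.subset_closure ⟨f, hf, hn, rfl⟩

/-- The key relation. -/
theorem key_rel {m : ℕ} {P g₁ g₂ : F[X]} (hP : P.Monic) (hPm : P.natDegree = m + 1)
    (hg₁ : g₁ ≠ 0) (hg₂ : g₂ ≠ 0) (h₁ : g₁.natDegree ≤ m) (h₂ : g₂.natDegree ≤ m)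
    (h0 : (g₁ * g₂) %ₘ P ≠ 0) :
    sy (pe K P) (pe K ((g₁ * g₂) %ₘ P)) - sy (pe K P) (pe K g₁) - sy (pe K P) (pe K g₂) ∈
      UU (F := F) K m := by
  set g := (g₁ * g₂) %ₘ P with hg
  set q := (g₁ * g₂) /ₘ P with hq
  have hdiv : g + P * q = g₁ * g₂ := modByMonic_add_div _ _
  have hP1 : P ≠ 1 := by
    rintro rfl
    rw [natDegree_one] at hPm; omega
  have hgm : g.natDegree ≤ m := by
    have : g.natDegree < P.natDegree := natDegree_modByMonic_lt (g₁ * g₂) hP hP1
    omega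
  have h12 : g₁ * g₂ ≠ 0 := mul_ne_zero hg₁ hg₂
  by_cases hq0 : q = 0
  · have : g = g₁ * g₂ := by rw [← hdiv, hq0, mul_zero, add_zero]
    rw [this, pe_mul K hg₁ hg₂, sy_mul_right]
    have : sy (pe K P) (pe K g₁) + sy (pe K P) (pe K g₂) - sy (pe K P) (pe K g₁) -
      sy (pe K P) (pe K g₂) = 0 := by abel
    rw [this]; exact AddSubgroup.zero_mem _
  · have hqm : q.natDegree ≤ m := by
      have h3 : q.natDegree = (g₁ * g₂).natDegree - P.natDegree := natDegree_divByMonic _ hP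
      rw [natDegree_mul hg₁ hg₂, hPm] at h3
      omega
    have hP0 : P ≠ 0 := hP.ne_zero
    set d : Kˣ := pe K (g₁ * g₂) with hd
    have hst : ((pe K (P * q) / d : Kˣ) : K) + ((pe K g / d : Kˣ) : K) = 1 := by
      rw [Units.val_div_eq_div_val, Units.val_div_eq_div_val, hd, pe_coe K h12,
        pe_coe K (mul_ne_zero hP0 hq0), pe_coe K h0, ← add_div, ← map_add, add_comm, hdiv,
        div_self (algebraMap_ne K h12)]
    have h4 := sy_steinberg hst
    rw [pe_mul K hP0 hq0, mul_div_assoc, sy_mul_left] at h4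
    have h5 : sy (pe K q / d) (pe K g / d) ∈ UU (F := F) K m := by
      have hd' : d ∈ Subgroup.closure (SS F K m) := by
        rw [hd, pe_mul K hg₁ hg₂]
        exact Subgroup.mul_mem _ (mem_SS hg₁ h₁) (mem_SS hg₂ h₂)
      exact sy_mem_UU (Subgroup.div_mem _ (mem_SS hq0 hqm) hd')
        (Subgroup.div_mem _ (mem_SS h0 hgm) hd')
    have h6 : sy (pe K P) (pe K g) - sy (pe K P) (pe K g₁) - sy (pe K P) (pe K g₂) =
        - sy (pe K q / d) (pe K g / d) := by
      rw [eq_neg_iff_add_eq_zero, ← h4, sy_div_right (pe K P), hd, pe_mul K hg₁ hg₂,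
        sy_mul_right]
      abel
    rw [h6]
    exact AddSubgroup.neg_mem _ h5

/-- The elements which are, modulo `UU m`, sums of symbols `{P, g_P}` with `P` monic irreducible
of degree `m + 1` and `g_P` of smaller degree. -/
def QQ (F : Type u) [Field F] {K : Type v} [Field K] [Algebra F[X] K] [IsFractionRing F[X] K]
    (m : ℕ) (x : K2 K) : Prop :=
  ∃ (T : Finset F[X]) (g : F[X] → F[X]),
    (∀ P ∈ T, P.Monic ∧ Irreducible P ∧ P.natDegree = m + 1) ∧
    (∀ P, g P ≠ 0 ∧ (g P).natDegree ≤ m) ∧ (∀ P, P ∉ T → g P = 1) ∧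
    x - ∑ P ∈ T, sy (pe K P) (pe K (g P)) ∈ UU (F := F) K m

theorem QQ_of_mem {m : ℕ} {x : K2 K} (hx : x ∈ UU (F := F) K m) : QQ F m x :=
  ⟨∅, fun _ => 1, by simp, fun P => ⟨one_ne_zero, by simp⟩, fun _ _ => rfl, by simpa using hx⟩

theorem mod_ne_zero {m : ℕ} {P g₁ g₂ : F[X]} (hP : P.Monic) (hi : Irreducible P)
    (hPm : P.natDegree = m + 1) (hg₁ : g₁ ≠ 0) (hg₂ : g₂ ≠ 0) (h₁ : g₁.natDegree ≤ m)
    (h₂ : g₂.natDegree ≤ m) : (g₁ * g₂) %ₘ P ≠ 0 := by
  intro h
  rw [modByMonic_eq_zero_iff_dvd hP] at h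
  rcases hi.prime.dvd_or_dvd h with h | h
  · have := natDegree_le_of_dvd h hg₁; omega
  · have := natDegree_le_of_dvd h hg₂; omega

theorem mod_natDegree {m : ℕ} {P : F[X]} (hP : P.Monic) (hPm : P.natDegree = m + 1) (f : F[X]) :
    (f %ₘ P).natDegree ≤ m := by
  have hP1 : P ≠ 1 := by
    rintro rfl
    rw [natDegree_one] at hPm; omega
  have := natDegree_modByMonic_lt f hP hP1
  omega

theorem QQ_add {m : ℕ} {x y : K2 K} (hx : QQ F m x) (hy : QQ F m y) : QQ F m (x + y) := by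
  classical
  obtain ⟨T, g, hT, hg, hg', hx⟩ := hx
  obtain ⟨T', g', hT', hgg, hgg', hy⟩ := hy
  have hTT : ∀ P ∈ T ∪ T', P.Monic ∧ Irreducible P ∧ P.natDegree = m + 1 := by
    intro P hP
    rcases Finset.mem_union.1 hP with h | h
    · exact hT P h
    · exact hT' P h
  refine ⟨T ∪ T', fun P => if P ∈ T ∪ T' then (g P * g' P) %ₘ P else 1, hTT, fun P => ?_,
    fun P hP => if_neg hP, ?_⟩
  · dsimp only
    split_ifs with h
    · obtain ⟨h1, h2, h3⟩ := hTT P h
      exact ⟨mod_ne_zero h1 h2 h3 (hg P).1 (hgg P).1 (hg P).2 (hgg P).2, mod_natDegree h1 h3 _⟩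
    · exact ⟨one_ne_zero, by simp⟩
  · have e1 : ∑ P ∈ T, sy (pe K P) (pe K (g P)) = ∑ P ∈ T ∪ T', sy (pe K P) (pe K (g P)) := by
      refine Finset.sum_subset Finset.subset_union_left fun P _ hP => ?_
      rw [hg' P hP, pe_one, sy_one_right]
    have e2 : ∑ P ∈ T', sy (pe K P) (pe K (g' P)) = ∑ P ∈ T ∪ T', sy (pe K P) (pe K (g' P)) := by
      refine Finset.sum_subset Finset.subset_union_right fun P _ hP => ?_
      rw [hgg' P hP, pe_one, sy_one_right]
    rw [e1] at hx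
    rw [e2] at hy
    have e3 : ∑ P ∈ T ∪ T', (sy (pe K P) (pe K ((g P * g' P) %ₘ P)) - sy (pe K P) (pe K (g P)) -
        sy (pe K P) (pe K (g' P))) ∈ UU (F := F) K m := by
      refine AddSubgroup.sum_mem _ fun P hP => ?_
      obtain ⟨h1, h2, h3⟩ := hTT P hP
      exact key_rel h1 h3 (hg P).1 (hgg P).1 (hg P).2 (hgg P).2
        (mod_ne_zero h1 h2 h3 (hg P).1 (hgg P).1 (hg P).2 (hgg P).2)
    have e4 : x + y - ∑ P ∈ T ∪ T', sy (pe K P) (pe K (if P ∈ T ∪ T' then (g P * g' P) %ₘ P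
        else 1)) = (x - ∑ P ∈ T ∪ T', sy (pe K P) (pe K (g P))) +
          (y - ∑ P ∈ T ∪ T', sy (pe K P) (pe K (g' P))) -
          ∑ P ∈ T ∪ T', (sy (pe K P) (pe K ((g P * g' P) %ₘ P)) - sy (pe K P) (pe K (g P)) -
          sy (pe K P) (pe K (g' P))) := by
      have e5 : ∑ P ∈ T ∪ T', sy (pe K P) (pe K (if P ∈ T ∪ T' then (g P * g' P) %ₘ P else 1)) =
          ∑ P ∈ T ∪ T', sy (pe K P) (pe K ((g P * g' P) %ₘ P)) :=
        Finset.sum_congr rfl fun P hP => by rw [if_pos hP]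
      rw [e5, Finset.sum_sub_distrib, Finset.sum_sub_distrib]
      abel
    rw [e4]
    exact AddSubgroup.sub_mem _ (AddSubgroup.add_mem _ hx hy) e3

theorem QQ_sy {m : ℕ} {P g : F[X]} (hP : P.Monic) (hi : Irreducible P)
    (hPm : P.natDegree = m + 1) (hg : g ≠ 0) (hgm : g.natDegree ≤ m) :
    QQ F m (sy (pe K P) (pe K g)) := by
  classical
  refine ⟨{P}, fun Q => if Q = P then g else 1, ?_, fun Q => ?_, fun Q hQ => ?_, ?_⟩
  · intro Q hQ
    rw [Finset.mem_singleton] at hQ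
    subst hQ
    exact ⟨hP, hi, hPm⟩
  · dsimp only
    split_ifs
    · exact ⟨hg, hgm⟩
    · exact ⟨one_ne_zero, by simp⟩
  · rw [Finset.mem_singleton] at hQ
    exact if_neg hQ
  · rw [Finset.sum_singleton]
    dsimp only
    rw [if_pos rfl, sub_self]
    exact AddSubgroup.zero_mem _

theorem QQ_neg_sy {m : ℕ} {P g : F[X]} (hP : P.Monic) (hi : Irreducible P)
    (hPm : P.natDegree = m + 1) (hg : g ≠ 0) (hgm : g.natDegree ≤ m) :
    QQ F m (-sy (pe K P) (pe K g)) := by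
  have hcop : IsCoprime P g := by
    refine hi.coprime_iff_not_dvd.2 fun h => ?_
    have := natDegree_le_of_dvd h hg
    omega
  obtain ⟨a, b, hab⟩ := hcop
  have h1 : (g * (b %ₘ P)) %ₘ P = 1 := by
    have hmod : ∀ f : F[X], (P * f) %ₘ P = 0 := fun f => by
      rw [modByMonic_eq_zero_iff_dvd hP]; exact dvd_mul_right _ _
    have e : g * (b %ₘ P) = 1 + P * (-a - g * (b /ₘ P)) := by
      have h := modByMonic_add_div b P
      have h' : b %ₘ P = b - P * (b /ₘ P) := eq_sub_of_add_eq h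
      rw [h', ← hab]
      ring
    rw [e, add_modByMonic, hmod, add_zero]
    rw [modByMonic_eq_self_iff hP]
    rw [degree_one]
    exact natDegree_pos_iff_degree_pos.1 (by omega)
  have hb0 : b %ₘ P ≠ 0 := by
    intro h
    rw [h, mul_zero, zero_modByMonic] at h1
    exact zero_ne_one h1
  have h2 := key_rel (K := K) hP hPm hg hb0 hgm (mod_natDegree hP hPm b) (by
    rw [h1]; exact one_ne_zero)
  rw [h1, pe_one, sy_one_right, zero_sub] at h2
  have h3 : -sy (pe K P) (pe K g) = (-sy (pe K P) (pe K g) - sy (pe K P) (pe K (b %ₘ P))) +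
      sy (pe K P) (pe K (b %ₘ P)) := by abel
  rw [h3]
  exact QQ_add (QQ_of_mem h2) (QQ_sy hP hi hPm hb0 (mod_natDegree hP hPm b))

theorem QQ_sum {m : ℕ} {ι : Type*} (T : Finset ι) (x : ι → K2 K) (h : ∀ i ∈ T, QQ F m (x i)) :
    QQ F m (∑ i ∈ T, x i) := by
  classical
  induction T using Finset.induction_on with
  | empty => rw [Finset.sum_empty]; exact QQ_of_mem (AddSubgroup.zero_mem _)
  | insert a s ha ih =>
    rw [Finset.sum_insert ha]
    exact QQ_add (h a (Finset.mem_insert_self a s))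
      (ih fun i hi => h i (Finset.mem_insert_of_mem hi))

theorem QQ_neg {m : ℕ} {x : K2 K} (hx : QQ F m x) : QQ F m (-x) := by
  obtain ⟨T, g, hT, hg, hg', hx⟩ := hx
  have e : -x = -(x - ∑ P ∈ T, sy (pe K P) (pe K (g P))) +
      ∑ P ∈ T, -sy (pe K P) (pe K (g P)) := by
    rw [Finset.sum_neg_distrib]; abel
  rw [e]
  refine QQ_add (QQ_of_mem (AddSubgroup.neg_mem _ hx)) (QQ_sum T _ fun P hP => ?_)
  obtain ⟨h1, h2, h3⟩ := hT P hP
  exact QQ_neg_sy h1 h2 h3 (hg P).1 (hg P).2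

variable (F K) in
/-- The subgroup of the elements with the property `QQ`. -/
noncomputable def WW (m : ℕ) : AddSubgroup (K2 K) where
  carrier := {x | QQ F m x}
  zero_mem' := QQ_of_mem (AddSubgroup.zero_mem _)
  add_mem' := QQ_add
  neg_mem' := QQ_neg

theorem mem_WW {m : ℕ} {x : K2 K} : x ∈ WW F K m ↔ QQ F m x := Iff.rfl

/-- A monic irreducible polynomial of degree `m + 1`. -/
def MI (F : Type u) [Field F] (m : ℕ) (P : F[X]) : Prop :=
  P.Monic ∧ Irreducible P ∧ P.natDegree = m + 1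

theorem mem_closure_gen {m : ℕ} {f : F[X]} (hf : f ≠ 0) (hfm : f.natDegree ≤ m + 1) :
    pe K f ∈ Subgroup.closure (SS F K m ∪ {a | ∃ P, MI F m P ∧ a = pe K P}) := by
  have hsub : Subgroup.closure (SS F K m) ≤
      Subgroup.closure (SS F K m ∪ {a | ∃ P, MI F m P ∧ a = pe K P}) :=
    Subgroup.closure_mono Set.subset_union_left
  rcases Nat.lt_or_ge m f.natDegree with h | h
  · have hd : f.natDegree = m + 1 := by omega
    by_cases hi : Irreducible f
    · have hlc : f.leadingCoeff ≠ 0 := leadingCoeff_ne_zero.2 hf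
      have e : f = C f.leadingCoeff * (C f.leadingCoeff⁻¹ * f) := by
        rw [← mul_assoc, ← C_mul, mul_inv_cancel₀ hlc, C_1, one_mul]
      have hne : C f.leadingCoeff⁻¹ * f ≠ 0 :=
        mul_ne_zero (C_ne_zero.2 (inv_ne_zero hlc)) hf
      rw [e, pe_mul K (C_ne_zero.2 hlc) hne]
      refine Subgroup.mul_mem _ (hsub (mem_SS (C_ne_zero.2 hlc) (by simp))) ?_
      refine Subgroup.subset_closure (Or.inr ⟨_, ⟨?_, ?_, ?_⟩, rfl⟩)
      · rw [Monic, leadingCoeff_mul, leadingCoeff_C, inv_mul_cancel₀ hlc]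
      · exact (irreducible_isUnit_mul (isUnit_C.2 (isUnit_iff_ne_zero.2 (inv_ne_zero hlc)))).2 hi
      · rw [natDegree_C_mul (inv_ne_zero hlc), hd]
    · have hnu : ¬ IsUnit f := by
        intro hu
        have := natDegree_eq_zero_of_isUnit hu
        omega
      rw [irreducible_iff] at hi
      push Not at hi
      obtain ⟨a, b, hab, ha, hb⟩ := hi hnu
      have ha0 : a ≠ 0 := by rintro rfl; rw [zero_mul] at hab; exact hf hab
      have hb0 : b ≠ 0 := by rintro rfl; rw [mul_zero] at hab; exact hf hab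
      have hda : 0 < a.natDegree := by
        rw [Nat.pos_iff_ne_zero]
        intro h0
        exact ha (isUnit_iff_degree_eq_zero.2 (by rw [degree_eq_natDegree ha0, h0]; rfl))
      have hdb : 0 < b.natDegree := by
        rw [Nat.pos_iff_ne_zero]
        intro h0
        exact hb (isUnit_iff_degree_eq_zero.2 (by rw [degree_eq_natDegree hb0, h0]; rfl))
      have hs : f.natDegree = a.natDegree + b.natDegree := by rw [hab, natDegree_mul ha0 hb0]
      rw [hab, pe_mul K ha0 hb0]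
      exact Subgroup.mul_mem _ (hsub (mem_SS ha0 (by omega))) (hsub (mem_SS hb0 (by omega)))
  · exact hsub (mem_SS hf h)

theorem sy_P_P {m : ℕ} {P Q : F[X]} (hP : MI F m P) (hQ : MI F m Q) :
    QQ F m (sy (pe K Q) (pe K P)) := by
  by_cases hPQ : P = Q
  · subst hPQ
    rw [sy_self, ← pe_neg_one (F := F) K]
    exact QQ_sy hP.1 hP.2.1 hP.2.2 (neg_ne_zero.2 one_ne_zero) (by simp)
  · have hf0 : P - Q ≠ 0 := sub_ne_zero.2 hPQ
    have hfm : (P - Q).natDegree ≤ m := by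
      have h1 : (P - Q).degree < P.degree := by
        refine degree_sub_lt_left ?_ hP.1.ne_zero ?_
        · rw [degree_eq_natDegree hP.1.ne_zero, degree_eq_natDegree hQ.1.ne_zero, hP.2.2, hQ.2.2]
        · rw [hP.1.leadingCoeff, hQ.1.leadingCoeff]
      have h2 := natDegree_lt_natDegree hf0 h1
      have := hP.2.2
      omega
    have hst : ((pe K Q / pe K P : Kˣ) : K) + ((pe K (P - Q) / pe K P : Kˣ) : K) = 1 := by
      rw [Units.val_div_eq_div_val, Units.val_div_eq_div_val, pe_coe K hP.1.ne_zero,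
        pe_coe K hQ.1.ne_zero, pe_coe K hf0, ← add_div, ← map_add, add_sub_cancel,
        div_self (algebraMap_ne K hP.1.ne_zero)]
    have h4 := sy_steinberg hst
    rw [sy_div_left, sy_div_right, sy_div_right, sy_self (pe K P), ← pe_neg_one (F := F) K] at h4
    have h5 : sy (pe K Q) (pe K P) = sy (pe K Q) (pe K (P - Q)) + -sy (pe K P) (pe K (P - Q)) +
        sy (pe K P) (pe K (-1 : F[X])) := by
      have h6 : sy (pe K Q) (pe K (P - Q)) + -sy (pe K P) (pe K (P - Q)) +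
        sy (pe K P) (pe K (-1 : F[X])) - sy (pe K Q) (pe K P) = 0 := by
        rw [← h4]; abel
      exact (sub_eq_zero.1 h6).symm
    rw [h5]
    exact QQ_add (QQ_add (QQ_sy hQ.1 hQ.2.1 hQ.2.2 hf0 hfm)
      (QQ_neg_sy hP.1 hP.2.1 hP.2.2 hf0 hfm))
      (QQ_sy hP.1 hP.2.1 hP.2.2 (neg_ne_zero.2 one_ne_zero) (by simp))

theorem UU_le_WW (m : ℕ) : UU (F := F) K (m + 1) ≤ WW F K m := by
  rw [UU, AddSubgroup.closure_le]
  rintro _ ⟨f, g, hf, hg, hfm, hgm, rfl⟩
  refine sy_mem_of_closure (H := WW F K m) ?_ (mem_closure_gen hf hfm) (mem_closure_gen hg hgm)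
  rintro _ (⟨a, ha, ham, rfl⟩ | ⟨P, hP, rfl⟩) _ (⟨b, hb, hbm, rfl⟩ | ⟨Q, hQ, rfl⟩)
  · exact QQ_of_mem (mem_UU ha hb ham hbm)
  · rw [sy_swap]
    exact QQ_neg (QQ_sy hQ.1 hQ.2.1 hQ.2.2 ha ham)
  · exact QQ_sy hP.1 hP.2.1 hP.2.2 hb hbm
  · exact sy_P_P hQ hP

end

end Run7.h34
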