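import Pool.Agent.Run7.h34.Mil

/-! Milnor's theorem on `K₂ F(X)`. -/

namespace Run7.h34

open Polynomial IsDedekindDomain
open scoped WithZero

universe u v

section general

variable {E : Type u} [Field E]

theorem tame_zero {w : Val E} {a b : Eˣ} (ha : ord w a = 0) (hb : ord w b = 0) :
    tame w a b = 0 := by simp [tame, ha, hb]

theorem tam_mono {X Y : Set (Val E)} (h : Y ⊆ X) {x : K2 E} (hx : tam X x = 0) :
    tam Y x = 0 := by
  have h1 := PiX.map_tam X Y (RingHom.id E) id (fun _ => 1)
    (fun w hw => ⟨h hw, one_ne_zero, fun e => by rw [pow_one]; rfl⟩) x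
  rw [hx, map_zero, K2.map_id] at h1
  exact h1.symm

open Classical in
/-- The family concentrated at one valuation. -/
noncomputable def sgl (X : Set (Val E)) (w : Val E) (a : Additive Eˣ) : PiX X :=
  PiX.mk X (Pi.single w a)

theorem mk_eq_sum (X : Set (Val E)) (f : Val E → Additive Eˣ) (S : Finset (Val E))
    (h : ∀ w ∈ X, w ∉ S → (f w).toMul ∈ pu w) : PiX.mk X f = ∑ w ∈ S, sgl X w (f w) := by
  classical
  have h1 : ∑ w ∈ S, sgl X w (f w) = PiX.mk X (∑ w ∈ S, Pi.single w (f w)) := by
    rw [map_sum]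
    refine Finset.sum_congr rfl fun w _ => ?_
    rw [sgl]
  rw [h1, ← sub_eq_zero, ← map_sub, PiX.mk_eq_zero]
  intro w hw
  rw [Pi.sub_apply, Finset.sum_apply]
  by_cases hS : w ∈ S
  · rw [Finset.sum_eq_single w]
    · rw [Pi.single_eq_same, sub_self]; exact (pu w).one_mem
    · intro b _ hb
      exact Pi.single_eq_of_ne (Ne.symm hb) _
    · intro h; exact absurd hS h
  · rw [Finset.sum_eq_zero, sub_zero]
    · exact h w hw hS
    · intro b hb
      refine Pi.single_eq_of_ne ?_ _
      rintro rfl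
      exact hS hb

theorem sgl_eq {X : Set (Val E)} {w : Val E} {a b : Additive Eˣ} (h : (a - b).toMul ∈ pu w) :
    sgl X w a = sgl X w b := by
  classical
  rw [sgl, sgl, ← sub_eq_zero, ← map_sub, PiX.mk_eq_zero]
  intro w' _
  rw [Pi.sub_apply]
  by_cases hw : w' = w
  · subst hw
    rw [Pi.single_eq_same, Pi.single_eq_same]
    exact h
  · rw [Pi.single_eq_of_ne hw, Pi.single_eq_of_ne hw, sub_zero]
    exact (pu w').one_mem

end general

section

variable (F : Type u) [Field F] (K : Type v) [Field K] [Algebra F[X] K] [IsFractionRing F[X] K]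

/-- The valuations of the fraction field given by the irreducible polynomials. -/
def hor : Set (Val K) := {w | ∃ 𝔭 : HeightOneSpectrum F[X], w = 𝔭.valuation K}

/-- The inclusion of the constants. -/
noncomputable def cst : F →+* K := (algebraMap F[X] K).comp C

variable {F}

/-- The prime given by an irreducible polynomial. -/
noncomputable def prm (P : F[X]) (hP : Irreducible P) : HeightOneSpectrum F[X] where
  asIdeal := Ideal.span {P}
  isPrime := (Ideal.span_singleton_prime hP.ne_zero).2 hP.prime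
  ne_bot := by rw [Ne, Ideal.span_singleton_eq_bot]; exact hP.ne_zero

theorem exists_prm (𝔭 : HeightOneSpectrum F[X]) : ∃ (P : F[X]) (hP : Irreducible P), P.Monic ∧
    𝔭 = prm P hP := by
  classical
  set g := Submodule.IsPrincipal.generator 𝔭.asIdeal with hg
  have h1 : Ideal.span {g} = 𝔭.asIdeal := Ideal.span_singleton_generator _
  have hg0 : g ≠ 0 := by
    intro h
    rw [h] at h1
    exact 𝔭.ne_bot (by rw [← h1]; simp)
  have h2 : Ideal.span {normalize g} = 𝔭.asIdeal := by
    rw [← h1, Ideal.span_singleton_eq_span_singleton]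
    exact normalize_associated g
  have h3 : Irreducible (normalize g) := by
    have h4 : normalize g ≠ 0 := by rwa [Ne, normalize_eq_zero]
    refine ((Ideal.span_singleton_prime h4).1 ?_).irreducible
    rw [h2]; exact 𝔭.isPrime
  exact ⟨normalize g, h3, monic_normalize hg0, HeightOneSpectrum.ext h2.symm⟩

variable {K}

theorem ord_prm_self {P : F[X]} (hP : Irreducible P) :
    ord ((prm P hP).valuation K) (pe K P) = 1 := by
  rw [ord, pe_coe K hP.ne_zero, HeightOneSpectrum.valuation_of_algebraMap,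
    HeightOneSpectrum.intValuation_singleton _ hP.ne_zero rfl, WithZero.log_exp]
  rfl

theorem mem_prm {P : F[X]} {hP : Irreducible P} {g : F[X]} :
    g ∈ (prm P hP).asIdeal ↔ P ∣ g := Ideal.mem_span_singleton

theorem ord_prm_of_not_dvd {P : F[X]} (hP : Irreducible P) {g : F[X]} (h : ¬ P ∣ g) :
    ord ((prm P hP).valuation K) (pe K g) = 0 := by
  have hg : g ≠ 0 := by rintro rfl; exact h (dvd_zero _)
  rw [ord_eq_zero, pe_coe K hg, HeightOneSpectrum.valuation_eq_one_iff_notMem, mem_prm]
  exact h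

theorem ord_prm_of_natDegree_lt {P : F[X]} (hP : Irreducible P) {g : F[X]} (hg : g ≠ 0)
    (h : g.natDegree < P.natDegree) : ord ((prm P hP).valuation K) (pe K g) = 0 :=
  ord_prm_of_not_dvd hP fun hd => absurd (natDegree_le_of_dvd hd hg) (not_le.2 h)

theorem prm_mem_hor {P : F[X]} (hP : Irreducible P) : (prm P hP).valuation K ∈ hor F K :=
  ⟨_, rfl⟩

theorem tam_UU {m : ℕ} {P : F[X]} (hP : Irreducible P) (hm : m < P.natDegree) {x : K2 K}
    (hx : x ∈ UU (F := F) K m) : tam {(prm P hP).valuation K} x = 0 := by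
  rw [UU] at hx
  induction hx using AddSubgroup.closure_induction with
  | mem x hx =>
    obtain ⟨f, g, hf, hg, hfm, hgm, rfl⟩ := hx
    rw [tam_sy, PiX.mk_eq_zero]
    intro w hw
    rw [Set.mem_singleton_iff] at hw
    subst hw
    rw [tame_zero (ord_prm_of_natDegree_lt hP hf (by omega))
      (ord_prm_of_natDegree_lt hP hg (by omega))]
    exact (pu _).one_mem
  | zero => exact map_zero _
  | add x y _ _ hx hy => rw [map_add, hx, hy, add_zero]
  | neg x _ hx => rw [map_neg, hx, neg_zero]

theorem MI.ne {m : ℕ} {P Q : F[X]} (hP : MI F m P) (hQ : MI F m Q) (h : P ≠ Q) : ¬ P ∣ Q := by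
  intro hd
  exact h (eq_of_monic_of_associated hP.1 hQ.1 (hP.2.1.associated_of_dvd hQ.2.1 hd))

theorem step_inj {m : ℕ} {x : K2 K} (hx : x ∈ UU (F := F) K (m + 1)) (h0 : tam (hor F K) x = 0) :
    x ∈ UU (F := F) K m := by
  obtain ⟨T, g, hT, hg, hg', hx⟩ := UU_le_WW m hx
  have key : ∀ P ∈ T, g P = 1 := by
    intro P hP
    have hMI : MI F m P := hT P hP
    have hi := hMI.2.1
    have h1 : tam {(prm P hi).valuation K} x = 0 :=
      tam_mono (Set.singleton_subset_iff.2 (prm_mem_hor hi)) h0
    have h2 := tam_UU (K := K) hi (m := m) (by rw [hMI.2.2]; omega) hx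
    rw [map_sub, h1, zero_sub, neg_eq_zero, map_sum, Finset.sum_eq_single P] at h2
    · rw [tam_sy, PiX.mk_eq_zero] at h2
      have h3 := h2 _ rfl
      have h4 : tame ((prm P hi).valuation K) (pe K P) (pe K (g P)) =
          -Additive.ofMul (pe K (g P)) := by
        rw [tame, ord_prm_self, ord_prm_of_natDegree_lt hi (hg P).1 (by
          have := (hg P).2
          have := hMI.2.2
          omega)]
        simp
      rw [h4, toMul_neg, toMul_ofMul, inv_mem_iff, mem_pu, pe_coe K (hg P).1, ← map_one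
        (algebraMap F[X] K), ← map_sub, HeightOneSpectrum.valuation_lt_one_iff_mem, mem_prm] at h3
      have h5 : (g P - 1).natDegree < P.natDegree := by
        have h6 : (g P - 1).natDegree ≤ m := (natDegree_sub_le _ _).trans (by
          rw [natDegree_one]; exact max_le (hg P).2 (Nat.zero_le _))
        have := hMI.2.2
        omega
      exact sub_eq_zero.1 (eq_zero_of_dvd_of_natDegree_lt h3 h5)
    · intro Q hQ hQP
      have hMQ : MI F m Q := hT Q hQ
      rw [tam_sy, PiX.mk_eq_zero]
      intro w hw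
      rw [Set.mem_singleton_iff] at hw
      subst hw
      rw [tame_zero (ord_prm_of_not_dvd hi (hMI.ne hMQ (Ne.symm hQP)))
        (ord_prm_of_natDegree_lt hi (hg Q).1 (by
          have := (hg Q).2
          have := hMI.2.2
          omega))]
      exact (pu _).one_mem
    · intro h; exact absurd hP h
  rw [Finset.sum_eq_zero, sub_zero] at hx
  · exact hx
  · intro P hP
    rw [key P hP, pe_one, sy_one_right]

theorem exists_mem_UU (x : K2 K) : ∃ n, x ∈ UU (F := F) K n := by
  induction x using K2.induction with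
  | h0 => exact ⟨0, AddSubgroup.zero_mem _⟩
  | hs a b =>
    have key : ∀ a : Kˣ, ∃ n, a ∈ Subgroup.closure (SS F K n) := by
      intro a
      obtain ⟨f, g, hg, hfg⟩ := IsFractionRing.div_surjective (A := F[X]) (a : K)
      have hg0 : g ≠ 0 := nonZeroDivisors.ne_zero hg
      have hf0 : f ≠ 0 := by
        rintro rfl
        rw [map_zero, zero_div] at hfg
        exact a.ne_zero hfg.symm
      refine ⟨max f.natDegree g.natDegree, ?_⟩
      have : a = pe K f / pe K g := by
        ext
        rw [Units.val_div_eq_div_val, pe_coe K hf0, pe_coe K hg0, hfg]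
      rw [this]
      exact Subgroup.div_mem _ (mem_SS hf0 (le_max_left _ _)) (mem_SS hg0 (le_max_right _ _))
    obtain ⟨n, hn⟩ := key a
    obtain ⟨n', hn'⟩ := key b
    have hmono : ∀ {i j : ℕ}, i ≤ j → Subgroup.closure (SS F K i) ≤ Subgroup.closure (SS F K j) :=
      fun {i j} hij => Subgroup.closure_mono (by
        rintro _ ⟨f, hf, hfn, rfl⟩
        exact ⟨f, hf, hfn.trans hij, rfl⟩)
    exact ⟨max n n', sy_mem_UU (hmono (le_max_left _ _) hn) (hmono (le_max_right _ _) hn')⟩
  | ha x y hx hy =>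
    obtain ⟨n, hn⟩ := hx
    obtain ⟨n', hn'⟩ := hy
    exact ⟨max n n', AddSubgroup.add_mem _ (UU_mono (le_max_left _ _) hn)
      (UU_mono (le_max_right _ _) hn')⟩

theorem UU_zero_le : UU (F := F) K 0 ≤ (K2.map (cst F K)).range := by
  rw [UU, AddSubgroup.closure_le]
  have key : ∀ f : F[X], f ≠ 0 → f.natDegree ≤ 0 → ∃ a : Fˣ, pe K f =
      Units.map (cst F K).toMonoidHom a := by
    intro f hf hf0
    have h1 : f = C (f.coeff 0) := eq_C_of_natDegree_le_zero hf0
    have h2 : f.coeff 0 ≠ 0 := by
      intro h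
      rw [h, C_0] at h1
      exact hf h1
    refine ⟨Units.mk0 _ h2, ?_⟩
    ext
    rw [pe_coe K hf]
    conv_lhs => rw [h1]
    rfl
  rintro _ ⟨f, g, hf, hg, hf0, hg0, rfl⟩
  obtain ⟨a, ha⟩ := key f hf hf0
  obtain ⟨b, hb⟩ := key g hg hg0
  exact ⟨sy a b, by rw [K2.map_sy, ha, hb]⟩

/-- **Milnor's theorem**, injectivity: an element of `K₂ F(X)` without residues is constant. -/
theorem milnor_inj {x : K2 K} (h0 : tam (hor F K) x = 0) : ∃ y, K2.map (cst F K) y = x := by
  obtain ⟨n, hn⟩ := exists_mem_UU (F := F) x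
  have : x ∈ UU (F := F) K 0 := by
    induction n with
    | zero => exact hn
    | succ n ih => exact ih (step_inj hn h0)
  exact UU_zero_le this

theorem valuation_inj {𝔭 𝔮 : HeightOneSpectrum F[X]} (h : 𝔭.valuation K = 𝔮.valuation K) :
    𝔭 = 𝔮 := by
  ext r
  rw [← HeightOneSpectrum.valuation_lt_one_iff_mem (K := K), h,
    HeightOneSpectrum.valuation_lt_one_iff_mem]

theorem sgl_mem_range (n : ℕ) : ∀ (P : F[X]) (hP : Irreducible P), P.Monic → P.natDegree = n →
    ∀ a : Additive Kˣ, (prm P hP).valuation K (a.toMul : K) = 1 →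
      sgl (hor F K) ((prm P hP).valuation K) a ∈ (tam (hor F K)).range := by
  classical
  induction n using Nat.strong_induction_on with
  | _ n ih =>
    intro P hP hPm hPn a ha
    set v := (prm P hP).valuation K with hv
    obtain ⟨r, hr⟩ := HeightOneSpectrum.exists_valuation_sub_lt_of_integer (K := K) (prm P hP)
      (x := (a.toMul : K)) ha.le 1
    rw [← hv, Units.val_one] at hr
    have hP1 : P ≠ 1 := hP.ne_one
    set g := r %ₘ P with hg
    have hga : v (algebraMap F[X] K g - (a.toMul : K)) < 1 := by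
      have h1 : algebraMap F[X] K g - (a.toMul : K) =
          (algebraMap F[X] K r - (a.toMul : K)) - algebraMap F[X] K (P * (r /ₘ P)) := by
        have h2 : g = r - P * (r /ₘ P) := eq_sub_of_add_eq (modByMonic_add_div r P)
        rw [h2, map_sub]; ring
      rw [h1]
      refine lt_of_le_of_lt (v.map_sub _ _) (max_lt hr ?_)
      rw [hv, HeightOneSpectrum.valuation_lt_one_iff_mem, mem_prm]
      exact dvd_mul_right _ _
    have hvg : v (algebraMap F[X] K g) = 1 := by
      have h1 : algebraMap F[X] K g = (algebraMap F[X] K g - (a.toMul : K)) + (a.toMul : K) := by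
        ring
      rw [h1, Valuation.map_add_eq_of_lt_right v (by rw [ha]; exact hga), ha]
    have hg0 : g ≠ 0 := by
      intro h
      rw [h, map_zero, map_zero] at hvg
      exact zero_ne_one hvg
    have hgd : g.natDegree < P.natDegree := natDegree_modByMonic_lt r hPm hP1
    have hfin : {𝔮 : HeightOneSpectrum F[X] | 𝔮.asIdeal ∣ Ideal.span {g}}.Finite :=
      Ideal.finite_factors (by rwa [Ne, Ideal.zero_eq_bot, Ideal.span_singleton_eq_bot])
    set S' : Finset (Val K) := hfin.toFinset.image (fun 𝔮 => 𝔮.valuation K) with hS'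
    have hvS : v ∉ S' := by
      rw [hS', Finset.mem_image]
      rintro ⟨𝔮, h𝔮, h⟩
      have h2 : 𝔮 = prm P hP := valuation_inj h
      rw [Set.Finite.mem_toFinset, Set.mem_ofPred_eq, h2,
        ← HeightOneSpectrum.valuation_lt_one_iff_dvd (K := K), ← hv, hvg] at h𝔮
      exact lt_irrefl _ h𝔮
    set f0 : Val K → Additive Kˣ := fun w => -tame w (pe K P) (pe K g) with hf0
    have h3 : tam (hor F K) (-sy (pe K P) (pe K g)) = PiX.mk (hor F K) f0 := by
      rw [map_neg, tam_sy, ← map_neg]; rfl
    have h4 : PiX.mk (hor F K) f0 = ∑ w ∈ insert v S', sgl (hor F K) w (f0 w) := by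
      refine mk_eq_sum _ _ _ ?_
      rintro _ ⟨𝔮, rfl⟩ hw
      rw [Finset.mem_insert, not_or] at hw
      obtain ⟨Q, hQ, hQm, rfl⟩ := exists_prm 𝔮
      have h5 : ¬ Q ∣ g := by
        intro hd
        apply hw.2
        rw [hS', Finset.mem_image]
        refine ⟨prm Q hQ, ?_, rfl⟩
        rw [Set.Finite.mem_toFinset, Set.mem_ofPred_eq, Ideal.dvd_span_singleton, mem_prm]
        exact hd
      have h6 : ¬ Q ∣ P := by
        intro hd
        have : Q = P := eq_of_monic_of_associated hQm hPm (hQ.associated_of_dvd hP hd)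
        subst this
        exact hw.1 rfl
      change (-tame _ (pe K P) (pe K g)).toMul ∈ pu _
      rw [tame_zero (ord_prm_of_not_dvd hQ h6) (ord_prm_of_not_dvd hQ h5), neg_zero]
      exact (pu _).one_mem
    have h7 : sgl (hor F K) v (f0 v) = sgl (hor F K) v a := by
      refine sgl_eq ?_
      have h8 : f0 v = Additive.ofMul (pe K g) := by
        rw [hf0]
        change -tame v (pe K P) (pe K g) = _
        rw [tame, hv, ord_prm_self, ord_prm_of_natDegree_lt hP hg0 hgd]
        simp
      rw [h8, toMul_sub, toMul_ofMul, mem_pu, Units.val_div_eq_div_val, pe_coe K hg0]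
      have h9 : algebraMap F[X] K g / (a.toMul : K) - 1 =
          (algebraMap F[X] K g - (a.toMul : K)) / (a.toMul : K) := by
        rw [sub_div, div_self a.toMul.ne_zero]
      rw [h9, map_div₀, ha, div_one]
      exact hga
    rw [Finset.sum_insert hvS, h7, ← h3] at h4
    have h10 : sgl (hor F K) v a = tam (hor F K) (-sy (pe K P) (pe K g)) -
        ∑ w ∈ S', sgl (hor F K) w (f0 w) := by rw [h4]; abel
    rw [h10]
    refine AddSubgroup.sub_mem _ ⟨_, rfl⟩ (AddSubgroup.sum_mem _ fun w hw => ?_)
    rw [hS', Finset.mem_image] at hw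
    obtain ⟨𝔮, h𝔮, rfl⟩ := hw
    obtain ⟨Q, hQ, hQm, rfl⟩ := exists_prm 𝔮
    rw [Set.Finite.mem_toFinset, Set.mem_ofPred_eq, Ideal.dvd_span_singleton, mem_prm] at h𝔮
    refine ih Q.natDegree ?_ Q hQ hQm rfl _ ?_
    · have := natDegree_le_of_dvd h𝔮 hg0
      omega
    · rw [← ord_eq_zero]
      change ord _ (-tame _ (pe K P) (pe K g)).toMul = 0
      rw [toMul_neg, ord_inv, ord_tame, neg_zero]

/-- **Milnor's theorem**, surjectivity. -/
theorem milnor_surj {d : PiX (hor F K)} (hd : d ∈ DX (hor F K)) : ∃ x, tam (hor F K) x = d := by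
  classical
  obtain ⟨f, hf, hf', rfl⟩ := hd
  have h1 := mk_eq_sum (hor F K) f (hf.toFinset.filter (· ∈ hor F K)) (by
    intro w hw hw'
    rw [Finset.mem_filter, Set.Finite.mem_toFinset, not_and] at hw'
    by_cases h : f w = 0
    · rw [h]; exact (pu w).one_mem
    · exact absurd hw (hw' h))
  rw [h1]
  change _ ∈ (tam (hor F K)).range
  refine AddSubgroup.sum_mem _ fun w hw => ?_
  rw [Finset.mem_filter] at hw
  obtain ⟨𝔭, h𝔭⟩ := hw.2
  obtain ⟨P, hP, hPm, rfl⟩ := exists_prm 𝔭
  have h2 := hf' w hw.2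
  subst h𝔭
  exact sgl_mem_range _ P hP hPm rfl _ h2

end

end Run7.h34
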