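import Pool.Agent.Run7.h34.Line

/-! The function field of the plane, with its two projections. -/

set_option linter.unusedSectionVars false

namespace Run7.h34

open Polynomial

section rat

variable {F : Type*} [Field F] {F' : Type*} [Field F'] {L : Type*} [Field L]

/-- A homomorphism out of a rational function field. -/
noncomputable def rlift (j : F[X] →+* L) (hj : Function.Injective j) : RatFunc F →+* L :=
  IsFractionRing.lift hj

@[simp] theorem rlift_alg (j : F[X] →+* L) (hj : Function.Injective j) (f : F[X]) :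
    rlift j hj (algebraMap F[X] (RatFunc F) f) = j f := IsFractionRing.lift_algebraMap hj f

theorem rhom_ext {f g : RatFunc F →+* L} (h : ∀ p : F[X], f (algebraMap F[X] (RatFunc F) p) =
    g (algebraMap F[X] (RatFunc F) p)) : f = g :=
  IsLocalization.ringHom_ext (nonZeroDivisors F[X]) (RingHom.ext h)

theorem rhom_ext' {f g : RatFunc F →+* L} (h : ∀ a : F, f (RatFunc.C a) = g (RatFunc.C a))
    (h' : f RatFunc.X = g RatFunc.X) : f = g := by
  refine rhom_ext fun p => ?_
  have : (f.comp (algebraMap F[X] (RatFunc F))) = (g.comp (algebraMap F[X] (RatFunc F))) := by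
    refine Polynomial.ringHom_ext (fun a => ?_) ?_
    · rw [RingHom.comp_apply, RingHom.comp_apply, RatFunc.algebraMap_C, h]
    · rw [RingHom.comp_apply, RingHom.comp_apply, RatFunc.algebraMap_X, h']
  exact RingHom.congr_fun this p

/-- The action on coefficients. -/
noncomputable def rmap (σ : F →+* F') : RatFunc F →+* RatFunc F' :=
  rlift ((algebraMap F'[X] (RatFunc F')).comp (Polynomial.mapRingHom σ))
    ((IsFractionRing.injective F'[X] (RatFunc F')).comp (Polynomial.map_injective σ σ.injective))

theorem rmap_alg (σ : F →+* F') (f : F[X]) : rmap σ (algebraMap F[X] (RatFunc F) f) =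
    algebraMap F'[X] (RatFunc F') (f.map σ) := rlift_alg _ _ _

theorem rmap_C (σ : F →+* F') (a : F) : rmap σ (RatFunc.C a) = RatFunc.C (σ a) := by
  rw [← RatFunc.algebraMap_C, rmap_alg, map_C, RatFunc.algebraMap_C]

theorem rmap_X (σ : F →+* F') : rmap σ RatFunc.X = RatFunc.X := by
  rw [← RatFunc.algebraMap_X, rmap_alg, map_X, RatFunc.algebraMap_X]

theorem rmap_id : rmap (RingHom.id F) = RingHom.id (RatFunc F) :=
  rhom_ext' (fun a => rmap_C _ a) (rmap_X _)

theorem rmap_comp {F'' : Type*} [Field F''] (τ : F' →+* F'') (σ : F →+* F') :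
    rmap (τ.comp σ) = (rmap τ).comp (rmap σ) :=
  rhom_ext' (fun a => by rw [RingHom.comp_apply, rmap_C, rmap_C, rmap_C]; rfl)
    (by rw [RingHom.comp_apply, rmap_X, rmap_X, rmap_X])

/-- The action on coefficients as a monoid homomorphism. -/
noncomputable def rmapHom {G : Type*} [Group G] (ρ : G →* (F →+* F)) :
    G →* (RatFunc F →+* RatFunc F) where
  toFun g := rmap (ρ g)
  map_one' := by rw [map_one]; exact rmap_id
  map_mul' g h := by rw [map_mul]; exact rmap_comp _ _

end rat

section two

variable {k : Type*} [Field k] {E : Type*} [Field E]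

/-- Evaluation of polynomials in two variables. -/
noncomputable def ev (c : k →+* E) (x y : E) : k[X][X] →+* E :=
  Polynomial.eval₂RingHom (Polynomial.eval₂RingHom c x) y

theorem ev_C (c : k →+* E) (x y : E) (f : k[X]) : ev c x y (C f) = f.eval₂ c x := by
  rw [ev, coe_eval₂RingHom, eval₂_C, coe_eval₂RingHom]

theorem ev_CC (c : k →+* E) (x y : E) (a : k) : ev c x y (C (C a)) = c a := by
  rw [ev_C, eval₂_C]

theorem ev_CX (c : k →+* E) (x y : E) : ev c x y (C X) = x := by
  rw [ev_C, eval₂_X]

theorem ev_X (c : k →+* E) (x y : E) : ev c x y X = y := by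
  rw [ev, coe_eval₂RingHom, eval₂_X]

theorem hom2_ext {A : Type*} [Semiring A] {f g : k[X][X] →+* A} (h : ∀ a, f (C (C a)) = g (C (C a)))
    (h1 : f (C X) = g (C X)) (h2 : f X = g X) : f = g := by
  refine Polynomial.ringHom_ext' (Polynomial.ringHom_ext' (RingHom.ext h) h1) h2

theorem ev_swap (c : k →+* E) (x y : E) (f : k[X][X]) :
    ev c x y (Polynomial.Bivariate.swap f) = ev c y x f := by
  have : (ev c x y).comp (Polynomial.Bivariate.swap (R := k) : k[X][X] →+* k[X][X]) =
      ev c y x := by
    refine hom2_ext (fun a => ?_) ?_ ?_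
    · change ev c x y (Polynomial.Bivariate.swap (C (C a))) = _
      rw [Polynomial.Bivariate.swap_C_C, ev_CC, ev_CC]
    · change ev c x y (Polynomial.Bivariate.swap (C X)) = _
      rw [Polynomial.Bivariate.swap_X, ev_X, ev_CX]
    · change ev c x y (Polynomial.Bivariate.swap X) = _
      rw [Polynomial.Bivariate.swap_Y, ev_X, ev_CX]
  exact RingHom.congr_fun this f

theorem ev_swap_injective {c : k →+* E} {x y : E} (h : Function.Injective (ev c x y)) :
    Function.Injective (ev c y x) := by
  intro f g hfg
  rw [← ev_swap c x y f, ← ev_swap c x y g] at hfg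
  exact (Polynomial.Bivariate.swap (R := k)).injective (h hfg)

theorem ev1_injective {c : k →+* E} {x y : E} (h : Function.Injective (ev c x y)) :
    Function.Injective (Polynomial.eval₂RingHom c x) := by
  intro f g hfg
  have : ev c x y (C f) = ev c x y (C g) := by rw [ev_C, ev_C]; exact hfg
  exact C_injective (h this)

/-- The homomorphism from the field of rational functions in one variable. -/
noncomputable def io1 (c : k →+* E) (x y : E) (h : Function.Injective (ev c x y)) :
    RatFunc k →+* E := rlift (Polynomial.eval₂RingHom c x) (ev1_injective h)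

theorem io1_alg (c : k →+* E) (x y : E) (h : Function.Injective (ev c x y)) (f : k[X]) :
    io1 c x y h (algebraMap k[X] (RatFunc k) f) = f.eval₂ c x := rlift_alg _ _ _

/-- Clearing denominators. -/
theorem exists_clear (f : (RatFunc k)[X]) : ∃ (d : k[X]) (g : k[X][X]), d ≠ 0 ∧
    g.map (algebraMap k[X] (RatFunc k)) = C (algebraMap k[X] (RatFunc k) d) * f := by
  obtain ⟨b, hb0, hb⟩ := IsLocalization.integerNormalization_spec (nonZeroDivisors k[X]) f
  refine ⟨b, IsLocalization.integerNormalization (nonZeroDivisors k[X]) f,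
    nonZeroDivisors.ne_zero hb0, ?_⟩
  rw [hb, Algebra.smul_def]
  rfl

theorem ev2_injective {c : k →+* E} {x y : E} (h : Function.Injective (ev c x y)) :
    Function.Injective (Polynomial.eval₂RingHom (io1 c x y h) y) := by
  rw [injective_iff_map_eq_zero]
  intro f hf
  obtain ⟨d, g, hd, hg⟩ := exists_clear f
  have h1 : ev c x y g = Polynomial.eval₂RingHom (io1 c x y h) y
      (g.map (algebraMap k[X] (RatFunc k))) := by
    rw [coe_eval₂RingHom, eval₂_map, ev, coe_eval₂RingHom]
    congr 1
    ext a
    · simp only [RingHom.comp_apply, io1_alg]; simp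
    · simp only [RingHom.comp_apply, io1_alg]; simp
  rw [hg, map_mul, hf, mul_zero] at h1
  have h2 : g = 0 := h (by rw [h1, map_zero])
  rw [h2, Polynomial.map_zero, eq_comm, mul_eq_zero] at hg
  refine hg.resolve_left ?_
  rw [C_eq_zero]
  exact algebraMap_ne _ hd

/-- The homomorphism from the field of rational functions in two variables. -/
noncomputable def io2 (c : k →+* E) (x y : E) (h : Function.Injective (ev c x y)) :
    RatFunc (RatFunc k) →+* E :=
  rlift (Polynomial.eval₂RingHom (io1 c x y h) y) (ev2_injective h)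

theorem io2_alg (c : k →+* E) (x y : E) (h : Function.Injective (ev c x y)) (f : (RatFunc k)[X]) :
    io2 c x y h (algebraMap (RatFunc k)[X] (RatFunc (RatFunc k)) f) =
      f.eval₂ (io1 c x y h) y := rlift_alg _ _ _

theorem io2_C (c : k →+* E) (x y : E) (h : Function.Injective (ev c x y)) (a : RatFunc k) :
    io2 c x y h (RatFunc.C a) = io1 c x y h a := by
  rw [← RatFunc.algebraMap_C, io2_alg, eval₂_C]

theorem io2_CC (c : k →+* E) (x y : E) (h : Function.Injective (ev c x y)) (a : k) :
    io2 c x y h (RatFunc.C (RatFunc.C a)) = c a := by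
  rw [io2_C, ← RatFunc.algebraMap_C, io1_alg, eval₂_C]

theorem io2_CX (c : k →+* E) (x y : E) (h : Function.Injective (ev c x y)) :
    io2 c x y h (RatFunc.C RatFunc.X) = x := by
  rw [io2_C, ← RatFunc.algebraMap_X, io1_alg, eval₂_X]

theorem io2_X (c : k →+* E) (x y : E) (h : Function.Injective (ev c x y)) :
    io2 c x y h RatFunc.X = y := by
  rw [← RatFunc.algebraMap_X, io2_alg, eval₂_X]

theorem rhom2_ext {f g : RatFunc (RatFunc k) →+* E}
    (h : ∀ a : k, f (RatFunc.C (RatFunc.C a)) = g (RatFunc.C (RatFunc.C a)))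
    (h1 : f (RatFunc.C RatFunc.X) = g (RatFunc.C RatFunc.X)) (h2 : f RatFunc.X = g RatFunc.X) :
    f = g := by
  refine rhom_ext' (fun a => ?_) h2
  have : f.comp (RatFunc.C) = g.comp (RatFunc.C) := rhom_ext' h h1
  exact RingHom.congr_fun this a

variable (k) in
/-- The constants in the field of rational functions in two variables. -/
noncomputable def cc : k →+* RatFunc (RatFunc k) := RatFunc.C.comp RatFunc.C

theorem ev_cc (f : k[X][X]) : ev (cc k) (RatFunc.C RatFunc.X) RatFunc.X f =
    algebraMap (RatFunc k)[X] (RatFunc (RatFunc k)) (f.map (algebraMap k[X] (RatFunc k))) := by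
  have : ev (cc k) (RatFunc.C RatFunc.X) RatFunc.X =
      (algebraMap (RatFunc k)[X] (RatFunc (RatFunc k))).comp
        (Polynomial.mapRingHom (algebraMap k[X] (RatFunc k))) := by
    refine hom2_ext (fun a => ?_) ?_ ?_
    · rw [ev_CC, RingHom.comp_apply, coe_mapRingHom, map_C, RatFunc.algebraMap_C,
        RatFunc.algebraMap_C]
      rfl
    · rw [ev_CX, RingHom.comp_apply, coe_mapRingHom, map_C, RatFunc.algebraMap_C,
        RatFunc.algebraMap_X]
    · rw [ev_X, RingHom.comp_apply, coe_mapRingHom, map_X, RatFunc.algebraMap_X]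
  exact RingHom.congr_fun this f

theorem ev_cc_injective : Function.Injective (ev (cc k) (RatFunc.C RatFunc.X) RatFunc.X) := by
  intro f g hfg
  rw [ev_cc, ev_cc] at hfg
  exact Polynomial.map_injective _ (IsFractionRing.injective k[X] (RatFunc k))
    (IsFractionRing.injective (RatFunc k)[X] (RatFunc (RatFunc k)) hfg)

variable (k) in
/-- The exchange of the two variables. -/
noncomputable def swp : RatFunc (RatFunc k) →+* RatFunc (RatFunc k) :=
  io2 (cc k) RatFunc.X (RatFunc.C RatFunc.X) (ev_swap_injective ev_cc_injective)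

theorem swp_CC (a : k) : swp k (RatFunc.C (RatFunc.C a)) = RatFunc.C (RatFunc.C a) :=
  io2_CC _ _ _ _ _

variable (k) in
theorem swp_CX : swp k (RatFunc.C RatFunc.X) = RatFunc.X := io2_CX _ _ _ _

variable (k) in
theorem swp_X : swp k RatFunc.X = RatFunc.C (RatFunc.X : RatFunc k) := io2_X _ _ _ _

theorem swp_swp : (swp k).comp (swp k) = RingHom.id _ := by
  refine rhom2_ext (fun a => ?_) ?_ ?_
  · rw [RingHom.comp_apply, swp_CC, swp_CC]; rfl
  · rw [RingHom.comp_apply, swp_CX, swp_X]; rfl
  · rw [RingHom.comp_apply, swp_X, swp_CX]; rfl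

theorem swp_rmap (σ : k →+* k) : (swp k).comp (rmap (rmap σ)) = (rmap (rmap σ)).comp (swp k) := by
  refine rhom2_ext (fun a => ?_) ?_ ?_
  · simp only [RingHom.comp_apply, swp_CC, rmap_C]
  · simp only [RingHom.comp_apply, swp_CX, rmap_C, rmap_X]
  · simp only [RingHom.comp_apply, swp_X, rmap_C, rmap_X]

/-- The second inclusion of the rational functions in one variable. -/
theorem swp_C_alg (f : k[X]) : swp k (RatFunc.C (algebraMap k[X] (RatFunc k) f)) =
    algebraMap (RatFunc k)[X] (RatFunc (RatFunc k)) (f.map RatFunc.C) := by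
  have : ((swp k).comp RatFunc.C).comp (algebraMap k[X] (RatFunc k)) =
      (algebraMap (RatFunc k)[X] (RatFunc (RatFunc k))).comp (Polynomial.mapRingHom RatFunc.C) := by
    refine Polynomial.ringHom_ext (fun a => ?_) ?_
    · simp only [RingHom.comp_apply, RatFunc.algebraMap_C, swp_CC, coe_mapRingHom, map_C]
    · simp only [RingHom.comp_apply, RatFunc.algebraMap_X, swp_CX, coe_mapRingHom, map_X]
  exact RingHom.congr_fun this f

end two

end Run7.h34
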