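import Pool.Agent.Run7.h34.Plane

/-! Vanishing for the plane. -/

set_option linter.unusedSectionVars false

namespace Run7.h34

open Polynomial

section

variable {G : Type*} [Group G] {k : Type*} [Field k]

theorem ρ_inv_apply {E : Type*} [Field E] (ρ : G →* (E →+* E)) (g : G) (e : E) :
    ρ g (ρ g⁻¹ e) = e := by
  have h : ρ g * ρ g⁻¹ = 1 := by rw [← map_mul, mul_inv_cancel, map_one]
  exact RingHom.congr_fun h e

theorem comap_surjective {E : Type*} [Field E] (ρ : G →* (E →+* E)) (g : G) {w : Val E}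
    (hw : Function.Surjective w) : Function.Surjective (w.comap (ρ g)) := by
  intro y
  obtain ⟨x, rfl⟩ := hw y
  exact ⟨ρ g⁻¹ x, by rw [Valuation.comap_apply, ρ_inv_apply]⟩

/-- The field of rational functions in one variable with its action. -/
noncomputable def S1 (ρk : G →* (k →+* k)) : Setup G k (RatFunc k) where
  c := RatFunc.C
  ρk := ρk
  ρ := rmapHom ρk
  hc _ _ := rmap_C _ _
  X := ∅
  hX _ w hw := absurd hw (Set.notMem_empty w)
  hX0 w hw := absurd hw (Set.notMem_empty w)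

/-- The field of rational functions in two variables with its action and the valuations of the
irreducible polynomials in the second variable. -/
noncomputable def S2 (ρk : G →* (k →+* k)) : Setup G k (RatFunc (RatFunc k)) where
  c := cc k
  ρk := ρk
  ρ := rmapHom (rmapHom ρk)
  hc g a := by
    change rmap (rmap (ρk g)) (RatFunc.C (RatFunc.C a)) = RatFunc.C (RatFunc.C (ρk g a))
    rw [rmap_C, rmap_C]
  X := hor (RatFunc k) (RatFunc (RatFunc k))
  hX g w hw := by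
    rw [mem_hor_iff] at hw ⊢
    refine ⟨comap_surjective _ g hw.1, fun f => ?_⟩
    rw [Valuation.comap_apply]
    change w (rmap (rmap (ρk g)) _) ≤ 1
    rw [rmap_alg]
    exact hw.2 _
  hX0 w hw a ha := by
    rw [mem_hor_iff] at hw
    have h1 : ∀ a : k, w (cc k a) ≤ 1 := by
      intro a
      have := hw.2 (C (RatFunc.C a))
      rwa [RatFunc.algebraMap_C] at this
    refine le_antisymm (h1 a) ?_
    have h2 := h1 a⁻¹
    rw [map_inv₀, map_inv₀] at h2
    have h3 : w (cc k a) ≠ 0 := (w.ne_zero_iff).2 ((_root_.map_ne_zero _).2 ha)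
    exact (inv_le_one₀ (zero_lt_iff.2 h3)).1 h2

theorem swp_const (ρk : G →* (k →+* k)) (y : K2 k) :
    (S2 ρk).q (K2.map (swp k) (K2.map (S2 ρk).c y)) = 0 := by
  rw [K2.map_map, (S2 ρk).q_eq_zero]
  refine ⟨y, ?_⟩
  congr 2
  ext a
  exact (swp_CC a).symm

/-- The exchange of the variables on the coefficients. -/
noncomputable def tM (ρk : G →* (k →+* k)) : (S2 ρk).M →+ (S2 ρk).M :=
  (S2 ρk).mapM (S2 ρk) (K2.map (swp k)) (swp_const ρk)

theorem tM_act (ρk : G →* (k →+* k)) (g : G) (m : (S2 ρk).M) :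
    tM ρk ((S2 ρk).act g m) = (S2 ρk).act g (tM ρk m) := by
  refine (S2 ρk).mapM_act (S2 ρk) _ _ (fun g x => ?_) g m
  rw [K2.map_map, K2.map_map]
  congr 2
  exact swp_rmap _

theorem S12_c (ρk : G →* (k →+* k)) (a : k) :
    (S2 ρk).c a = cst (RatFunc k) (RatFunc (RatFunc k)) ((S1 ρk).c a) := by
  change RatFunc.C (RatFunc.C a) = algebraMap _ _ (C (RatFunc.C a))
  rw [RatFunc.algebraMap_C]

theorem S12_ρ (ρk : G →* (k →+* k)) (g : G) (f : (RatFunc k)[X]) :
    (S2 ρk).ρ g (algebraMap (RatFunc k)[X] (RatFunc (RatFunc k)) f) =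
      algebraMap (RatFunc k)[X] (RatFunc (RatFunc k)) (f.map ((S1 ρk).ρ g)) :=
  rmap_alg _ _

theorem lc_swp (x : K2 (RatFunc k)) : sLC (RatFunc k) (RatFunc (RatFunc k))
    (K2.map (swp k) (K2.map (cst (RatFunc k) (RatFunc (RatFunc k))) x)) =
      K2.map RatFunc.C (sLC k (RatFunc k) x) := by
  rw [K2.map_map]
  refine sLC_map (F := k) (K := RatFunc k) (F' := RatFunc k) (K' := RatFunc (RatFunc k))
    RatFunc.C ((swp k).comp (cst (RatFunc k) (RatFunc (RatFunc k)))) (fun f => ?_) x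
  rw [RingHom.comp_apply, ← swp_C_alg]
  congr 1

theorem lc_swp_inc (ρk : G →* (k →+* k)) (m : (S1 ρk).M) :
    lcM (S1 ρk) (S2 ρk) (S12_c ρk) (tM ρk (incM (S1 ρk) (S2 ρk) (S12_c ρk) m)) = 0 := by
  obtain ⟨x, rfl⟩ := (S1 ρk).q_surjective m
  rw [incM, Setup.mapM_q, tM, Setup.mapM_q, lcM, Setup.mapM_q, lc_swp]
  exact (S1 ρk).q_map_c _

variable [TopologicalSpace G]

/-- **Vanishing for the plane.** -/
theorem plane_main (ρk : G →* (k →+* k)) {α : H2 (S2 ρk).act} (hα : α ∈ (S2 ρk).N)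
    (hα' : H2.mapM (tM ρk) (tM_act ρk) α ∈ (S2 ρk).N) : α = 0 := by
  have h1 := line_main (S1 ρk) (S2 ρk) (S12_c ρk) rfl (S12_ρ ρk) hα
  have h2 := line_main (S1 ρk) (S2 ρk) (S12_c ρk) rfl (S12_ρ ρk) hα'
  set β := H2.mapM (lcM (S1 ρk) (S2 ρk) (S12_c ρk)) (lcM_act (S1 ρk) (S2 ρk) (S12_c ρk) (S12_ρ ρk))
    (H2.mapM (tM ρk) (tM_act ρk) α) with hβ
  have h3 : H2.mapM (tM ρk) (tM_act ρk) (H2.mapM (tM ρk) (tM_act ρk) α) = α := by
    rw [H2.mapM_mapM]
    refine (H2.mapM_congr _ (fun g m => rfl) (fun m => ?_) α).trans (H2.mapM_id (fun g m => rfl) α)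
    obtain ⟨x, rfl⟩ := (S2 ρk).q_surjective m
    change (S2 ρk).q (K2.map (swp k) (K2.map (swp k) x)) = _
    rw [K2.map_map, swp_swp, K2.map_id]
    rfl
  rw [← h2, H2.mapM_mapM] at h3
  have h4 : H2.mapM (lcM (S1 ρk) (S2 ρk) (S12_c ρk))
      (lcM_act (S1 ρk) (S2 ρk) (S12_c ρk) (S12_ρ ρk)) α = 0 := by
    rw [← h3, H2.mapM_mapM]
    exact H2.mapM_zero _ (fun m => lc_swp_inc ρk m) β
  rw [← h1, h4, map_zero]

end

end Run7.h34
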