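import Pool.Agent.Run7.h34.Tame
import Pool.Agent.Run7.h34.Base

/-! The groups `N(V)` and `Sha N(V)`, in terms of cocycles. -/

set_option linter.unusedSectionVars false

namespace Run7.h34

open AlgebraicGeometry CategoryTheory Limits TopologicalSpace

universe u

/-- A group acting on a field `E`, a subgroup `R` of `K₂ E` and a set `X` of valuations. -/
structure Sit (G : Type u) (E : Type u) [Field E] where
  /-- the subgroup of `K₂ E` -/
  R : AddSubgroup (K2 E)
  /-- the action on `E` -/
  ρ : G → E →+* E
  /-- the set of valuations -/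
  X : Set (Val E)

namespace Sit

variable {G : Type u} [Group G] [TopologicalSpace G] {E : Type u} [Field E] (S : Sit G E)

/-- A cochain with values in `K₂ E`, taken modulo `R`, is a locally constant 2-cocycle with
values in `K₂ E / R`. -/
def IsCocycle (a : G × G → K2 E) : Prop :=
  IsLocallyConstant (fun p => QuotientAddGroup.mk' S.R (a p)) ∧
    ∀ x y z, K2.map (S.ρ x) (a (y, z)) - a (x * y, z) + a (x, y * z) - a (x, y) ∈ S.R

/-- A cochain with values in `K₂ E`, taken modulo `R`, is the coboundary of a locally constant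
1-cochain with values in `K₂ E / R`. -/
def IsCoboundary (a : G × G → K2 E) : Prop :=
  ∃ c : G → K2 E, IsLocallyConstant (fun g => QuotientAddGroup.mk' S.R (c g)) ∧
    ∀ x y, a (x, y) - (K2.map (S.ρ x) (c y) - c (x * y) + c x) ∈ S.R

/-- A cocycle with values in `K₂ E / R` whose tame symbols at the valuations in `X` are the
coboundary of a locally constant cochain `c` with values in the direct sum, over the valuations
in `X`, of the multiplicative groups of the residue fields. An element of the latter is given by
a family with finite support of elements of `E` which are units at the respective valuation,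
taken modulo principal units. -/
def IsN (a : G × G → K2 E) : Prop :=
  S.IsCocycle a ∧ ∃ c : G → Val E → Additive Eˣ, IsLocallyConstant (fun g => PiX.mk S.X (c g)) ∧
    (∀ g, {w | c g w ≠ 0}.Finite ∧ ∀ w ∈ S.X, w ((c g w).toMul : E) = 1) ∧
    ∀ x y, tam S.X (a (x, y)) = PiX.mk S.X (fun w =>
      MonoidHom.toAdditive (Units.map (S.ρ x).toMonoidHom) (c y (w.comap (S.ρ x))) -
        c (x * y) w + c x w)

end Sit

/-- The normalized discrete valuations of the function field whose valuation ring is the local
ring of a point of codimension one. -/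
def divs (X : Scheme.{u}) [IsIntegral X] : Set (Val X.functionField) :=
  {w | Function.Surjective w ∧ ∃ x : X, ringKrullDim (X.presheaf.stalk x) = 1 ∧
    ∀ e, w e ≤ 1 ↔ e ∈ (algebraMap (X.presheaf.stalk x) X.functionField).range}

section

variable {K : Type u} [Field K] {V : Scheme.{u}} (f : V ⟶ Spec (CommRingCat.of K))
  [GeometricallyIntegral f]

/-- For an extension field `L` of `K` and an extension field `Ω` of `L`: the automorphisms of
`Ω` over `L` acting on the function field of `V` over `Ω`, the image of `K₂ Ω` and the points of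
codimension one of `V` over `Ω`. -/
noncomputable def sit (L : Type u) [Field L] [Algebra K L] (Ω : Type u) [Field Ω]
    [Algebra L Ω] [Algebra K Ω] [IsScalarTower K L Ω] : Sit (Ω ≃ₐ[L] Ω) (FFd f Ω) where
  R := (K2.map (cst0 f Ω)).range
  ρ g := FFm f ((g : Ω →ₐ[L] Ω).restrictScalars K)
  X := divs (VB f Ω)

variable {Ks : Type u} [Field Ks] [Algebra K Ks]

/-- The restriction of a class to an extension field `L` with separable closure `Ls` vanishes. -/
def TrivialAlong (L : Type u) [Field L] [Algebra K L] (Ls : Type u) [Field Ls]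
    [Algebra L Ls] [Algebra K Ls] [IsScalarTower K L Ls] (j : Ks →ₐ[K] Ls)
    (θ : (Ls ≃ₐ[L] Ls) → (Ks ≃ₐ[K] Ks)) (a : (Ks ≃ₐ[K] Ks) × (Ks ≃ₐ[K] Ks) → K2 (FFd f Ks)) :
    Prop :=
  (sit f L Ls).IsCoboundary fun p => K2.map (FFm f j) (a (θ p.1, θ p.2))

/-- A class becomes trivial over an extension field `L` of `K`: its restrictions along all
embeddings `j` of the separable closure `Ks` of `K` into separable closures `Ls` of `L`, with the
corresponding homomorphism `θ` of Galois groups, vanish. -/
def TrivialOver (L : Type u) [Field L] [Algebra K L]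
    (a : (Ks ≃ₐ[K] Ks) × (Ks ≃ₐ[K] Ks) → K2 (FFd f Ks)) : Prop :=
  ∀ (Ls : Type u) [Field Ls] [Algebra L Ls] [IsSepClosure L Ls] [Algebra K Ls]
    [IsScalarTower K L Ls] (j : Ks →ₐ[K] Ls) (θ : (Ls ≃ₐ[L] Ls) → (Ks ≃ₐ[K] Ks)),
    (∀ g x, j (θ g x) = g (j x)) → TrivialAlong f L Ls j θ a

/-- The class of a cochain lies in `N(V)`. -/
def InN (a : (Ks ≃ₐ[K] Ks) × (Ks ≃ₐ[K] Ks) → K2 (FFd f Ks)) : Prop := (sit f K Ks).IsN a

/-- The class of a cochain lies in `Sha N(V)`: it lies in `N(V)` and becomes trivial over the
completions of `K` at all nontrivial absolute values. -/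
def InShaN (a : (Ks ≃ₐ[K] Ks) × (Ks ≃ₐ[K] Ks) → K2 (FFd f Ks)) : Prop :=
  InN f a ∧ ∀ v : AbsoluteValue K ℝ, v.IsNontrivial → TrivialOver f v.Completion a

/-- The class of a cochain in `H²(g, K₂ Ks(V) / K₂ Ks)` vanishes. -/
def IsZero (a : (Ks ≃ₐ[K] Ks) × (Ks ≃ₐ[K] Ks) → K2 (FFd f Ks)) : Prop :=
  (sit f K Ks).IsCoboundary a

end

end Run7.h34
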