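import Pool.Agent.Run7.h34.K2

/-! Tame symbols at discrete valuations with values in unit groups modulo principal units. -/

namespace Run7.h34

open scoped WithZero

universe u v

/-- Valuations with values in `ℤᵐ⁰`; the surjective ones are the normalized discrete ones. -/
abbrev Val (E : Type u) [Field E] : Type u := Valuation E ℤᵐ⁰

section

variable {E : Type u} [Field E]

/-- The additive order of a unit of the field. -/
noncomputable def ord (w : Val E) (a : Eˣ) : ℤ := -WithZero.log (w (a : E))

theorem Val.ne_zero (w : Val E) (a : Eˣ) : w (a : E) ≠ 0 := (w.ne_zero_iff).2 a.ne_zero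

theorem ord_mul (w : Val E) (a b : Eˣ) : ord w (a * b) = ord w a + ord w b := by
  rw [ord, ord, ord, Units.val_mul, map_mul, WithZero.log_mul (w.ne_zero a) (w.ne_zero b)]
  ring

theorem val_eq_exp (w : Val E) (a : Eˣ) : w (a : E) = WithZero.exp (-ord w a) := by
  rw [ord, neg_neg, WithZero.exp_log (w.ne_zero a)]

theorem ord_eq_zero (w : Val E) (a : Eˣ) : ord w a = 0 ↔ w (a : E) = 1 := by
  rw [val_eq_exp, WithZero.exp_eq_one, neg_eq_zero]

theorem ord_pos (w : Val E) (a : Eˣ) : 0 < ord w a ↔ w (a : E) < 1 := by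
  rw [val_eq_exp, ← WithZero.exp_zero, WithZero.exp_lt_exp, neg_lt_zero]

/-- The order as a homomorphism. -/
noncomputable def ordHom (w : Val E) : Eˣ →* Multiplicative ℤ where
  toFun a := Multiplicative.ofAdd (ord w a)
  map_one' := by rw [(ord_eq_zero w 1).2 (by simp)]; rfl
  map_mul' a b := by rw [ord_mul]; rfl

@[simp] theorem ord_one (w : Val E) : ord w 1 = 0 := map_one (ordHom w)

@[simp] theorem ord_inv (w : Val E) (a : Eˣ) : ord w a⁻¹ = -ord w a := map_inv (ordHom w) a

theorem ord_div (w : Val E) (a b : Eˣ) : ord w (a / b) = ord w a - ord w b :=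
  map_div (ordHom w) a b

theorem ord_pow (w : Val E) (a : Eˣ) (n : ℕ) : ord w (a ^ n) = n * ord w a := by
  have := map_pow (ordHom w) a n
  have h : ord w (a ^ n) = n • ord w a := this
  rw [h, nsmul_eq_mul]

theorem ord_zpow (w : Val E) (a : Eˣ) (n : ℤ) : ord w (a ^ n) = n * ord w a := by
  have := map_zpow (ordHom w) a n
  have h : ord w (a ^ n) = n • ord w a := this
  rw [h, smul_eq_mul]

@[simp] theorem ord_neg (w : Val E) (a : Eˣ) : ord w (-a) = ord w a := by
  rw [ord, ord, Units.val_neg, Valuation.map_neg]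

/-- The group of principal units. -/
def pu (w : Val E) : Subgroup Eˣ where
  carrier := {a | w ((a : E) - 1) < 1}
  one_mem' := by simp
  mul_mem' := by
    intro a b ha hb
    simp only [Set.mem_ofPred_eq] at *
    have h1 : w (a : E) ≤ 1 := by
      have : (a : E) = ((a : E) - 1) + 1 := by ring
      rw [this]
      exact (w.map_add _ _).trans (max_le ha.le (by simp))
    have : ((a * b : Eˣ) : E) - 1 = (a : E) * ((b : E) - 1) + ((a : E) - 1) := by
      push_cast; ring
    rw [this]
    refine lt_of_le_of_lt (w.map_add _ _) (max_lt ?_ ha)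
    rw [map_mul]
    exact mul_lt_one_of_nonneg_of_lt_one_right h1 zero_le hb
  inv_mem' := by
    intro a ha
    simp only [Set.mem_ofPred_eq] at *
    have h1 : w (a : E) = 1 := by
      have : (a : E) = 1 - (1 - (a : E)) := by ring
      rw [this]
      apply Valuation.map_one_sub_of_lt
      rw [Valuation.map_sub_swap]
      exact ha
    have : ((a⁻¹ : Eˣ) : E) - 1 = -(((a : E) - 1) * (a : E)⁻¹) := by
      rw [Units.val_inv_eq_inv_val, sub_mul, one_mul, mul_inv_cancel₀ a.ne_zero]; ring
    rw [this, Valuation.map_neg, map_mul, map_inv₀, h1, inv_one, mul_one]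
    exact ha

theorem mem_pu {w : Val E} {a : Eˣ} : a ∈ pu w ↔ w ((a : E) - 1) < 1 := Iff.rfl

/-- The tame symbol `(-1)^(v(a)v(b)) a^(v(b)) b^(-v(a))`, written additively, as an element
of the multiplicative group of the field. -/
noncomputable def tame (w : Val E) (a b : Eˣ) : Additive Eˣ :=
  (ord w a * ord w b) • Additive.ofMul (-1) + ord w b • Additive.ofMul a -
    ord w a • Additive.ofMul b

theorem tame_mul_left (w : Val E) (a a' b : Eˣ) :
    tame w (a * a') b = tame w a b + tame w a' b := by
  simp only [tame, ord_mul, ofMul_mul]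
  module

theorem tame_mul_right (w : Val E) (a b b' : Eˣ) :
    tame w a (b * b') = tame w a b + tame w a b' := by
  simp only [tame, ord_mul, ofMul_mul]
  module

theorem tame_of_ord_zero {w : Val E} {a b : Eˣ} (ha : ord w a = 0) :
    tame w a b = ord w b • Additive.ofMul a := by
  simp [tame, ha]

theorem ord_tame (w : Val E) (a b : Eˣ) : ord w (tame w a b).toMul = 0 := by
  have h : (tame w a b).toMul = (-1) ^ (ord w a * ord w b) * a ^ ord w b * (b ^ ord w a)⁻¹ := by
    simp only [tame, toMul_sub, toMul_add, toMul_zsmul, toMul_ofMul, div_eq_mul_inv]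
  rw [h, ord_mul, ord_mul, ord_inv, ord_zpow, ord_zpow, ord_zpow, ord_neg, ord_one]
  ring

theorem neg_one_zpow_sq (n : ℤ) : (-1 : Eˣ) ^ (n * n) = (-1) ^ n := by
  rcases Int.even_or_odd n with h | h
  · rw [h.neg_one_zpow, (h.mul_left n).neg_one_zpow]
  · rw [h.neg_one_zpow, (h.mul h).neg_one_zpow]

theorem neg_one_zsmul_sq (n : ℤ) : (n * n) • Additive.ofMul (-1 : Eˣ) = n • Additive.ofMul (-1) := by
  rw [← ofMul_zpow, ← ofMul_zpow, neg_one_zpow_sq]

theorem neg_ofMul_neg_one : - Additive.ofMul (-1 : Eˣ) = Additive.ofMul (-1) := by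
  rw [← ofMul_inv]; simp

theorem tame_steinberg (w : Val E) {a b : Eˣ} (h : (a : E) + (b : E) = 1) :
    (tame w a b).toMul ∈ pu w := by
  rcases lt_trichotomy (w (a : E)) 1 with ha | ha | ha
  · have hb : b ∈ pu w := by
      rw [mem_pu]
      have : (b : E) - 1 = -(a : E) := by rw [← h]; ring
      rw [this, Valuation.map_neg]; exact ha
    have hb1 : w (b : E) = 1 := by
      have : (b : E) = 1 - a := by rw [← h]; ring
      rw [this]; exact Valuation.map_one_sub_of_lt w ha
    have h0 : ord w b = 0 := (ord_eq_zero w b).2 hb1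
    have : tame w a b = -(ord w a • Additive.ofMul b) := by simp [tame, h0]
    rw [this]
    exact (pu w).inv_mem ((pu w).zpow_mem hb _)
  · have ha0 : ord w a = 0 := (ord_eq_zero w a).2 ha
    rw [tame_of_ord_zero ha0]
    rcases lt_trichotomy (w (b : E)) 1 with hb | hb | hb
    · have : a ∈ pu w := by
        rw [mem_pu]
        have : (a : E) - 1 = -(b : E) := by rw [← h]; ring
        rw [this, Valuation.map_neg]; exact hb
      exact (pu w).zpow_mem this _
    · rw [(ord_eq_zero w b).2 hb, zero_smul]; exact (pu w).one_mem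
    · exfalso
      have : (b : E) = 1 - a := by rw [← h]; ring
      have h2 : w (b : E) ≤ 1 := by
        rw [this]
        exact (w.map_sub _ _).trans (max_le (by simp) ha.le)
      exact absurd hb (not_lt.2 h2)
  · have hw : w (b : E) = w (a : E) := by
      have : (b : E) = 1 - a := by rw [← h]; ring
      rw [this]
      exact Valuation.map_sub_eq_of_lt_right w (by rw [map_one]; exact ha)
    have hab : ord w b = ord w a := by rw [ord, ord, hw]
    have h1 : tame w a b = -(ord w a • Additive.ofMul (-b * a⁻¹)) := by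
      have h4 : Additive.ofMul (-b * a⁻¹) =
          Additive.ofMul (-1) + Additive.ofMul b - Additive.ofMul a := by
        rw [← ofMul_mul, ← ofMul_div, div_eq_mul_inv, neg_one_mul]
      rw [h4, tame, hab, neg_one_zsmul_sq]
      nth_rewrite 1 [← neg_ofMul_neg_one]
      module
    rw [h1]
    refine (pu w).inv_mem ((pu w).zpow_mem ?_ _)
    change w (((-b * a⁻¹ : Eˣ) : E) - 1) < 1
    have h3 : ((-b * a⁻¹ : Eˣ) : E) - 1 = -(a : E)⁻¹ := by
      have hb2 : (b : E) = 1 - a := by rw [← h]; ring
      have ha2 : (a : E) ≠ 0 := a.ne_zero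
      push_cast
      rw [hb2]
      field_simp
      ring
    rw [h3, Valuation.map_neg, map_inv₀]
    exact inv_lt_one_of_one_lt₀ ha

/-- Functions which are principal units at all valuations in `X`. -/
def NX (X : Set (Val E)) : AddSubgroup (Val E → Additive Eˣ) where
  carrier := {f | ∀ w ∈ X, (f w).toMul ∈ pu w}
  zero_mem' := fun w _ => (pu w).one_mem
  add_mem' := fun hf hg w hw => (pu w).mul_mem (hf w hw) (hg w hw)
  neg_mem' := fun hf w hw => (pu w).inv_mem (hf w hw)

/-- Families of elements of the field indexed by the valuations in `X`, each taken modulo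
principal units. -/
def PiX (X : Set (Val E)) : Type u := (Val E → Additive Eˣ) ⧸ NX X

noncomputable instance (X : Set (Val E)) : AddCommGroup (PiX X) :=
  QuotientAddGroup.Quotient.addCommGroup (NX X)

/-- The quotient map. -/
noncomputable def PiX.mk (X : Set (Val E)) : (Val E → Additive Eˣ) →+ PiX X :=
  QuotientAddGroup.mk' (NX X)

theorem PiX.mk_surjective (X : Set (Val E)) : Function.Surjective (PiX.mk X) :=
  QuotientAddGroup.mk'_surjective _

theorem PiX.mk_eq_zero {X : Set (Val E)} {f : Val E → Additive Eˣ} :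
    PiX.mk X f = 0 ↔ ∀ w ∈ X, (f w).toMul ∈ pu w := by
  rw [← AddMonoidHom.mem_ker]
  have : (PiX.mk X).ker = NX X := QuotientAddGroup.ker_mk' _
  rw [this]; rfl

/-- The direct sum of the multiplicative groups of the residue fields of the valuations in `X`:
the classes of the families of finite support all of whose members are units at the respective
valuation. -/
def DS (X : Set (Val E)) : Set (PiX X) :=
  {d | ∃ f : Val E → Additive Eˣ, {w | f w ≠ 0}.Finite ∧
    (∀ w ∈ X, w ((f w).toMul : E) = 1) ∧ d = PiX.mk X f}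

/-- The set `DS X` as a subgroup. -/
def DX (X : Set (Val E)) : AddSubgroup (PiX X) where
  carrier := DS X
  zero_mem' := ⟨0, by simp, fun w _ => by simp, by simp⟩
  add_mem' := by
    rintro _ _ ⟨f, hf, hf', rfl⟩ ⟨g, hg, hg', rfl⟩
    refine ⟨f + g, (hf.union hg).subset ?_, fun w hw => ?_, by simp⟩
    · intro w hw
      by_contra h
      simp only [Set.mem_union, Set.mem_ofPred_eq, not_or, not_not] at h
      exact hw (by simp [h.1, h.2])
    · rw [Pi.add_apply, toMul_add, Units.val_mul, map_mul, hf' w hw, hg' w hw, one_mul]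
  neg_mem' := by
    rintro _ ⟨f, hf, hf', rfl⟩
    refine ⟨-f, hf.subset ?_, fun w hw => ?_, by simp⟩
    · intro w hw
      simpa using hw
    · rw [Pi.neg_apply, toMul_neg, Units.val_inv_eq_inv_val, map_inv₀, hf' w hw, inv_one]

/-- The total tame symbol. -/
noncomputable def tam (X : Set (Val E)) : K2 E →+ PiX X :=
  K2.lift (fun a b => PiX.mk X (fun w => tame w a b))
    (fun a a' b => by
      rw [← map_add]; congr 1; ext w; rw [tame_mul_left]; rfl)
    (fun a b b' => by
      rw [← map_add]; congr 1; ext w; rw [tame_mul_right]; rfl)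
    (fun a b h => PiX.mk_eq_zero.2 fun w _ => tame_steinberg w h)

theorem tam_sy (X : Set (Val E)) (a b : Eˣ) :
    tam X (sy a b) = PiX.mk X (fun w => tame w a b) := rfl

end

end Run7.h34
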